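import Mathlib

/-!
# Pocset frame for arrangements of orthogonal circles: cells and their number

`orth` is the relation orthogonal; for two different circles which are not orthogonal (so disjoint)
`side i j` is the side of `i` in which `j` lies.  A cell is a choice of sides which is pairwise
compatible.
-/

set_option autoImplicit false

open Finset

namespace Pool.Agent.Helper56.OC

/-- The combinatorial data of an arrangement of orthogonal circles. -/
structure PArr (ι : Type) where
  /-- orthogonality -/
  orth : ι → ι → Prop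
  /-- `side i j` is the side of `i` in which `j` lies -/
  side : ι → ι → Bool
  symm : ∀ {i j : ι}, orth i j → orth j i
  irrefl : ∀ i : ι, ¬ orth i i
  sep : ∀ {x j k : ι}, x ≠ j → x ≠ k → ¬ orth x j → ¬ orth x k → side x j ≠ side x k →
    ¬ orth j k ∧ side j k = side j x

namespace PArr

variable {ι : Type} [DecidableEq ι] (A : PArr ι)

/-- `s` is pairwise compatible on `T` -/
def IsCell (T : Finset ι) (s : ι → Bool) : Prop :=
  ∀ i ∈ T, ∀ j ∈ T, i ≠ j → ¬ A.orth i j → s i = A.side i j ∨ s j = A.side j i

/-- the clique condition -/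
def IsClq (K : Finset ι) : Prop := ∀ i ∈ K, ∀ j ∈ K, i ≠ j → A.orth i j

/-- `i` is a facet of `s` (with respect to `T`) -/
def IsFacet (T : Finset ι) (s : ι → Bool) (i : ι) : Prop :=
  ∀ j ∈ T, j ≠ i → ¬ A.orth i j → s j = A.side j i

/-- the sign vector of a set -/
def sg (s : Finset ι) : ι → Bool := fun i => decide (i ∈ s)

open Classical in
/-- cells of `T`, coded as subsets of `T` -/
noncomputable def cellsF (T : Finset ι) : Finset (Finset ι) :=
  T.powerset.filter (fun s => A.IsCell T (sg s))

open Classical in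
/-- cliques in `T` -/
noncomputable def clqs (T : Finset ι) : Finset (Finset ι) :=
  T.powerset.filter (fun K => A.IsClq K)

open Classical in
/-- common neighbours in `T` of the members of `K` -/
noncomputable def nbr (T K : Finset ι) : Finset ι := T.filter (fun j => ∀ i ∈ K, A.orth i j)

theorem mem_cellsF {T s : Finset ι} : s ∈ A.cellsF T ↔ s ⊆ T ∧ A.IsCell T (sg s) := by
  classical
  unfold cellsF; rw [mem_filter, mem_powerset]

theorem mem_clqs {T K : Finset ι} : K ∈ A.clqs T ↔ K ⊆ T ∧ A.IsClq K := by
  classical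
  unfold clqs; rw [mem_filter, mem_powerset]

theorem mem_nbr {T K : Finset ι} {j : ι} : j ∈ A.nbr T K ↔ j ∈ T ∧ ∀ i ∈ K, A.orth i j := by
  classical
  unfold nbr; rw [mem_filter]

/-- if `j` is orthogonal to `x` and both are disjoint from `k`, they lie on the same side of `k` -/
theorem side_eq_of_orth {x j k : ι} (h : A.orth x j) (hk : k ≠ x) (hk' : k ≠ j)
    (h1 : ¬ A.orth k x) (h2 : ¬ A.orth k j) : A.side k x = A.side k j := by
  by_contra hne
  exact (A.sep hk hk' h1 h2 hne).1 h

/-- The cells of `T` which have all members of the clique `K` among their facets. -/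
theorem card_facet {T K : Finset ι} (hKT : K ⊆ T) (hK : A.IsClq K) :
    (open Classical in ((A.cellsF T).filter (fun s => ∀ i ∈ K, A.IsFacet T (sg s) i)).card) =
      2 ^ K.card * (A.cellsF (A.nbr T K)).card := by
  classical
  rw [← card_powerset, ← card_product]
  set N := A.nbr T K with hN
  have hNT : N ⊆ T := fun j hj => ((A.mem_nbr).1 hj).1
  have hdis : Disjoint K N := by
    rw [disjoint_left]
    intro i hi hi'
    exact A.irrefl i (((A.mem_nbr).1 hi').2 i hi)
  -- the members of `T` outside `K ∪ N`
  set R := (T \ K) \ N with hR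
  -- for j in R there is i in K with not orth
  have hRk : ∀ j ∈ R, ∃ i ∈ K, ¬ A.orth i j := by
    intro j hj
    rw [hR, mem_sdiff, mem_sdiff] at hj
    by_contra hc
    push Not at hc
    exact hj.2 ((A.mem_nbr).2 ⟨hj.1.1, hc⟩)
  -- the prescribed sign
  have hσ : ∃ σ : ι → Bool, ∀ j ∈ R, ∀ i ∈ K, ¬ A.orth i j → A.side j i = σ j := by
    have : ∀ j : ι, ∃ b : Bool, j ∈ R → ∀ i ∈ K, ¬ A.orth i j → A.side j i = b := by
      intro j
      by_cases hj : j ∈ R
      · obtain ⟨i0, hi0, hi0'⟩ := hRk j hj
        refine ⟨A.side j i0, fun _ i hi hij => ?_⟩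
        by_cases h : i = i0
        · rw [h]
        · have hjK : j ∉ K := by
            rw [hR, mem_sdiff, mem_sdiff] at hj
            exact hj.1.2
          exact A.side_eq_of_orth (hK i hi i0 hi0 h) (fun h' => hjK (h' ▸ hi))
            (fun h' => hjK (h' ▸ hi0)) (fun h' => hij (A.symm h')) (fun h' => hi0' (A.symm h'))
      · exact ⟨true, fun h => absurd h hj⟩
    choose σ h using this
    exact ⟨σ, h⟩
  obtain ⟨σ, hσ⟩ := hσ
  refine card_bij' (fun s _ => (s ∩ K, s ∩ N))
    (fun p _ => (p.1 ∪ p.2) ∪ R.filter (fun j => σ j = true)) ?_ ?_ ?_ ?_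
  · -- maps into
    intro s hs
    rw [mem_filter, mem_cellsF] at hs
    rw [mem_product, mem_powerset, mem_cellsF]
    refine ⟨inter_subset_right, inter_subset_right, ?_⟩
    intro i hi j hj hij hor
    have h := hs.1.2 i (hNT hi) j (hNT hj) hij hor
    have e1 : sg (s ∩ N) i = sg s i := by unfold sg; simp [hi]
    have e2 : sg (s ∩ N) j = sg s j := by unfold sg; simp [hj]
    rw [e1, e2]; exact h
  · -- inverse maps into
    rintro ⟨a, t⟩ hp
    rw [mem_product, mem_powerset, mem_cellsF] at hp
    obtain ⟨ha, ht, hc⟩ := hp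
    simp only at ha ht hc
    set u := (a ∪ t) ∪ R.filter (fun j => σ j = true) with hu
    have hsub : u ⊆ T := by
      intro j hj
      rw [hu, mem_union, mem_union, mem_filter] at hj
      rcases hj with (h | h) | h
      · exact hKT (ha h)
      · exact hNT (ht h)
      · rw [hR, mem_sdiff, mem_sdiff] at h; exact h.1.1.1
    have eN : ∀ j ∈ N, sg u j = sg t j := by
      intro j hj
      unfold sg
      have h1 : j ∉ a := fun h => (disjoint_left.1 hdis (ha h)) hj
      have h2 : j ∉ R := by rw [hR, mem_sdiff]; exact fun h => h.2 hj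
      rw [hu]
      simp [h1, h2]
    have eR : ∀ j ∈ R, sg u j = σ j := by
      intro j hj
      have hj' := hj
      rw [hR, mem_sdiff, mem_sdiff] at hj'
      unfold sg
      have h1 : j ∉ a := fun h => hj'.1.2 (ha h)
      have h2 : j ∉ t := fun h => hj'.2 (ht h)
      rw [hu]
      simp [h1, h2, hj]
    have hfac : ∀ i ∈ K, A.IsFacet T (sg u) i := by
      intro i hi j hj hji hor
      have hjN : j ∉ N := fun h => hor (((A.mem_nbr).1 h).2 i hi)
      have hjK : j ∉ K := fun h => hor (hK i hi j h (Ne.symm hji))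
      have hjR : j ∈ R := by
        rw [hR, mem_sdiff, mem_sdiff]; exact ⟨⟨hj, hjK⟩, hjN⟩
      rw [eR j hjR, hσ j hjR i hi hor]
    rw [mem_filter, mem_cellsF]
    refine ⟨⟨hsub, ?_⟩, hfac⟩
    intro i hi j hj hij hor
    by_cases hiK : i ∈ K
    · right; exact hfac i hiK j hj (Ne.symm hij) hor
    by_cases hjK : j ∈ K
    · left; exact hfac j hjK i hi hij (fun h => hor (A.symm h))
    by_cases hiN : i ∈ N
    · by_cases hjN : j ∈ N
      · rw [eN i hiN, eN j hjN]; exact hc i hiN j hjN hij hor
      · -- j in R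
        have hjR : j ∈ R := by rw [hR, mem_sdiff, mem_sdiff]; exact ⟨⟨hj, hjK⟩, hjN⟩
        obtain ⟨k, hk, hkj⟩ := hRk j hjR
        right
        rw [eR j hjR, ← hσ j hjR k hk hkj]
        have hki : A.orth k i := ((A.mem_nbr).1 hiN).2 k hk
        exact A.side_eq_of_orth hki (fun h => hjK (h ▸ hk)) (Ne.symm hij)
          (fun h => hkj (A.symm h)) (fun h => hor (A.symm h))
    · have hiR : i ∈ R := by rw [hR, mem_sdiff, mem_sdiff]; exact ⟨⟨hi, hiK⟩, hiN⟩
      obtain ⟨k, hk, hki⟩ := hRk i hiR
      by_cases hjN : j ∈ N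
      · left
        rw [eR i hiR, ← hσ i hiR k hk hki]
        have hkj : A.orth k j := ((A.mem_nbr).1 hjN).2 k hk
        exact A.side_eq_of_orth hkj (fun h => hiK (h ▸ hk)) hij
          (fun h => hki (A.symm h)) hor
      · have hjR : j ∈ R := by rw [hR, mem_sdiff, mem_sdiff]; exact ⟨⟨hj, hjK⟩, hjN⟩
        -- signs of i, j in R are the sides of members of K
        obtain ⟨l, hl, hlj⟩ := hRk j hjR
        rw [eR i hiR, eR j hjR]
        by_contra hcon
        push Not at hcon
        obtain ⟨h1, h2⟩ := hcon
        -- side i k ≠ side i j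
        have e1 := hσ i hiR k hk hki
        have e2 := hσ j hjR l hl hlj
        rw [← e1] at h1
        rw [← e2] at h2
        have hik : i ≠ k := fun h => hiK (h ▸ hk)
        have hjl : j ≠ l := fun h => hjK (h ▸ hl)
        -- sep at i: k and j on different sides of i
        obtain ⟨hkj, hs⟩ := A.sep hik hij (fun h => hki (A.symm h)) hor h1
        obtain ⟨hkj', hs'⟩ := A.sep hij hik hor (fun h => hki (A.symm h)) (Ne.symm h1)
        -- side j k = side j i
        have e3 := hσ j hjR k hk hkj
        exact h2 (by rw [e2, ← e3, hs'])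
  · intro s hs
    rw [mem_filter, mem_cellsF] at hs
    simp only
    ext j
    simp only [mem_union, mem_inter, mem_filter]
    constructor
    · rintro ((h | h) | h)
      · exact h.1
      · exact h.1
      · obtain ⟨hjR, hσj⟩ := h
        obtain ⟨k, hk, hkj⟩ := hRk j hjR
        have hj' := hjR
        rw [hR, mem_sdiff, mem_sdiff] at hj'
        have := hs.2 k hk j hj'.1.1 (fun h => hj'.1.2 (h ▸ hk)) hkj
        rw [hσ j hjR k hk hkj, hσj] at this
        unfold sg at this
        simpa using this
    · intro hjs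
      by_cases hjK : j ∈ K
      · exact Or.inl (Or.inl ⟨hjs, hjK⟩)
      by_cases hjN : j ∈ N
      · exact Or.inl (Or.inr ⟨hjs, hjN⟩)
      right
      have hjR : j ∈ R := by
        rw [hR, mem_sdiff, mem_sdiff]; exact ⟨⟨hs.1.1 hjs, hjK⟩, hjN⟩
      refine ⟨hjR, ?_⟩
      obtain ⟨k, hk, hkj⟩ := hRk j hjR
      have := hs.2 k hk j (hs.1.1 hjs) (fun h => hjK (h ▸ hk)) hkj
      rw [hσ j hjR k hk hkj] at this
      unfold sg at this
      rw [← this]; simpa using hjs
  · rintro ⟨a, t⟩ hp
    rw [mem_product, mem_powerset, mem_cellsF] at hp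
    obtain ⟨ha, ht, hc⟩ := hp
    simp only at ha ht hc
    have hRK : ∀ j ∈ R, j ∉ K := by
      intro j hj; rw [hR, mem_sdiff, mem_sdiff] at hj; exact hj.1.2
    have hRN : ∀ j ∈ R, j ∉ N := by
      intro j hj; rw [hR, mem_sdiff, mem_sdiff] at hj; exact hj.2
    simp only [Prod.mk.injEq]
    constructor
    · ext j
      simp only [mem_inter, mem_union, mem_filter]
      constructor
      · rintro ⟨(h | h) | h, hjK⟩
        · exact h
        · exact absurd (ht h) (disjoint_left.1 hdis hjK)
        · exact absurd hjK (hRK j h.1)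
      · intro h; exact ⟨Or.inl (Or.inl h), ha h⟩
    · ext j
      simp only [mem_inter, mem_union, mem_filter]
      constructor
      · rintro ⟨(h | h) | h, hjN⟩
        · exact absurd hjN (disjoint_left.1 hdis (ha h))
        · exact h
        · exact absurd hjN (hRN j h.1)
      · intro h; exact ⟨Or.inl (Or.inr h), ht h⟩

end PArr

end Pool.Agent.Helper56.OC
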