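import Mathlib
import Pool.Agent.Helper56.OC.Frame

/-!
# Pocset frame: the number of cells is the number of cliques
-/

set_option autoImplicit false

open Finset

namespace Pool.Agent.Helper56.OC

namespace PArr

variable {ι : Type} [DecidableEq ι] (A : PArr ι)

theorem facet_of_update {T : Finset ι} {s : ι → Bool} {x : ι} (hx : x ∈ T)
    (h1 : A.IsCell T s) (h2 : A.IsCell T (Function.update s x (!s x))) : A.IsFacet T s x := by
  intro j hj hjx hor
  by_contra hne
  have a1 := h1 x hx j hj (Ne.symm hjx) hor
  have a2 := h2 x hx j hj (Ne.symm hjx) hor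
  rw [Function.update_self, Function.update_of_ne hjx] at a2
  rcases a1 with a1 | a1
  · rcases a2 with a2 | a2
    · rw [← a1] at a2; cases h : s x <;> simp [h] at a2
    · exact hne a2
  · exact hne a1

theorem cell_update {T : Finset ι} {s : ι → Bool} {x : ι}
    (h1 : A.IsCell T s) (h2 : A.IsFacet T s x) (b : Bool) : A.IsCell T (Function.update s x b) := by
  intro i hi j hj hij hor
  by_cases hix : i = x
  · subst hix
    right
    rw [Function.update_of_ne (Ne.symm hij)]
    exact h2 j hj (Ne.symm hij) hor
  by_cases hjx : j = x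
  · subst hjx
    left
    rw [Function.update_of_ne hij]
    exact h2 i hi hij (fun h => hor (A.symm h))
  rw [Function.update_of_ne hix, Function.update_of_ne hjx]
  exact h1 i hi j hj hij hor

theorem facet_update {T : Finset ι} {s : ι → Bool} {x : ι} (b : Bool) :
    A.IsFacet T (Function.update s x b) x ↔ A.IsFacet T s x := by
  constructor <;> intro h j hj hjx hor
  · have := h j hj hjx hor; rwa [Function.update_of_ne hjx] at this
  · rw [Function.update_of_ne hjx]; exact h j hj hjx hor

theorem facet_update_orth {T : Finset ι} {s : ι → Bool} {x i : ι} (hix : A.orth i x) (b : Bool) :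
    A.IsFacet T (Function.update s x b) i ↔ A.IsFacet T s i := by
  constructor <;> intro h j hj hji hor
  · have := h j hj hji hor
    rwa [Function.update_of_ne (fun h' => hor (by rw [h']; exact hix))] at this
  · rw [Function.update_of_ne (fun h' => hor (by rw [h']; exact hix))]; exact h j hj hji hor

/-- cells restrict to subsets -/
theorem IsCell.mono {T T' : Finset ι} {s : ι → Bool} (h : A.IsCell T s) (hT : T' ⊆ T) :
    A.IsCell T' s := fun i hi j hj hij hor => h i (hT hi) j (hT hj) hij hor

theorem isCell_congr {T : Finset ι} {s s' : ι → Bool} (h : ∀ i ∈ T, s i = s' i) :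
    A.IsCell T s ↔ A.IsCell T s' := by
  constructor <;> intro h1 i hi j hj hij hor
  · rw [← h i hi, ← h j hj]; exact h1 i hi j hj hij hor
  · rw [h i hi, h j hj]; exact h1 i hi j hj hij hor

/-- every cell of `T` extends to `insert x T` -/
theorem exists_ext {T : Finset ι} {x : ι} {s : ι → Bool} (hx : x ∉ T) (h : A.IsCell T s) :
    ∃ b : Bool, A.IsCell (insert x T) (Function.update s x b) := by
  classical
  -- blocked signs
  have key : ∃ b : Bool, ∀ j ∈ T, ¬ A.orth x j → b = A.side x j ∨ s j = A.side j x := by
    by_cases h0 : ∃ j ∈ T, ¬ A.orth x j ∧ s j ≠ A.side j x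
    · obtain ⟨j, hj, hor, hne⟩ := h0
      refine ⟨A.side x j, fun k hk hork => ?_⟩
      by_contra hcon
      push Not at hcon
      obtain ⟨h1, h2⟩ := hcon
      have hxj : x ≠ j := fun h' => hx (h' ▸ hj)
      have hxk : x ≠ k := fun h' => hx (h' ▸ hk)
      obtain ⟨hjk, e1⟩ := A.sep hxj hxk hor hork h1
      obtain ⟨hkj, e2⟩ := A.sep hxk hxj hork hor (Ne.symm h1)
      have hjkne : j ≠ k := by rintro rfl; exact h1 rfl
      rcases h j hj k hk hjkne hjk with h3 | h3
      · exact hne (h3.trans e1)
      · exact h2 (h3.trans e2)
    · push Not at h0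
      exact ⟨true, fun j hj hor => Or.inr (h0 j hj hor)⟩
  obtain ⟨b, hb⟩ := key
  refine ⟨b, ?_⟩
  intro i hi j hj hij hor
  rw [mem_insert] at hi hj
  by_cases hix : i = x
  · subst hix
    have hjT : j ∈ T := hj.resolve_left (Ne.symm hij)
    rw [Function.update_self, Function.update_of_ne (Ne.symm hij)]
    exact hb j hjT hor
  by_cases hjx : j = x
  · subst hjx
    have hiT : i ∈ T := hi.resolve_left hij
    rw [Function.update_self, Function.update_of_ne hij]
    exact (hb i hiT (fun h' => hor (A.symm h'))).symm
  rw [Function.update_of_ne hix, Function.update_of_ne hjx]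
  exact h i (hi.resolve_left hix) j (hj.resolve_left hjx) hij hor

theorem sg_insert {s : Finset ι} {x : ι} : sg (insert x s) = Function.update (sg s) x true := by
  funext j
  by_cases h : j = x
  · subst h; simp [sg]
  · rw [Function.update_of_ne h]; simp [sg, h]

theorem sg_of_notMem {s : Finset ι} {x : ι} (h : x ∉ s) :
    sg s = Function.update (sg s) x false := by
  funext j
  by_cases h' : j = x
  · subst h'; simp [sg, h]
  · rw [Function.update_of_ne h']

theorem card_cellsF_insert {T : Finset ι} {x : ι} (hx : x ∉ T) :
    (A.cellsF (insert x T)).card = (A.cellsF T).card + (A.cellsF (A.nbr T {x})).card := by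
  classical
  -- the three sets
  set a := (A.cellsF T).filter (fun s => A.IsCell (insert x T) (sg s)) with ha
  set b := (A.cellsF T).filter (fun s => A.IsCell (insert x T) (sg (insert x s))) with hb
  have hxs : ∀ s ∈ A.cellsF T, x ∉ s := fun s hs h => hx (((A.mem_cellsF).1 hs).1 h)
  have h1 : A.cellsF (insert x T) = a ∪ b.image (fun s => insert x s) := by
    ext s
    rw [mem_union, mem_image, mem_cellsF]
    constructor
    · rintro ⟨hs, hc⟩
      by_cases hxs' : x ∈ s
      · right
        refine ⟨s.erase x, ?_, insert_erase hxs'⟩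
        rw [hb, mem_filter, mem_cellsF, insert_erase hxs']
        refine ⟨⟨?_, ?_⟩, hc⟩
        · intro j hj
          rw [mem_erase] at hj
          exact (mem_insert.1 (hs hj.2)).resolve_left hj.1
        · refine (A.isCell_congr ?_).1 (IsCell.mono A hc (subset_insert x T))
          intro j hj
          have : j ≠ x := fun h => hx (h ▸ hj)
          simp [sg, this]
      · left
        rw [ha, mem_filter, mem_cellsF]
        refine ⟨⟨?_, IsCell.mono A hc (subset_insert x T)⟩, hc⟩
        intro j hj
        exact (mem_insert.1 (hs hj)).resolve_left (fun h => hxs' (h ▸ hj))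
    · rintro (h | ⟨t, ht, rfl⟩)
      · rw [ha, mem_filter, mem_cellsF] at h
        exact ⟨h.1.1.trans (subset_insert x T), h.2⟩
      · rw [hb, mem_filter, mem_cellsF] at ht
        exact ⟨insert_subset_insert x ht.1.1, ht.2⟩
  have h2 : Disjoint a (b.image (fun s => insert x s)) := by
    rw [disjoint_left]
    intro s hs hs'
    rw [mem_image] at hs'
    obtain ⟨t, -, rfl⟩ := hs'
    rw [ha, mem_filter] at hs
    exact hxs _ hs.1 (mem_insert_self x t)
  have h3 : (b.image (fun s => insert x s)).card = b.card := by
    apply card_image_of_injOn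
    intro s hs t ht hst
    rw [hb, coe_filter] at hs ht
    have := congrArg (fun u => u.erase x) hst
    simp only at this
    rwa [erase_insert (hxs s hs.1), erase_insert (hxs t ht.1)] at this
  have h4 : a ∪ b = A.cellsF T := by
    apply subset_antisymm
    · exact union_subset (filter_subset _ _) (filter_subset _ _)
    · intro s hs
      have hs' := (A.mem_cellsF).1 hs
      obtain ⟨c, hc⟩ := A.exists_ext hx hs'.2
      rw [mem_union, ha, hb, mem_filter, mem_filter]
      cases c
      · left; refine ⟨hs, ?_⟩; rwa [← sg_of_notMem (hxs s hs)] at hc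
      · right; refine ⟨hs, ?_⟩; rwa [← sg_insert] at hc
  -- both
  have h5 : 2 * (a ∩ b).card =
      ((A.cellsF (insert x T)).filter (fun s => ∀ i ∈ ({x} : Finset ι),
        A.IsFacet (insert x T) (sg s) i)).card := by
    have e : (A.cellsF (insert x T)).filter (fun s => ∀ i ∈ ({x} : Finset ι),
        A.IsFacet (insert x T) (sg s) i) = (a ∩ b) ∪ (a ∩ b).image (fun s => insert x s) := by
      ext s
      rw [mem_filter, mem_union, mem_image]
      constructor
      · rintro ⟨hs, hf⟩
        have hf' := hf x (mem_singleton_self x)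
        have hs' := hs
        rw [mem_cellsF] at hs'
        rw [h1, mem_union, mem_image] at hs
        rcases hs with h | ⟨t, ht, rfl⟩
        · left
          rw [mem_inter]
          refine ⟨h, ?_⟩
          rw [hb, mem_filter]
          rw [ha, mem_filter] at h
          refine ⟨h.1, ?_⟩
          rw [sg_insert]
          exact A.cell_update h.2 hf' true
        · right
          refine ⟨t, ?_, rfl⟩
          rw [mem_inter]
          refine ⟨?_, ht⟩
          rw [hb, mem_filter] at ht
          rw [ha, mem_filter]
          refine ⟨ht.1, ?_⟩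
          have := A.cell_update ht.2 hf' false
          rw [sg_insert, Function.update_idem, ← sg_of_notMem (hxs t ht.1)] at this
          exact this
      · intro h
        have key : ∀ t, t ∈ a ∩ b → t ∈ A.cellsF (insert x T) ∧ insert x t ∈ A.cellsF (insert x T) ∧
            A.IsFacet (insert x T) (sg t) x := by
          intro t ht
          rw [mem_inter] at ht
          obtain ⟨hta, htb⟩ := ht
          have m1 : t ∈ A.cellsF (insert x T) := by rw [h1, mem_union]; exact Or.inl hta
          have m2 : insert x t ∈ A.cellsF (insert x T) := by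
            rw [h1, mem_union, mem_image]; exact Or.inr ⟨t, htb, rfl⟩
          refine ⟨m1, m2, ?_⟩
          rw [ha, mem_filter] at hta
          rw [hb, mem_filter] at htb
          apply A.facet_of_update (mem_insert_self x T) hta.2
          have : (!sg t x) = true := by simp [sg, hxs t hta.1]
          rw [this, ← sg_insert]; exact htb.2
        rcases h with h | ⟨t, ht, rfl⟩
        · obtain ⟨m1, m2, m3⟩ := key s h
          refine ⟨m1, fun i hi => ?_⟩
          rw [mem_singleton] at hi; subst hi; exact m3
        · obtain ⟨m1, m2, m3⟩ := key t ht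
          refine ⟨m2, fun i hi => ?_⟩
          rw [mem_singleton] at hi; subst hi
          rw [sg_insert]; exact (A.facet_update true).2 m3
    have h6 : Disjoint (a ∩ b) ((a ∩ b).image (fun s => insert x s)) := by
      apply disjoint_of_subset_left inter_subset_left
      apply disjoint_of_subset_right (image_subset_image inter_subset_right) h2
    have h7 : ((a ∩ b).image (fun s => insert x s)).card = (a ∩ b).card := by
      apply card_image_of_injOn
      intro s hs t ht hst
      have hs' := (mem_inter.1 hs).2
      have ht' := (mem_inter.1 ht).2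
      rw [hb, mem_filter] at hs' ht'
      have := congrArg (fun u => u.erase x) hst
      simp only at this
      rwa [erase_insert (hxs s hs'.1), erase_insert (hxs t ht'.1)] at this
    rw [e, card_union_of_disjoint h6, h7]; ring
  have h8 := A.card_facet (T := insert x T) (K := {x})
    (by intro j hj; rw [mem_singleton] at hj; rw [hj]; exact mem_insert_self x T)
    (by intro i hi j hj hij; rw [mem_singleton] at hi hj; exact absurd (hi.trans hj.symm) hij)
  have h9 : A.nbr (insert x T) {x} = A.nbr T {x} := by
    ext j
    rw [mem_nbr, mem_nbr, mem_insert]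
    constructor
    · rintro ⟨h | h, h'⟩
      · subst h; exact absurd (h' j (mem_singleton_self j)) (A.irrefl j)
      · exact ⟨h, h'⟩
    · rintro ⟨h, h'⟩; exact ⟨Or.inr h, h'⟩
  rw [← h5, h9, card_singleton, pow_one] at h8
  have h10 : (a ∩ b).card = (A.cellsF (A.nbr T {x})).card := Nat.eq_of_mul_eq_mul_left two_pos h8
  rw [h1, card_union_of_disjoint h2, h3, ← h4, ← h10, card_union_add_card_inter]

theorem card_clqs_insert {T : Finset ι} {x : ι} (hx : x ∉ T) :
    (A.clqs (insert x T)).card = (A.clqs T).card + (A.clqs (A.nbr T {x})).card := by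
  classical
  have h1 : A.clqs (insert x T) = A.clqs T ∪ (A.clqs (A.nbr T {x})).image (fun s => insert x s) := by
    ext K
    rw [mem_union, mem_image, mem_clqs, mem_clqs]
    constructor
    · rintro ⟨hK, hc⟩
      by_cases hxK : x ∈ K
      · right
        refine ⟨K.erase x, ?_, insert_erase hxK⟩
        rw [mem_clqs]
        refine ⟨?_, fun i hi j hj hij => hc i (mem_of_mem_erase hi) j (mem_of_mem_erase hj) hij⟩
        intro j hj
        rw [mem_nbr]
        rw [mem_erase] at hj
        refine ⟨(mem_insert.1 (hK hj.2)).resolve_left hj.1, ?_⟩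
        intro i hi
        rw [mem_singleton] at hi; subst hi
        exact hc i hxK j hj.2 (Ne.symm hj.1)
      · left
        refine ⟨?_, hc⟩
        intro j hj
        exact (mem_insert.1 (hK hj)).resolve_left (fun h => hxK (h ▸ hj))
    · rintro (⟨hK, hc⟩ | ⟨t, ht, rfl⟩)
      · exact ⟨hK.trans (subset_insert x T), hc⟩
      · rw [mem_clqs] at ht
        refine ⟨?_, ?_⟩
        · apply insert_subset_insert
          intro j hj
          exact ((A.mem_nbr).1 (ht.1 hj)).1
        · intro i hi j hj hij
          rw [mem_insert] at hi hj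
          rcases hi with rfl | hi
          · rcases hj with rfl | hj
            · exact absurd rfl hij
            · exact ((A.mem_nbr).1 (ht.1 hj)).2 i (mem_singleton_self i)
          · rcases hj with rfl | hj
            · exact A.symm (((A.mem_nbr).1 (ht.1 hi)).2 j (mem_singleton_self j))
            · exact ht.2 i hi j hj hij
  have h2 : Disjoint (A.clqs T) ((A.clqs (A.nbr T {x})).image (fun s => insert x s)) := by
    rw [disjoint_left]
    intro s hs hs'
    rw [mem_image] at hs'
    obtain ⟨t, -, rfl⟩ := hs'
    exact hx (((A.mem_clqs).1 hs).1 (mem_insert_self x t))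
  have h3 : ((A.clqs (A.nbr T {x})).image (fun s => insert x s)).card =
      (A.clqs (A.nbr T {x})).card := by
    apply card_image_of_injOn
    intro s hs t ht hst
    have hxs : ∀ u ∈ A.clqs (A.nbr T {x}), x ∉ u := fun u hu h =>
      hx (((A.mem_nbr).1 (((A.mem_clqs).1 hu).1 h)).1)
    have := congrArg (fun u => u.erase x) hst
    simp only at this
    rwa [erase_insert (hxs s hs), erase_insert (hxs t ht)] at this
  rw [h1, card_union_of_disjoint h2, h3]

theorem card_cellsF (T : Finset ι) : (A.cellsF T).card = (A.clqs T).card := by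
  classical
  induction T using Finset.strongInduction with
  | _ T ih =>
    rcases T.eq_empty_or_nonempty with h | ⟨x, hx⟩
    · subst h
      have h1 : A.cellsF (∅ : Finset ι) = {∅} := by
        ext s
        rw [mem_cellsF, mem_singleton, subset_empty]
        exact ⟨fun h => h.1, fun h => ⟨h, by intro i hi; exact absurd hi (notMem_empty i)⟩⟩
      have h2 : A.clqs (∅ : Finset ι) = {∅} := by
        ext s
        rw [mem_clqs, mem_singleton, subset_empty]
        exact ⟨fun h => h.1, fun h => ⟨h, by subst h; intro i hi; exact absurd hi (notMem_empty i)⟩⟩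
      rw [h1, h2]
    · have hT : insert x (T.erase x) = T := insert_erase hx
      have h0 : x ∉ T.erase x := notMem_erase x T
      rw [← hT, A.card_cellsF_insert h0, A.card_clqs_insert h0,
        ih (T.erase x) (erase_ssubset hx), ih (A.nbr (T.erase x) {x})]
      refine lt_of_le_of_lt ?_ (erase_ssubset hx)
      intro j hj
      exact ((A.mem_nbr).1 hj).1

/-- Weighted count: each clique `K` contained in the set of facets of a cell counts `g |K|`. -/
theorem sum_cells {M : Type} [AddCommMonoid M] (g : ℕ → M) (T : Finset ι) :
    (open Classical in ∑ s ∈ A.cellsF T,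
      ∑ K ∈ (A.clqs T).filter (fun K => ∀ i ∈ K, A.IsFacet T (sg s) i), g K.card) =
      ∑ K' ∈ A.clqs T, ∑ K ∈ K'.powerset, 2 ^ K.card • g K.card := by
  classical
  have h1 : ∑ s ∈ A.cellsF T,
      ∑ K ∈ (A.clqs T).filter (fun K => ∀ i ∈ K, A.IsFacet T (sg s) i), g K.card =
      ∑ K ∈ A.clqs T, ∑ s ∈ (A.cellsF T).filter (fun s => ∀ i ∈ K, A.IsFacet T (sg s) i),
        g K.card := by
    simp_rw [sum_filter]
    rw [sum_comm]
  have h2 : ∑ K' ∈ A.clqs T, ∑ K ∈ K'.powerset, 2 ^ K.card • g K.card =
      ∑ K ∈ A.clqs T, ∑ K' ∈ (A.clqs T).filter (fun K' => K ⊆ K'), 2 ^ K.card • g K.card := by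
    have e : ∀ K' ∈ A.clqs T, ∑ K ∈ K'.powerset, 2 ^ K.card • g K.card =
        ∑ K ∈ A.clqs T, if K ⊆ K' then 2 ^ K.card • g K.card else 0 := by
      intro K' hK'
      rw [← sum_filter]
      apply sum_congr _ (fun _ _ => rfl)
      ext K
      rw [mem_powerset, mem_filter, mem_clqs]
      rw [mem_clqs] at hK'
      constructor
      · intro h
        exact ⟨⟨h.trans hK'.1, fun i hi j hj hij => hK'.2 i (h hi) j (h hj) hij⟩, h⟩
      · exact fun h => h.2
    rw [sum_congr rfl e, sum_comm]
    simp_rw [sum_filter]
  rw [h1, h2]
  apply sum_congr rfl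
  intro K hK
  rw [sum_const, sum_const, A.card_facet ((A.mem_clqs).1 hK).1 ((A.mem_clqs).1 hK).2,
    A.card_cellsF]
  have h3 : ((A.clqs T).filter (fun K' => K ⊆ K')).card = (A.clqs (A.nbr T K)).card := by
    rw [mem_clqs] at hK
    symm
    apply card_bij (fun J _ => K ∪ J)
    · intro J hJ
      rw [mem_clqs] at hJ
      rw [mem_filter, mem_clqs]
      refine ⟨⟨union_subset hK.1 (fun j hj => ((A.mem_nbr).1 (hJ.1 hj)).1), ?_⟩,
        subset_union_left⟩
      intro i hi j hj hij
      rw [mem_union] at hi hj
      rcases hi with hi | hi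
      · rcases hj with hj | hj
        · exact hK.2 i hi j hj hij
        · exact ((A.mem_nbr).1 (hJ.1 hj)).2 i hi
      · rcases hj with hj | hj
        · exact A.symm (((A.mem_nbr).1 (hJ.1 hi)).2 j hj)
        · exact hJ.2 i hi j hj hij
    · intro J hJ J' hJ' h
      rw [mem_clqs] at hJ hJ'
      have hd : ∀ J, J ⊆ A.nbr T K → J = (K ∪ J) \ K := by
        intro J hJ
        ext j
        rw [mem_sdiff, mem_union]
        constructor
        · intro hj
          exact ⟨Or.inr hj, fun h => A.irrefl j (((A.mem_nbr).1 (hJ hj)).2 j h)⟩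
        · rintro ⟨h | h, h'⟩
          · exact absurd h h'
          · exact h
      rw [hd J hJ.1, hd J' hJ'.1, h]
    · intro K' hK'
      rw [mem_filter, mem_clqs] at hK'
      refine ⟨K' \ K, ?_, ?_⟩
      · rw [mem_clqs]
        refine ⟨?_, fun i hi j hj hij => hK'.1.2 i (sdiff_subset hi) j (sdiff_subset hj) hij⟩
        intro j hj
        rw [mem_sdiff] at hj
        rw [mem_nbr]
        exact ⟨hK'.1.1 hj.1, fun i hi => hK'.1.2 i (hK'.2 hi) j hj.1 (fun h => hj.2 (h ▸ hi))⟩
      · exact union_sdiff_of_subset hK'.2
  rw [h3, ← mul_nsmul', mul_comm]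

end PArr

end Pool.Agent.Helper56.OC
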