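import Mathlib
import Pool.Agent.Helper56.OC.Frame2

/-!
# Pocset frame: telescoping of a root flow
-/

set_option autoImplicit false

open Finset

namespace Pool.Agent.Helper56.OC

namespace PArr

variable {ι : Type} [DecidableEq ι] [Fintype ι] (A : PArr ι)

open Classical in
/-- the facets of a cell -/
noncomputable def fac (s : Finset ι) : Finset ι := univ.filter (fun i => A.IsFacet univ (sg s) i)

open Classical in
/-- the neighbours of `i` in `V` -/
noncomputable def lk (V : Finset ι) (i : ι) : Finset ι := V.filter (fun j => A.orth i j)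

open Classical in
/-- the near facets of the cell `s` with respect to the root `o` -/
noncomputable def near (o s : Finset ι) : Finset ι := (A.fac s).filter (fun i => sg s i ≠ sg o i)

/-- the weight `-12 + 8 n - 5 m + 3 τ` of a set `V` -/
noncomputable def gg : ℕ → ℤ := fun k => if k = 0 then -12 else if k = 1 then 8 else if k = 2 then -5
  else if k = 3 then 3 else 0

/-- `L V = -12 + 8 n - 5 m + 3 τ` -/
noncomputable def L (V : Finset ι) : ℤ := ∑ K ∈ A.clqs V, gg K.card

theorem mem_fac {s : Finset ι} {i : ι} : i ∈ A.fac s ↔ A.IsFacet univ (sg s) i := by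
  classical
  unfold fac; rw [mem_filter]; exact ⟨fun h => h.2, fun h => ⟨mem_univ i, h⟩⟩

theorem mem_lk {V : Finset ι} {i j : ι} : j ∈ A.lk V i ↔ j ∈ V ∧ A.orth i j := by
  classical
  unfold lk; rw [mem_filter]

theorem mem_near {o s : Finset ι} {i : ι} : i ∈ A.near o s ↔ i ∈ A.fac s ∧ sg s i ≠ sg o i := by
  classical
  unfold near; rw [mem_filter]

/-- no four pairwise orthogonal circles -/
def NoK4 : Prop := ∀ K : Finset ι, A.IsClq K → K.card ≤ 3

theorem sum_L (h4 : A.NoK4) :
    ∑ s ∈ A.cellsF univ, A.L (A.fac s) = 4 * (Fintype.card ι : ℤ) - 12 := by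
  classical
  have h1 : ∀ s ∈ A.cellsF univ, A.L (A.fac s) =
      ∑ K ∈ (A.clqs univ).filter (fun K => ∀ i ∈ K, A.IsFacet univ (sg s) i), gg K.card := by
    intro s _
    unfold L
    apply sum_congr _ (fun _ _ => rfl)
    ext K
    rw [mem_clqs, mem_filter, mem_clqs]
    constructor
    · rintro ⟨h, h'⟩
      exact ⟨⟨subset_univ K, h'⟩, fun i hi => (A.mem_fac).1 (h hi)⟩
    · rintro ⟨⟨-, h'⟩, h⟩
      exact ⟨fun i hi => (A.mem_fac).2 (h i hi), h'⟩
  have h0 : ∑ s ∈ A.cellsF univ,
      ∑ K ∈ (A.clqs univ).filter (fun K => ∀ i ∈ K, A.IsFacet univ (sg s) i), gg K.card =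
      ∑ K' ∈ A.clqs univ, ∑ K ∈ K'.powerset, 2 ^ K.card • gg K.card := by
    convert A.sum_cells gg (univ : Finset ι)
  rw [sum_congr rfl h1, h0]
  have h2 : ∀ K' ∈ A.clqs univ, ∑ K ∈ K'.powerset, 2 ^ K.card • gg K.card =
      if K'.card = 0 then -12 else if K'.card = 1 then 4 else 0 := by
    intro K' hK'
    have hc := h4 K' ((A.mem_clqs).1 hK').2
    rw [sum_powerset_apply_card (fun k => 2 ^ k • gg k)]
    interval_cases h : K'.card <;> simp [sum_range_succ, gg, Nat.choose]
  rw [sum_congr rfl h2]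
  have h3 : ∑ K' ∈ A.clqs univ, (if K'.card = 0 then (-12 : ℤ) else if K'.card = 1 then 4 else 0) =
      ∑ K' ∈ A.clqs univ, ((if K'.card = 0 then (-12 : ℤ) else 0) +
        (if K'.card = 1 then 4 else 0)) := by
    apply sum_congr rfl
    intro K' _
    by_cases h : K'.card = 0
    · simp [h]
    · simp [h]
  rw [h3, sum_add_distrib, ← sum_filter, ← sum_filter, sum_const, sum_const]
  have h5 : (A.clqs univ).filter (fun K' => K'.card = 0) = {∅} := by
    ext K
    rw [mem_filter, mem_clqs, mem_singleton, card_eq_zero]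
    refine ⟨fun h => h.2, fun h => ⟨⟨subset_univ K, ?_⟩, h⟩⟩
    subst h; intro i hi; exact absurd hi (notMem_empty i)
  have h6 : (A.clqs univ).filter (fun K' => K'.card = 1) = univ.image (fun i : ι => {i}) := by
    ext K
    rw [mem_filter, mem_clqs, mem_image, card_eq_one]
    constructor
    · rintro ⟨-, i, rfl⟩; exact ⟨i, mem_univ i, rfl⟩
    · rintro ⟨i, -, rfl⟩
      refine ⟨⟨subset_univ _, ?_⟩, i, rfl⟩
      intro a ha b hb hab
      rw [mem_singleton] at ha hb
      exact absurd (ha.trans hb.symm) hab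
  rw [h5, h6, card_singleton, card_image_of_injective _ singleton_injective, card_univ]
  simp; ring

/-- toggling one circle -/
def tog (s : Finset ι) (i : ι) : Finset ι := if i ∈ s then s.erase i else insert i s

theorem sg_tog (s : Finset ι) (i : ι) : sg (tog s i) = Function.update (sg s) i (!(sg s i)) := by
  unfold tog
  by_cases h : i ∈ s
  · rw [if_pos h]
    funext j
    by_cases hj : j = i
    · subst hj; simp [sg, h]
    · rw [Function.update_of_ne hj]; simp [sg, hj]
  · rw [if_neg h, sg_insert]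
    congr 1
    simp [sg, h]

theorem tog_tog (s : Finset ι) (i : ι) : tog (tog s i) i = s := by
  have h : sg (tog (tog s i) i) = sg s := by
    rw [sg_tog, sg_tog, Function.update_self, Function.update_idem, Bool.not_not,
      Function.update_eq_self]
  ext j
  have := congrFun h j
  unfold sg at this
  simpa using this

theorem sg_tog_self (s : Finset ι) (i : ι) : sg (tog s i) i = !(sg s i) := by
  rw [sg_tog, Function.update_self]

theorem tog_cell {s : Finset ι} {i : ι} (hs : s ∈ A.cellsF univ) (hi : i ∈ A.fac s) :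
    tog s i ∈ A.cellsF univ ∧ i ∈ A.fac (tog s i) := by
  rw [mem_cellsF] at hs ⊢
  rw [mem_fac] at hi ⊢
  rw [sg_tog]
  exact ⟨⟨subset_univ _, A.cell_update hs.2 hi _⟩, (A.facet_update _).2 hi⟩

/-- the link of `i` does not change when `i` is crossed -/
theorem lk_tog {s : Finset ι} {i : ι} : A.lk (A.fac (tog s i)) i = A.lk (A.fac s) i := by
  ext j
  rw [mem_lk, mem_lk, mem_fac, mem_fac, sg_tog]
  constructor
  · rintro ⟨h, h'⟩; exact ⟨(A.facet_update_orth (A.symm h') _).1 h, h'⟩
  · rintro ⟨h, h'⟩; exact ⟨(A.facet_update_orth (A.symm h') _).2 h, h'⟩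

theorem near_tog {o s : Finset ι} {i : ι} :
    A.near o (tog s i) ∩ A.lk (A.fac (tog s i)) i = A.near o s ∩ A.lk (A.fac s) i := by
  rw [lk_tog]
  ext j
  rw [mem_inter, mem_inter, mem_near, mem_near, mem_lk]
  constructor
  · rintro ⟨⟨h1, h2⟩, h3, h4⟩
    refine ⟨⟨h3, ?_⟩, h3, h4⟩
    rwa [sg_tog, Function.update_of_ne (fun h => A.irrefl i (by rw [h] at h4; exact h4))] at h2
  · rintro ⟨⟨h1, h2⟩, h3, h4⟩
    have hne : j ≠ i := fun h => A.irrefl i (by rw [h] at h4; exact h4)
    refine ⟨⟨?_, ?_⟩, h3, h4⟩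
    · rw [mem_fac] at h1 ⊢; rw [sg_tog]; exact (A.facet_update_orth (A.symm h4) _).2 h1
    · rw [sg_tog, Function.update_of_ne hne]; exact h2

/-- Telescoping: a flow across the facets which only depends on the link and the near part of it
sums to zero. -/
theorem sum_flow (o : Finset ι) (χ : ι → Finset ι → Finset ι → ℚ) :
    ∑ s ∈ A.cellsF univ, ∑ i ∈ A.fac s,
      (if sg s i = sg o i then (1 : ℚ) else -1) *
        χ i (A.lk (A.fac s) i) (A.near o s ∩ A.lk (A.fac s) i) = 0 := by
  classical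
  rw [sum_sigma']
  apply sum_involution (fun p _ => (⟨tog p.1 p.2, p.2⟩ : (_ : Finset ι) × ι))
  · rintro ⟨s, i⟩ hp
    rw [mem_sigma] at hp
    simp only
    rw [near_tog, lk_tog, sg_tog_self]
    by_cases h : sg s i = sg o i
    · have h' : (!sg s i) ≠ sg o i := by rw [h]; cases sg o i <;> simp
      rw [if_pos h, if_neg h']; ring
    · have h' : (!sg s i) = sg o i := by
        cases h1 : sg s i <;> cases h2 : sg o i <;> simp_all
      rw [if_neg h, if_pos h']; ring
  · rintro ⟨s, i⟩ hp _ h
    have h1 : tog s i = s := by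
      have := congrArg Sigma.fst h
      exact this
    have h2 := congrFun (congrArg sg h1) i
    rw [sg_tog_self] at h2
    cases h3 : sg s i <;> simp [h3] at h2
  · rintro ⟨s, i⟩ hp
    rw [mem_sigma] at hp ⊢
    exact ⟨(A.tog_cell hp.1 hp.2).1, (A.tog_cell hp.1 hp.2).2⟩
  · rintro ⟨s, i⟩ hp
    simp only [tog_tog]

/-- near sets are cliques -/
theorem near_clq {o s : Finset ι} (ho : o ∈ A.cellsF univ) : A.IsClq (A.near o s) := by
  intro i hi j hj hij
  by_contra hor
  rw [mem_near, mem_fac] at hi hj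
  rw [mem_cellsF] at ho
  have h1 := hi.1 j (mem_univ j) (Ne.symm hij) hor
  have h2 := hj.1 i (mem_univ i) hij (fun h => hor (A.symm h))
  rcases ho.2 i (mem_univ i) j (mem_univ j) hij hor with h | h
  · exact hi.2 (h2.trans h.symm)
  · exact hj.2 (h1.trans h.symm)

/-- only the root has an empty near set -/
theorem near_nonempty {o s : Finset ι} (ho : o ∈ A.cellsF univ) (hs : s ∈ A.cellsF univ)
    (hne : s ≠ o) : (A.near o s).Nonempty := by
  classical
  rw [mem_cellsF] at ho hs
  -- the set of differences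
  set D : Finset ι := univ.filter (fun i => sg s i ≠ sg o i) with hD
  have hDne : D.Nonempty := by
    rw [nonempty_iff_ne_empty]
    intro h
    apply hne
    ext j
    by_contra hj
    have : j ∈ D := by
      rw [hD, mem_filter]
      refine ⟨mem_univ j, fun h' => hj ?_⟩
      unfold sg at h'
      simpa using h'
    rw [h] at this
    exact notMem_empty j this
  set bl : ι → Finset ι := fun i => univ.filter
    (fun j => j ≠ i ∧ ¬ A.orth i j ∧ sg s j ≠ A.side j i) with hbl
  obtain ⟨i, hi, hmin⟩ := exists_min_image D (fun i => (bl i).card) hDne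
  refine ⟨i, ?_⟩
  rw [mem_near, mem_fac]
  have hiD : sg s i ≠ sg o i := by rw [hD, mem_filter] at hi; exact hi.2
  refine ⟨?_, hiD⟩
  by_contra hnf
  unfold IsFacet at hnf
  push Not at hnf
  obtain ⟨k, -, hki, hor, hk⟩ := hnf
  have hor' : ¬ A.orth k i := fun h => hor (A.symm h)
  have h1 : sg s i = A.side i k :=
    (hs.2 i (mem_univ i) k (mem_univ k) (Ne.symm hki) hor).resolve_right hk
  have h2 : sg o k = A.side k i :=
    (ho.2 i (mem_univ i) k (mem_univ k) (Ne.symm hki) hor).resolve_left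
      (fun h => hiD (h1.trans h.symm))
  have hkD : k ∈ D := by
    rw [hD, mem_filter]
    exact ⟨mem_univ k, fun h => hk (h.trans h2)⟩
  have hsub : bl k ⊂ bl i := by
    rw [ssubset_iff_of_subset]
    · refine ⟨k, ?_, ?_⟩
      · rw [hbl]; simp only [mem_filter, mem_univ, true_and]
        exact ⟨hki, hor, hk⟩
      · rw [hbl]; simp only [mem_filter, mem_univ, true_and]
        exact fun h => h.1 rfl
    · intro j hj
      rw [hbl] at hj ⊢
      simp only [mem_filter, mem_univ, true_and] at hj ⊢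
      obtain ⟨hjk, hojk, hsj⟩ := hj
      have h3 : sg s k = A.side k j :=
        (hs.2 k (mem_univ k) j (mem_univ j) (Ne.symm hjk) hojk).resolve_right hsj
      have h4 : A.side k j ≠ A.side k i := by rw [← h3]; exact hk
      obtain ⟨h5, h6⟩ := A.sep (Ne.symm hjk) hki hojk hor' h4
      refine ⟨?_, fun h => h5 (A.symm h), ?_⟩
      · rintro rfl; exact h4 rfl
      · rw [h6]; exact hsj
  exact absurd (card_lt_card hsub) (not_lt.2 (hmin k hkD))

/-- **The frame.**  `q s` is the number to be bounded, `χ` a flow.  If the local inequality holds at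
every cell then `∑ q ≤ 4 n - 12`. -/
theorem frame (h4 : A.NoK4) (q : Finset ι → ℕ) (χ : ι → Finset ι → Finset ι → ℚ) {o : Finset ι}
    (h : ∀ s ∈ A.cellsF univ, (q s : ℚ) ≤ (A.L (A.fac s) : ℚ) +
      ∑ i ∈ A.fac s, (if i ∈ A.near o s then (-1 : ℚ) else 1) *
        χ i (A.lk (A.fac s) i) (A.near o s ∩ A.lk (A.fac s) i)) :
    (∑ s ∈ A.cellsF univ, (q s : ℤ)) ≤ 4 * (Fintype.card ι : ℤ) - 12 := by
  classical
  have h1 := sum_le_sum h
  rw [sum_add_distrib] at h1
  have h2 := A.sum_flow o χ
  have h3 : ∑ s ∈ A.cellsF univ, ∑ i ∈ A.fac s, (if i ∈ A.near o s then (-1 : ℚ) else 1) *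
        χ i (A.lk (A.fac s) i) (A.near o s ∩ A.lk (A.fac s) i) = 0 := by
    rw [← h2]
    apply sum_congr rfl
    intro s _
    apply sum_congr rfl
    intro i hi
    congr 1
    by_cases hh : sg s i = sg o i
    · rw [if_pos hh, if_neg (fun h' => ((A.mem_near).1 h').2 hh)]
    · rw [if_neg hh, if_pos ((A.mem_near).2 ⟨hi, hh⟩)]
  rw [h3, add_zero] at h1
  have h5 := A.sum_L h4
  have h6 : (∑ s ∈ A.cellsF univ, (A.L (A.fac s) : ℚ)) = 4 * (Fintype.card ι : ℚ) - 12 := by
    have := congrArg (fun z : ℤ => (z : ℚ)) h5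
    push_cast at this
    exact this
  rw [h6] at h1
  have h7 : ((∑ s ∈ A.cellsF univ, (q s : ℤ) : ℤ) : ℚ) ≤ ((4 * (Fintype.card ι : ℤ) - 12 : ℤ) : ℚ) := by
    push_cast
    exact h1
  exact_mod_cast h7

end PArr

end Pool.Agent.Helper56.OC
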