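import Mathlib
import Pool.Agent.Helper56.OC.Frame3

/-!
# Arrangements of orthogonal circles: definitions of the final statement
-/

set_option autoImplicit false

open Set

namespace Pool.Agent.Helper56.OC

/-- a circle in the plane `ℂ` -/
structure Circ where
  /-- centre -/
  c : ℂ
  /-- radius -/
  r : ℝ
  pos : 0 < r

namespace Circ

/-- the circle as a set of points -/
def pts (C : Circ) : Set ℂ := Metric.sphere C.c C.r

/-- Two circles intersect orthogonally: they have exactly two common points, and at each of them the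
radii (equivalently the tangent lines) are perpendicular. -/
def Orthogonal (C D : Circ) : Prop :=
  (C.pts ∩ D.pts).ncard = 2 ∧ ∀ p ∈ C.pts ∩ D.pts, inner ℝ (p - C.c) (p - D.c) = 0

end Circ

/-- An arrangement of orthogonal circles: any two of them are disjoint or intersect orthogonally. -/
def IsArrangement (S : Finset Circ) : Prop :=
  ∀ C ∈ S, ∀ D ∈ S, C ≠ D → Disjoint C.pts D.pts ∨ C.Orthogonal D

/-- the union of the circles -/
def circUnion (S : Finset Circ) : Set ℂ := ⋃ C ∈ S, C.pts

/-- the crossing points -/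
def crossings (S : Finset Circ) : Set ℂ := {p | ∃ C ∈ S, ∃ D ∈ S, C ≠ D ∧ p ∈ C.pts ∧ p ∈ D.pts}

/-- the faces: the connected components of the complement of the union of the circles -/
def faces (S : Finset Circ) : Set (Set ℂ) :=
  {F | ∃ p ∉ circUnion S, F = connectedComponentIn (circUnion S)ᶜ p}

/-- the arcs of the boundary of a face: the connected components of the boundary minus the crossing
points -/
def arcs (S : Finset Circ) (F : Set ℂ) : Set (Set ℂ) :=
  {a | ∃ p ∈ frontier F \ crossings S, a = connectedComponentIn (frontier F \ crossings S) p}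

/-- the quadrangular faces: the boundary consists of exactly four arcs -/
def quadFaces (S : Finset Circ) : Set (Set ℂ) := {F | F ∈ faces S ∧ (arcs S F).ncard = 4}

/-! ### An indexed version of the arrangement -/

/-- a finite family of circles which are pairwise disjoint or orthogonal -/
structure Fam (ι : Type) where
  /-- centres -/
  c : ι → ℂ
  /-- radii -/
  r : ι → ℝ
  pos : ∀ i, 0 < r i
  /-- circles with different indices are disjoint or orthogonal -/
  pw : ∀ i j, i ≠ j → Disjoint (Metric.sphere (c i) (r i)) (Metric.sphere (c j) (r j)) ∨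
    ‖c i - c j‖ ^ 2 = r i ^ 2 + r j ^ 2

namespace Fam

variable {ι : Type} (A : Fam ι)

/-- the circle `i` -/
def sph (i : ι) : Set ℂ := Metric.sphere (A.c i) (A.r i)

/-- orthogonality -/
def orth (i j : ι) : Prop := ‖A.c i - A.c j‖ ^ 2 = A.r i ^ 2 + A.r j ^ 2

/-- the power of a point -/
noncomputable def g (i : ι) (x : ℂ) : ℝ := ‖x - A.c i‖ ^ 2 - A.r i ^ 2

open Classical in
/-- the side of `i` in which the circle `j` lies (`true` : inside) -/
noncomputable def side (i j : ι) : Bool := decide (A.g i (A.c j + A.r j) < 0)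

/-- the union of the circles -/
def U : Set ℂ := ⋃ i, A.sph i

/-- the crossing points -/
def X : Set ℂ := {p | ∃ i j, i ≠ j ∧ p ∈ A.sph i ∧ p ∈ A.sph j}

/-- the arcs of the boundary of a set -/
def arcs (F : Set ℂ) : Set (Set ℂ) :=
  {a | ∃ p ∈ frontier F \ A.X, a = connectedComponentIn (frontier F \ A.X) p}

/-- the quadrangular faces -/
def quads : Set (Set ℂ) :=
  {F | (∃ p ∉ A.U, F = connectedComponentIn A.Uᶜ p) ∧ (A.arcs F).ncard = 4}

open Classical in
/-- the circles which contain the point in their interior -/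
noncomputable def sgn [Fintype ι] (x : ℂ) : Finset ι := Finset.univ.filter (fun i => A.g i x < 0)

theorem mem_sph {i : ι} {x : ℂ} : x ∈ A.sph i ↔ A.g i x = 0 := by
  unfold sph g
  rw [mem_sphere_iff_norm]
  have h1 := A.pos i
  have h2 := norm_nonneg (x - A.c i)
  constructor
  · intro h; rw [h]; ring
  · intro h
    nlinarith [sq_nonneg (‖x - A.c i‖ - A.r i), sq_nonneg (‖x - A.c i‖ + A.r i)]

theorem orth_symm {i j : ι} (h : A.orth i j) : A.orth j i := by
  unfold orth at h ⊢
  rw [norm_sub_rev, h]; ring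

theorem orth_irrefl (i : ι) : ¬ A.orth i i := by
  unfold orth
  rw [sub_self, norm_zero]
  have := A.pos i
  intro h
  nlinarith

/-- position of two circles which are not orthogonal -/
theorem disj_cases {i j : ι} (hij : i ≠ j) (h : ¬ A.orth i j) :
    A.r i + A.r j < ‖A.c i - A.c j‖ ∨ ‖A.c i - A.c j‖ + A.r j < A.r i ∨
      ‖A.c i - A.c j‖ + A.r i < A.r j := by
  have hd := (A.pw i j hij).resolve_right h
  by_contra hcon
  push Not at hcon
  obtain ⟨h1, h2, h3⟩ := hcon
  set d := ‖A.c i - A.c j‖ with hdd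
  have hri := A.pos i
  have hrj := A.pos j
  -- there is a common point
  have key : ∃ x : ℂ, x ∈ Metric.sphere (A.c i) (A.r i) ∧ x ∈ Metric.sphere (A.c j) (A.r j) := by
    have hd0 : 0 ≤ d := norm_nonneg _
    rcases eq_or_lt_of_le hd0 with h0 | h0
    · -- same centre
      have : A.c i = A.c j := sub_eq_zero.1 (norm_eq_zero.1 h0.symm)
      refine ⟨A.c i + A.r i, ?_, ?_⟩
      · rw [mem_sphere_iff_norm]; simp [abs_of_pos hri]
      · rw [mem_sphere_iff_norm, ← this]
        have : A.r i = A.r j := by linarith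
        rw [this]; simp [abs_of_pos hrj]
    · -- u = unit vector from c i to c j
      set u : ℂ := (A.c j - A.c i) / d with hu
      have hun : ‖u‖ = 1 := by
        rw [hu, norm_div, norm_sub_rev, ← hdd, Complex.norm_real, Real.norm_eq_abs, abs_of_pos h0,
          div_self h0.ne']
      set a : ℝ := (d ^ 2 + A.r i ^ 2 - A.r j ^ 2) / (2 * d) with ha
      have had : 2 * d * a = d ^ 2 + A.r i ^ 2 - A.r j ^ 2 := by
        rw [ha]; field_simp
      have hai : a ^ 2 ≤ A.r i ^ 2 := by
        have e1 : 0 ≤ (d + A.r i) ^ 2 - A.r j ^ 2 := by nlinarith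
        have e2 : 0 ≤ A.r j ^ 2 - (d - A.r i) ^ 2 := by
          have f1 : d - A.r i ≤ A.r j := by linarith
          have f2 : -(A.r j) ≤ d - A.r i := by linarith
          nlinarith
        have e3 : (2 * d) ^ 2 * (A.r i ^ 2 - a ^ 2) =
            ((d + A.r i) ^ 2 - A.r j ^ 2) * (A.r j ^ 2 - (d - A.r i) ^ 2) := by
          have : (2 * d) ^ 2 * (A.r i ^ 2 - a ^ 2) = (2 * d * A.r i) ^ 2 - (2 * d * a) ^ 2 := by ring
          rw [this, had]; ring
        have e4 : 0 ≤ (2 * d) ^ 2 * (A.r i ^ 2 - a ^ 2) := by rw [e3]; exact mul_nonneg e1 e2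
        have e5 : 0 < (2 * d) ^ 2 := by positivity
        nlinarith [nonneg_of_mul_nonneg_right e4 e5]
      set b : ℝ := Real.sqrt (A.r i ^ 2 - a ^ 2) with hb
      have hbb : b ^ 2 = A.r i ^ 2 - a ^ 2 := Real.sq_sqrt (by linarith)
      have hn : ∀ s t : ℝ, ‖u * (s + t * Complex.I)‖ ^ 2 = s ^ 2 + t ^ 2 := by
        intro s t
        rw [norm_mul, hun, one_mul, ← Complex.normSq_eq_norm_sq, Complex.normSq_add_mul_I]
      refine ⟨A.c i + u * (a + b * Complex.I), ?_, ?_⟩
      · rw [mem_sphere_iff_norm, add_sub_cancel_left]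
        have h5 := hn a b
        have h6 : ‖u * (a + b * Complex.I)‖ ^ 2 = A.r i ^ 2 := by rw [h5, hbb]; ring
        exact (pow_left_inj₀ (norm_nonneg _) hri.le two_ne_zero).1 h6
      · rw [mem_sphere_iff_norm]
        have hcu : A.c i - A.c j = - (u * d) := by
          rw [hu, div_mul_cancel₀ _ (by exact_mod_cast h0.ne')]; ring
        have e : A.c i + u * (a + b * Complex.I) - A.c j =
            u * (((a - d : ℝ) : ℂ) + b * Complex.I) := by
          have : A.c i + u * (a + b * Complex.I) - A.c j =
            (A.c i - A.c j) + u * (a + b * Complex.I) := by ring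
          rw [this, hcu]; push_cast; ring
        rw [e]
        have h5 := hn (a - d) b
        have h6 : ‖u * (((a - d : ℝ) : ℂ) + b * Complex.I)‖ ^ 2 = A.r j ^ 2 := by
          rw [h5, hbb]; nlinarith [had]
        exact (pow_left_inj₀ (norm_nonneg _) hrj.le two_ne_zero).1 h6
  obtain ⟨x, hx1, hx2⟩ := key
  exact Set.disjoint_left.1 hd hx1 hx2

/-- the sign of `i` is constant on a disjoint circle `j` -/
theorem side_spec {i j : ι} (hij : i ≠ j) (h : ¬ A.orth i j) {x : ℂ} (hx : x ∈ A.sph j) :
    A.g i x ≠ 0 ∧ (A.g i x < 0 ↔ A.side i j = true) := by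
  have key : (∀ y ∈ A.sph j, A.g i y < 0) ∨ (∀ y ∈ A.sph j, 0 < A.g i y) := by
    have hri := A.pos i
    have hrj := A.pos j
    have hx' : ∀ y ∈ A.sph j, ‖y - A.c j‖ = A.r j := fun y hy => mem_sphere_iff_norm.1 hy
    rcases A.disj_cases hij h with h1 | h1 | h1
    · right
      intro y hy
      have h2 := hx' y hy
      have h3 : ‖A.c i - A.c j‖ ≤ ‖y - A.c i‖ + ‖y - A.c j‖ := by
        have : A.c i - A.c j = (y - A.c j) - (y - A.c i) := by ring
        rw [this]; rw [add_comm]; exact norm_sub_le _ _
      unfold g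
      have h4 : A.r i < ‖y - A.c i‖ := by linarith
      nlinarith
    · left
      intro y hy
      have h2 := hx' y hy
      have h3 : ‖y - A.c i‖ ≤ ‖y - A.c j‖ + ‖A.c i - A.c j‖ := by
        have : y - A.c i = (y - A.c j) - (A.c i - A.c j) := by ring
        rw [this]; exact norm_sub_le _ _
      unfold g
      have h4 : ‖y - A.c i‖ < A.r i := by linarith
      nlinarith [norm_nonneg (y - A.c i)]
    · right
      intro y hy
      have h2 := hx' y hy
      have h3 : ‖y - A.c j‖ ≤ ‖y - A.c i‖ + ‖A.c i - A.c j‖ := by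
        have : y - A.c j = (y - A.c i) + (A.c i - A.c j) := by ring
        rw [this]; exact norm_add_le _ _
      unfold g
      have h4 : A.r i < ‖y - A.c i‖ := by linarith
      nlinarith
  have hp : A.c j + A.r j ∈ A.sph j := by
    unfold sph; rw [mem_sphere_iff_norm]; simp [abs_of_pos (A.pos j)]
  unfold side
  rw [decide_eq_true_eq]
  rcases key with k | k
  · exact ⟨(k x hx).ne, ⟨fun _ => k _ hp, fun _ => k _ hx⟩⟩
  · refine ⟨(k x hx).ne', ⟨fun h' => absurd h' (not_lt.2 (k _ hx).le),
      fun h' => absurd h' (not_lt.2 (k _ hp).le)⟩⟩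

end Fam

end Pool.Agent.Helper56.OC
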