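import Mathlib
import Pool.Agent.Helper56.OC.Defs

/-!
# The pocset of a family of circles
-/

set_option autoImplicit false

open Set

namespace Pool.Agent.Helper56.OC

namespace Fam

variable {ι : Type} (A : Fam ι)

/-- two disjoint circles: a point lies on the side of `i` containing `j` or on the side of `j`
containing `i` -/
theorem compat {i j : ι} (hij : i ≠ j) (h : ¬ A.orth i j) (x : ℂ) :
    (A.g i x < 0 ↔ A.side i j = true) ∨ (A.g j x < 0 ↔ A.side j i = true) := by
  have hri := A.pos i
  have hrj := A.pos j
  have hci : ∀ k, A.c k + A.r k ∈ A.sph k := by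
    intro k
    unfold sph; rw [mem_sphere_iff_norm]; simp [abs_of_pos (A.pos k)]
  have s1 := A.side_spec hij h (hci j)
  have s2 := A.side_spec (Ne.symm hij) (fun h' => h (A.orth_symm h')) (hci i)
  have n1 : ‖A.c j + A.r j - A.c j‖ = A.r j := by simp [abs_of_pos hrj]
  have n2 : ‖A.c i + A.r i - A.c i‖ = A.r i := by simp [abs_of_pos hri]
  -- the sides in terms of g
  have hgi : A.g i x < 0 ↔ ‖x - A.c i‖ < A.r i := by
    unfold g
    constructor
    · intro h'
      exact lt_of_pow_lt_pow_left₀ 2 hri.le (by linarith)
    · intro h'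
      have := pow_lt_pow_left₀ h' (norm_nonneg _) two_ne_zero
      linarith
  have hgj : A.g j x < 0 ↔ ‖x - A.c j‖ < A.r j := by
    unfold g
    constructor
    · intro h'
      exact lt_of_pow_lt_pow_left₀ 2 hrj.le (by linarith)
    · intro h'
      have := pow_lt_pow_left₀ h' (norm_nonneg _) two_ne_zero
      linarith
  have hd : ‖A.c i - A.c j‖ ≤ ‖x - A.c i‖ + ‖x - A.c j‖ := by
    have : A.c i - A.c j = (x - A.c j) - (x - A.c i) := by ring
    rw [this, add_comm]; exact norm_sub_le _ _
  have hd1 : ‖x - A.c i‖ ≤ ‖x - A.c j‖ + ‖A.c i - A.c j‖ := by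
    have : x - A.c i = (x - A.c j) - (A.c i - A.c j) := by ring
    rw [this]; exact norm_sub_le _ _
  have hd2 : ‖x - A.c j‖ ≤ ‖x - A.c i‖ + ‖A.c i - A.c j‖ := by
    have : x - A.c j = (x - A.c i) + (A.c i - A.c j) := by ring
    rw [this]; exact norm_add_le _ _
  -- sides
  rcases A.disj_cases hij h with h1 | h1 | h1
  · -- external: both sides are false
    have e1 : ¬ A.side i j = true := by
      rw [← s1.2]
      intro h'
      have : ‖A.c i - A.c j‖ ≤ ‖A.c j + A.r j - A.c i‖ + A.r j := by
        have e : A.c i - A.c j = (A.c j + A.r j - A.c j) - (A.c j + A.r j - A.c i) := by ring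
        calc ‖A.c i - A.c j‖ = ‖(A.c j + A.r j - A.c j) - (A.c j + A.r j - A.c i)‖ := by rw [← e]
          _ ≤ _ := by
            refine (norm_sub_le _ _).trans ?_
            rw [n1]; linarith
      unfold g at h'
      have h3 : A.r i < ‖A.c j + A.r j - A.c i‖ := by linarith
      nlinarith
    have e2 : ¬ A.side j i = true := by
      rw [← s2.2]
      intro h'
      have : ‖A.c i - A.c j‖ ≤ ‖A.c i + A.r i - A.c j‖ + A.r i := by
        have e : A.c i - A.c j = (A.c i + A.r i - A.c j) - (A.c i + A.r i - A.c i) := by ring
        calc ‖A.c i - A.c j‖ = ‖(A.c i + A.r i - A.c j) - (A.c i + A.r i - A.c i)‖ := by rw [← e]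
          _ ≤ _ := by
            refine (norm_sub_le _ _).trans ?_
            rw [n2]
      unfold g at h'
      have h3 : A.r j < ‖A.c i + A.r i - A.c j‖ := by linarith
      nlinarith
    by_cases hx : A.g i x < 0
    · right
      have : ¬ A.g j x < 0 := by
        rw [hgj]; rw [hgi] at hx
        intro h'; linarith
      exact ⟨fun h' => absurd h' this, fun h' => absurd h' e2⟩
    · left
      exact ⟨fun h' => absurd h' hx, fun h' => absurd h' e1⟩
  · -- j inside i
    have e1 : A.side i j = true := by
      rw [← s1.2]
      have : ‖A.c j + A.r j - A.c i‖ ≤ A.r j + ‖A.c i - A.c j‖ := by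
        have e : A.c j + A.r j - A.c i = (A.c j + A.r j - A.c j) - (A.c i - A.c j) := by ring
        calc ‖A.c j + A.r j - A.c i‖ = ‖(A.c j + A.r j - A.c j) - (A.c i - A.c j)‖ := by rw [← e]
          _ ≤ _ := by
            refine (norm_sub_le _ _).trans ?_
            rw [n1]
      unfold g
      have h3 : ‖A.c j + A.r j - A.c i‖ < A.r i := by linarith
      nlinarith [norm_nonneg (A.c j + A.r j - A.c i)]
    have e2 : ¬ A.side j i = true := by
      rw [← s2.2]
      intro h'
      have : A.r i ≤ ‖A.c i + A.r i - A.c j‖ + ‖A.c i - A.c j‖ := by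
        calc A.r i = ‖(A.c i + A.r i - A.c j) - (A.c i - A.c j)‖ := by
              rw [← n2]; congr 1; rw [n2]; ring
          _ ≤ _ := norm_sub_le _ _
      unfold g at h'
      have h3 : A.r j < ‖A.c i + A.r i - A.c j‖ := by linarith
      nlinarith
    by_cases hx : A.g j x < 0
    · left
      have : A.g i x < 0 := by
        rw [hgi]; rw [hgj] at hx
        linarith
      exact ⟨fun _ => e1, fun _ => this⟩
    · right
      exact ⟨fun h' => absurd h' hx, fun h' => absurd h' e2⟩
  · -- i inside j
    have e2 : A.side j i = true := by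
      rw [← s2.2]
      have : ‖A.c i + A.r i - A.c j‖ ≤ A.r i + ‖A.c i - A.c j‖ := by
        have e : A.c i + A.r i - A.c j = (A.c i + A.r i - A.c i) + (A.c i - A.c j) := by ring
        calc ‖A.c i + A.r i - A.c j‖ = ‖(A.c i + A.r i - A.c i) + (A.c i - A.c j)‖ := by rw [← e]
          _ ≤ _ := by
            refine (norm_add_le _ _).trans ?_
            rw [n2]
      unfold g
      have h3 : ‖A.c i + A.r i - A.c j‖ < A.r j := by linarith
      nlinarith [norm_nonneg (A.c i + A.r i - A.c j)]
    have e1 : ¬ A.side i j = true := by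
      rw [← s1.2]
      intro h'
      have : A.r j ≤ ‖A.c j + A.r j - A.c i‖ + ‖A.c i - A.c j‖ := by
        calc A.r j = ‖(A.c j + A.r j - A.c i) + (A.c i - A.c j)‖ := by
              rw [← n1]; congr 1; rw [n1]; ring
          _ ≤ _ := norm_add_le _ _
      unfold g at h'
      have h3 : A.r i < ‖A.c j + A.r j - A.c i‖ := by linarith
      nlinarith
    by_cases hx : A.g i x < 0
    · right
      have : A.g j x < 0 := by
        rw [hgj]; rw [hgi] at hx
        linarith
      exact ⟨fun _ => e2, fun _ => this⟩
    · left
      exact ⟨fun h' => absurd h' hx, fun h' => absurd h' e1⟩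

/-- a point on the side of `x` away from the circle `k` is on the side of `k` containing `x` -/
theorem side_of_away {i j : ι} (hij : i ≠ j) (h : ¬ A.orth i j) {x : ℂ}
    (hx : ¬ (A.g i x < 0 ↔ A.side i j = true)) : (A.g j x < 0 ↔ A.side j i = true) :=
  (A.compat hij h x).resolve_left hx

/-- the pocset of a family of circles -/
noncomputable def toPArr : PArr ι where
  orth := A.orth
  side := A.side
  symm := fun h => A.orth_symm h
  irrefl := A.orth_irrefl
  sep := by
    intro x j k hxj hxk hoj hok hne
    have hjk : j ≠ k := by rintro rfl; exact hne rfl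
    -- points of the circles
    have hp : ∀ k, A.c k + A.r k ∈ A.sph k := by
      intro k
      unfold sph; rw [mem_sphere_iff_norm]; simp [abs_of_pos (A.pos k)]
    -- every point of circle j is on the side `side x j` of x, hence not on side `side x k`
    have h1 : ∀ y ∈ A.sph j, ¬ (A.g x y < 0 ↔ A.side x k = true) := by
      intro y hy hcon
      have := (A.side_spec hxj hoj hy).2
      apply hne
      have e : A.side x j = true ↔ A.side x k = true := this.symm.trans hcon
      rwa [Bool.eq_iff_iff]
    have h1' : ∀ y ∈ A.sph k, ¬ (A.g x y < 0 ↔ A.side x j = true) := by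
      intro y hy hcon
      have := (A.side_spec hxk hok hy).2
      apply hne
      have e : A.side x k = true ↔ A.side x j = true := this.symm.trans hcon
      rw [Bool.eq_iff_iff]; exact e.symm
    -- so they are on the side of k containing x
    have h2 : ∀ y ∈ A.sph j, (A.g k y < 0 ↔ A.side k x = true) := fun y hy =>
      A.side_of_away hxk hok (h1 y hy)
    have h2' : ∀ y ∈ A.sph k, (A.g j y < 0 ↔ A.side j x = true) := fun y hy =>
      A.side_of_away hxj hoj (h1' y hy)
    have hno : ¬ A.orth j k := by
      intro hor
      -- orthogonal circles meet; a common point would be on both sides of x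
      have : ∃ y, y ∈ A.sph j ∧ y ∈ A.sph k := by
        have hri := A.pos j
        have hrk := A.pos k
        unfold orth at hor
        set d := ‖A.c j - A.c k‖ with hd
        have hd0 : 0 < d := by
          have h0 : 0 ≤ d := norm_nonneg _
          rcases eq_or_lt_of_le h0 with h | h
          · rw [← h] at hor; nlinarith
          · exact h
        set u : ℂ := (A.c k - A.c j) / d with hu
        have hun : ‖u‖ = 1 := by
          rw [hu, norm_div, norm_sub_rev, ← hd, Complex.norm_real, Real.norm_eq_abs,
            abs_of_pos hd0, div_self hd0.ne']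
        set a : ℝ := A.r j ^ 2 / d with ha
        set b : ℝ := A.r j * A.r k / d with hb
        have hab : a ^ 2 + b ^ 2 = A.r j ^ 2 := by
          rw [ha, hb]; field_simp; nlinarith [hor]
        have hab2 : (a - d) ^ 2 + b ^ 2 = A.r k ^ 2 := by
          have e : d * a = A.r j ^ 2 := by rw [ha]; field_simp
          nlinarith [hab, hor, e]
        have hn : ∀ s t : ℝ, ‖u * (s + t * Complex.I)‖ ^ 2 = s ^ 2 + t ^ 2 := by
          intro s t
          rw [norm_mul, hun, one_mul, ← Complex.normSq_eq_norm_sq, Complex.normSq_add_mul_I]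
        refine ⟨A.c j + u * (a + b * Complex.I), ?_, ?_⟩
        · unfold sph
          rw [mem_sphere_iff_norm, add_sub_cancel_left]
          have h6 : ‖u * (a + b * Complex.I)‖ ^ 2 = A.r j ^ 2 := by rw [hn, hab]
          exact (pow_left_inj₀ (norm_nonneg _) hri.le two_ne_zero).1 h6
        · unfold sph
          rw [mem_sphere_iff_norm]
          have hcu : A.c j - A.c k = - (u * d) := by
            rw [hu, div_mul_cancel₀ _ (by exact_mod_cast hd0.ne')]; ring
          have e : A.c j + u * (a + b * Complex.I) - A.c k =
              u * (((a - d : ℝ) : ℂ) + b * Complex.I) := by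
            have : A.c j + u * (a + b * Complex.I) - A.c k =
              (A.c j - A.c k) + u * (a + b * Complex.I) := by ring
            rw [this, hcu]; push_cast; ring
          rw [e]
          have h6 : ‖u * (((a - d : ℝ) : ℂ) + b * Complex.I)‖ ^ 2 = A.r k ^ 2 := by
            rw [hn, hab2]
          exact (pow_left_inj₀ (norm_nonneg _) hrk.le two_ne_zero).1 h6
      obtain ⟨y, hy1, hy2⟩ := this
      exact h1' y hy2 (A.side_spec hxj hoj hy1).2
    refine ⟨hno, ?_⟩
    -- side j k = side j x
    have e1 := (A.side_spec hjk hno (hp k)).2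
    have e2 := h2' _ (hp k)
    rw [Bool.eq_iff_iff]
    exact e1.symm.trans e2

end Fam

end Pool.Agent.Helper56.OC
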