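import Mathlib
import Pool.Agent.Helper56.OC.Inst

/-!
# G5: quadrangular faces and cells (statements, with complete proofs in the docstrings)

Everything is about a finite family `A : Fam ι` of circles, pairwise disjoint or orthogonal.
-/

set_option autoImplicit false

open Set Metric

namespace Pool.Agent.Helper56.OC

/-! ### Module CIRC -/

/-- Module CIRC.  Components of a circle minus a finite set `P` with at least two points: each is an
open arc with two different end points `p, q ∈ P`, and it is relatively clopen in `sphere ∖ {p, q}`.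

PROOF.  Fix `p₀ ∈ P` and let `γ : ℝ → ℂ`, `γ θ = c + (p₀ - c) e^{iθ}`; `γ` is continuous, maps onto
the sphere, `γ θ = γ θ'` iff `θ - θ' ∈ 2πℤ`, so `γ` is injective on `[0, 2π)`, and
`sphere ∖ {p₀} = γ '' (0, 2π)`.  Let `E = {θ ∈ (0, 2π) | γ θ ∈ P}` (finite, nonempty because `P` has
a second point).  Write `y = γ t`, `t ∈ (0, 2π) ∖ E`.  Let `u` be the largest element of
`{0} ∪ {θ ∈ E | θ < t}` and `v` the smallest of `{2π} ∪ {θ ∈ E | t < θ}`; `p = γ u`, `q = γ v`.
`(u, v) ≠ (0, 2π)` since `E` is not empty, so `p ≠ q`.  Put `a = γ '' (u, v)`; it is preconnected,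
contained in `sphere ∖ P` and contains `y`.  It is enough to prove: (*) if
`Z ⊆ sphere ∖ {p, q}` is preconnected and meets `a` then `Z ⊆ a` (then `a` is the component, taking
`Z` = component).  Put `b = γ '' (v, u + 2π)`.  Then `sphere ∖ {p, q} = a ∪ b`, `a ∩ b = ∅`, and
the closures are `closure a = a ∪ {p, q} = γ '' [u, v]` (compact), `closure b = γ '' [v, u + 2π]`,
so `closure a ∩ b = ∅` and `a ∩ closure b = ∅`; use `IsPreconnected.subset_left_of_subset_union`
with the open sets `(closure b)ᶜ`, `(closure a)ᶜ`.  (Injectivity of `γ` on `[u, u + 2π)`.)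
`closure a ⊇ {p, q}` by continuity of `γ`. -/
def StCirc : Prop := ∀ (c : ℂ) (r : ℝ), 0 < r → ∀ P : Set ℂ, P.Finite → P ⊆ sphere c r →
  P.Nontrivial → ∀ y ∈ sphere c r \ P, ∃ p ∈ P, ∃ q ∈ P, p ≠ q ∧
    closure (connectedComponentIn (sphere c r \ P) y) \
      connectedComponentIn (sphere c r \ P) y = {p, q} ∧
    ∀ Z : Set ℂ, Z ⊆ sphere c r \ {p, q} → IsPreconnected Z →
      (Z ∩ connectedComponentIn (sphere c r \ P) y).Nonempty →
      Z ⊆ connectedComponentIn (sphere c r \ P) y

/-! ### Module BOX -/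

/-- Module BOX.  Local coordinates at a point `p` at which two circles cross orthogonally: the powers
`(‖x - c‖² - r², ‖x - c'‖² - r'²)` are local coordinates.

PROOF.  `f x = (‖x - c‖² - r², ‖x - c'‖² - r'²) : ℂ → ℝ × ℝ` has at `p` the strict derivative
`v ↦ (2⟪p - c, v⟫, 2⟪p - c', v⟫)`, which is bijective because `p - c`, `p - c'` are nonzero and
orthogonal (in coordinates: determinant `4 ((p-c).re (p-c').im - (p-c).im (p-c').re) ≠ 0`).
`HasStrictFDerivAt.toOpenPartialHomeomorph` gives `e`; `f p = (0, 0)`.  The set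
`e.target ∩ e.symm ⁻¹' (interior W)` is a neighbourhood of `(0,0)`; choose `ε` such that the box is
contained in it, `h = e.symm`; `h '' box = e.source ∩ f ⁻¹' box` is open. -/
def StBox : Prop := ∀ (c c' p : ℂ) (r r' : ℝ), 0 < r → 0 < r' → ‖p - c‖ = r → ‖p - c'‖ = r' →
  inner ℝ (p - c) (p - c') = 0 → ∀ W ∈ nhds p, ∃ ε > (0 : ℝ), ∃ h : ℝ × ℝ → ℂ,
    ContinuousOn h (Ioo (-ε) ε ×ˢ Ioo (-ε) ε) ∧ h (0, 0) = p ∧
    (∀ z ∈ Ioo (-ε) ε ×ˢ Ioo (-ε) ε, ‖h z - c‖ ^ 2 - r ^ 2 = z.1 ∧ ‖h z - c'‖ ^ 2 - r' ^ 2 = z.2) ∧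
    IsOpen (h '' (Ioo (-ε) ε ×ˢ Ioo (-ε) ε)) ∧ h '' (Ioo (-ε) ε ×ˢ Ioo (-ε) ε) ⊆ W

namespace Fam

variable {ι : Type}

/-- `x` is on the side `s` of the circle `i` -/
def OnS (A : Fam ι) (s : Finset ι) (i : ι) (x : ℂ) : Prop := A.g i x ≠ 0 ∧ (A.g i x < 0 ↔ i ∈ s)

/-- `F` is a face -/
def IsFace (A : Fam ι) (F : Set ℂ) : Prop := ∃ p ∉ A.U, F = connectedComponentIn A.Uᶜ p

/-- `F` is a face with sign vector `s` -/
def HasSign (A : Fam ι) (F : Set ℂ) (s : Finset ι) : Prop :=
  A.IsFace F ∧ ∀ x ∈ F, ∀ i, A.OnS s i x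

/-- the arc of the circle `j` through `y` -/
def arcAt (A : Fam ι) (j : ι) (y : ℂ) : Set ℂ := connectedComponentIn (A.sph j \ A.X) y

/-- `a` is a free arc of the circle `j` from `p ∈ i ∩ j` to `q ∈ j ∩ l`, seen from the region with
sign vector `s` -/
structure Seg (A : Fam ι) (s : Finset ι) (i j l : ι) (p q : ℂ) (a : Set ℂ) : Prop where
  hij : i ≠ j
  hlj : l ≠ j
  pi : p ∈ A.sph i
  pj : p ∈ A.sph j
  qj : q ∈ A.sph j
  ql : q ∈ A.sph l
  hpq : p ≠ q
  /-- `a` is an arc of the arrangement -/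
  harc : ∃ y ∈ A.sph j \ A.X, a = A.arcAt j y
  hends : closure a \ a = {p, q}
  /-- `a` is relatively clopen in the circle minus its end points -/
  hmax : ∀ Z : Set ℂ, Z ⊆ A.sph j \ {p, q} → IsPreconnected Z → (Z ∩ a).Nonempty → Z ⊆ a
  germp : ∃ N ∈ nhds p, ∀ y ∈ N, y ∈ A.sph j → A.OnS s i y → y ∈ a
  germq : ∃ N ∈ nhds q, ∀ y ∈ N, y ∈ A.sph j → A.OnS s l y → y ∈ a
  sa : ∀ y ∈ a, ∀ n, n ≠ j → A.OnS s n y
  sp : ∀ n, n ≠ i → n ≠ j → A.OnS s n p
  sq : ∀ n, n ≠ l → n ≠ j → A.OnS s n q

end Fam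

open Fam

/-! ### Module SEP -/

/-- Module SEP.  If `i, j, n` are pairwise orthogonal, the two points of `i ∩ j` lie on different
sides of `n`.

PROOF.  Translate so that `c i = 0`: `u = p - c i`, `u' = q - c i`, `d = c j - c i`, `w = c n - c i`,
`R = r_i²`.  `|u|² = |u'|² = R`; from `|p - c_j|² = r_j²` and `|d|² = R + r_j²`:
`⟪u, d⟫ = R`, likewise `⟪u', d⟫ = R`; `⟪w, d⟫ = R` and `|w|² = R + r_n²`.
`g n p = |u - w|² - r_n² = 2 (R - ⟪u, w⟫)`, `g n q = 2 (R - ⟪u', w⟫)`.  Since `u ≠ u'` have the same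
norm and the same product with `d ≠ 0`, in the orthogonal basis `d, d^⊥ = i d`:
`u = α d + β d^⊥`, `u' = α d - β d^⊥`, `α = R/|d|²`, `β ≠ 0`, `β² |d|² = R - R²/|d|²`;
`w = α d + δ d^⊥` with `δ² |d|² = R + r_n² - R²/|d|² > β² |d|²`.  Hence
`R - ⟪u, w⟫ = |d|² (β² - β δ)`, `R - ⟪u', w⟫ = |d|² (β² + β δ)` and the product is
`|d|⁴ β² (β² - δ²) < 0`. -/
def StSep : Prop := ∀ (ι : Type) (A : Fam ι) (i j n : ι), A.orth i j → A.orth i n → A.orth j n →
  ∀ p q : ℂ, p ≠ q → p ∈ A.sph i → p ∈ A.sph j → q ∈ A.sph i → q ∈ A.sph j →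
    A.g n p * A.g n q < 0

/-- Module PTS.  (1) two different circles with a common point are orthogonal and the radii are
perpendicular there (`‖c_i - c_j‖² = ‖(p - c_j) - (p - c_i)‖²` and the polarization identity);
(2) orthogonal circles meet in exactly two points (with `d = ‖c_i - c_j‖`, `u = (c_j - c_i)/d`, the
points `c_i + u (r_i²/d ± i r_i r_j/d)`; see the proof of `Fam.toPArr` in `Inst.lean`; conversely a
common point has `⟪p - c_i, c_j - c_i⟫ = r_i²`, which determines it up to the sign);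
(3) three different circles have no common point: by (1) the vectors `p - c_i, p - c_j, p - c_n`
would be nonzero and pairwise orthogonal in the plane. -/
def StPts : Prop := ∀ (ι : Type) (A : Fam ι),
  (∀ i j, i ≠ j → ∀ p, p ∈ A.sph i → p ∈ A.sph j →
    A.orth i j ∧ inner ℝ (p - A.c i) (p - A.c j) = 0) ∧
  (∀ i j, A.orth i j → ∃ p q, p ≠ q ∧ A.sph i ∩ A.sph j = {p, q}) ∧
  (∀ i j n, i ≠ j → i ≠ n → j ≠ n → ∀ p, p ∈ A.sph i → p ∈ A.sph j → p ∉ A.sph n)

/-! ### Module FACE -/

/-- Module FACE.  Basic facts on a face `F` with sign vector `s` (`ι` finite).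

PROOF.  `U` is a finite union of spheres, so closed; `Uᶜ` is open and `ℂ` is locally connected, so
(1) components are open (`IsOpen.connectedComponentIn`) and connected.
(0) every face has a sign vector: on the connected set `F` the continuous function `g i` has no zero
(`mem_sph`), so it has constant sign (`s = sgn` of any point).
(2) a frontier point `x` outside `U` would lie in a face `F'` (open) meeting `F`, so `F' = F` and
`x ∈ F` open, contradiction.  (3) a preconnected subset of `Uᶜ` meeting `F` is in `F`.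
(4) if `x ∈ closure F` and `g n x ≠ 0`, the sign of `g n` near `x` is that of `F`.
(5) `s` is a cell: `Fam.compat` at a point of `F`.
(6) if `x ∈ frontier F` lies on the circle `i` then `i` is a facet: for `n ≠ i` not orthogonal to
`i`, `x ∉ sph n` (`side_spec`), so by (4) and `side_spec` the sign of `n` in `s` is `side n i`.
(7) two faces with a common point are equal. -/
def StFace : Prop := ∀ (ι : Type) [Fintype ι] [DecidableEq ι] (A : Fam ι),
  (∀ F, A.IsFace F → ∃ s, A.HasSign F s) ∧
  ∀ (F : Set ℂ) (s : Finset ι), A.HasSign F s →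
    (IsOpen F ∧ IsConnected F ∧ F ⊆ A.Uᶜ) ∧
    frontier F ⊆ A.U ∧
    (∀ Z : Set ℂ, Z ⊆ A.Uᶜ → IsPreconnected Z → (Z ∩ F).Nonempty → Z ⊆ F) ∧
    (∀ x ∈ closure F, ∀ n, A.g n x ≠ 0 → A.OnS s n x) ∧
    (s ∈ A.toPArr.cellsF Finset.univ) ∧
    (∀ x ∈ frontier F, ∀ i, x ∈ A.sph i → i ∈ A.toPArr.fac s) ∧
    (∀ F', A.IsFace F' → (F ∩ F').Nonempty → F = F')

/-! ### Module LOC -/

/-- Module LOC.  Local structure of a face at a boundary point.

PROOF (uses StBox, StPts, StFace).
(1) `x ∈ sph i`, `x ∉ X`.  The other circles do not contain `x`; let `W` be a neighbourhood of `x`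
which meets no other circle (finitely many closed sets).  Apply StBox to the circle `i` and an
auxiliary circle through `x` orthogonal to `i` (centre `x + I (x - c i)`, radius `r i`).  With the
box map `h`, `h '' ((0, ε) × (-ε, ε))` and `h '' ((-ε, 0) × (-ε, ε))` are preconnected, contained in
`Uᶜ`, and they are the points of the neighbourhood `N = h '' box` with `g i > 0` resp. `g i < 0`
(a point of `N` is `h z` with `z.1 = g i`).  `F` is open and meets `N` (as `x ∈ closure F`) in a point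
with `g i` of the sign of `s`; hence the half of `N` on the side `s` is contained in `F` (StFace (3)).
Every `y ∈ N ∩ sph i`, `y = h (0, t)`, is the limit of `h (± τ, t)`, `τ → 0`, so `y ∈ closure F`, and
`y ∉ F` since `y ∈ U`.
(2) `x ∈ sph i ∩ sph j`: the same with the box of `i, j` (StPts (1); no third circle contains `x`):
the four quarters are preconnected subsets of `Uᶜ`; the quarter with signs `s` meets `F`.
(3) germs: the half segment `H = h '' ((0, ± ε) × {0})` of the box of `(i, j)`, where the first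
coordinate is `g i` (sign of `s`) and the second `g j = 0`; `W` as in (2), so `H` contains no crossing
point except possibly... (a point of `H` is on `sph j`, not on `sph i`, and `W` meets no other circle).
If `x ∈ frontier F` then every `y = h (t, 0) ∈ H` is the limit of `h (t, ± τ)` which is in `F` by (2)
(take the box inside the neighbourhood of (2)). -/
def StLoc : Prop := ∀ (ι : Type) [Fintype ι] [DecidableEq ι] (A : Fam ι) (F : Set ℂ) (s : Finset ι),
  A.HasSign F s →
    (∀ i x, x ∈ A.sph i → x ∉ A.X → x ∈ frontier F →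
      ∃ N ∈ nhds x, (∀ y ∈ N, A.OnS s i y → y ∈ F) ∧ (∀ y ∈ N, y ∈ A.sph i → y ∈ frontier F)) ∧
    (∀ i j x, i ≠ j → x ∈ A.sph i → x ∈ A.sph j → x ∈ frontier F →
      ∃ N ∈ nhds x, ∀ y ∈ N, A.OnS s i y → A.OnS s j y → y ∈ F) ∧
    (∀ i j x, i ≠ j → x ∈ A.sph i → x ∈ A.sph j → ∃ H : Set ℂ, IsPreconnected H ∧ H.Nonempty ∧
      H ⊆ A.sph j \ A.X ∧ (∀ y ∈ H, A.OnS s i y) ∧ x ∈ closure H ∧
      (∃ N ∈ nhds x, ∀ y ∈ N, y ∈ A.sph j → A.OnS s i y → y ∈ H) ∧
      (x ∈ frontier F → H ⊆ frontier F))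

/-! ### Module ARC -/

/-- Module ARC.  Boundary arcs are arcs of circles.

PROOF (uses StFace, StLoc (1), StPts (3)).  Let `Z = arcAt j y`.
(a) `Z ⊆ frontier F`: `Z` is preconnected, contained in `sph j ∖ X`; `Z ∩ frontier F` is relatively
closed in `Z`, and relatively open by StLoc (1); it contains `y`
(`IsPreconnected.subset_of_closure_inter_subset` or `isPreconnected_iff_subset_of_disjoint`).
(b) the component `Z'` of `frontier F ∖ X` at `y` contains `Z`.  Conversely `Z' ⊆ U ∖ X`; the sets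
`sph k ∖ X` are pairwise disjoint, relatively closed in `U ∖ X` and finite in number, so they are
relatively clopen in `U ∖ X` and `Z' ⊆ sph j ∖ X`; hence `Z' ⊆ Z`. -/
def StArc : Prop := ∀ (ι : Type) [Fintype ι] [DecidableEq ι] (A : Fam ι) (F : Set ℂ) (s : Finset ι),
  A.HasSign F s → ∀ j y, y ∈ A.sph j → y ∉ A.X → y ∈ frontier F →
    A.arcAt j y ⊆ frontier F ∧ A.arcAt j y = connectedComponentIn (frontier F \ A.X) y

/-! ### Module NEXT -/

/-- Module NEXT.  From a corner `p ∈ i ∩ j` of `F`, along the circle `j` on the side `s` of `i`, there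
is a free arc of the boundary of `F` to another corner `q ∈ j ∩ l`.

PROOF (uses StCirc, StPts, StFace, StLoc, StArc).  `X` is finite (StPts (1), (2)) and `sph j ∩ X` has
at least two points (the two points of `i ∩ j`, StPts (2)).  Let `H` be the germ of StLoc (3) at `p`
for `(i, j)`, `y ∈ H` and `a = arcAt j y`; `H ⊆ a`, and `y ∈ frontier F`, so `a ⊆ frontier F` is a
boundary arc (StArc) .  StCirc with `P = sph j ∩ X` (`sph j ∖ P = sph j ∖ X`) gives
`closure a ∖ a = {p', q'}`.  `p ∈ closure H ⊆ closure a` and `p ∉ a`, so `p` is one of them, call the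
other one `q`; `q ∈ X`, so `q ∈ sph l` for some `l ≠ j`.  `q ∈ closure a ⊆ frontier F`.  Signs: points
of `closure F` not on `n` are on the side `s` of `n` (StFace (4)); this gives `sa`, `sp`, `sq` (three
circles have no common point).  `germp`: StLoc (3).  `germq`: let `H'` be the germ of StLoc (3) at `q`
for `(l, j)`; its neighbourhood `N` contains a point of `a` (as `q ∈ closure a`), which is on the side
`s` of `l`, so `H' ∩ a ≠ ∅`, `H' ⊆ a` (component). -/
def StNext : Prop := ∀ (ι : Type) [Fintype ι] [DecidableEq ι] (A : Fam ι) (F : Set ℂ) (s : Finset ι),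
  A.HasSign F s → ∀ i j p, i ≠ j → p ∈ A.sph i → p ∈ A.sph j → p ∈ frontier F →
    ∃ l q a, A.Seg s i j l p q a ∧ q ∈ frontier F ∧ a ⊆ frontier F ∧ a ∈ A.arcs F

/-- Module START.  Every boundary arc of `F` is either a whole circle without crossing points or
contains the germ at a corner, so it is the arc of a corner.

PROOF (uses StCirc, StArc, StNext, StPts, StFace).  Let `y ∈ frontier F ∖ X`, so `y ∈ sph j` for some
`j` (StFace).  If `sph j ∩ X = ∅` then `arcAt j y = sph j` (a circle in the plane is connected,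
`isPreconnected_sphere`).  Otherwise `sph j ∩ X` has at least two points and StCirc gives an end point
`p ∈ X` of `a = arcAt j y`, `p ∈ closure a ⊆ frontier F`, `p ∈ sph i`, `i ≠ j`.  Let `a'` be the arc of
StNext at `(i, j, p)`; its germ neighbourhood `N` of `p` contains a point `z ∈ a` (as
`p ∈ closure a`), and `z` is on the side `s` of `i` (StFace (4), `a ∩ sph i = ∅` as `a` avoids `X`), so
`z ∈ a'`; two components with a common point are equal. -/
def StStart : Prop := ∀ (ι : Type) [Fintype ι] [DecidableEq ι] (A : Fam ι) (F : Set ℂ) (s : Finset ι),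
  A.HasSign F s → ∀ y ∈ frontier F \ A.X, ∃ j, y ∈ A.sph j ∧
    ((A.sph j ∩ A.X = ∅ ∧ A.arcAt j y = A.sph j) ∨
      ∃ i l p q, A.Seg s i j l p q (A.arcAt j y) ∧ p ∈ frontier F ∧ q ∈ frontier F)

/-! ### Module ORB -/

/-- Module ORB (pure combinatorics).  Flags with two involutions: `R` (other end of the arc, same
circle `th`) and `sw` (other circle at the same corner); `α` = the arc.

PROOF.  `T = sw ∘ R` is injective.  `R T R... `: from `T = sw ∘ R` and `sw² = 1`, `R² = 1`:
`T (R (T f)) = sw (R (R (sw (R f)))) = sw (sw (R f)) = R f`, i.e. `T R T = R`, hence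
`T^m R T^m = R` for all `m`.  Claim: `R f ≠ T^m f` for all `m ≥ 0` and all `f`.  If `m = 2 t`: put
`f' = T^t f`; `T^t (R f') = T^t R T^t f = R f = T^(2t) f = T^t f'`, so `R f' = f'`, contradiction.  If
`m = 2 t + 1`: `T^t (R f') = R f = T^t (T f')`, so `R f' = T f' = sw (R f')`, contradiction to
`th (sw x) ≠ th x`.  Now consider `f, T f, ..., T^4 f`: their arcs are in a set with at most four
elements, so `α (T^m f) = α (T^n f)` for some `m < n ≤ 4`; `T^n f = R (T^m f)` is impossible by the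
claim (applied to `T^m f`), so `T^n f = T^m f` and `T^(n-m) f = f` by injectivity.  Let `k ≥ 1` be
minimal with `T^k f = f`; `k ≤ 4`; `k ≠ 1` because `th (T f) ≠ th (R f) = th f`.  For `m < n < k` the
arcs of `T^m f`, `T^n f` are different by the same argument and minimality. -/
def StOrb : Prop := ∀ (Fl κ β : Type) (R sw : Fl → Fl) (th : Fl → κ) (α : Fl → β) (S : Finset β),
  (∀ f, R (R f) = f) → (∀ f, sw (sw f) = f) → (∀ f, R f ≠ f) → (∀ f, th (R f) = th f) →
  (∀ f, th (sw f) ≠ th f) → (∀ f, α f ∈ S) → S.card ≤ 4 →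
  (∀ f f', α f = α f' → f' = f ∨ f' = R f) → ∀ f : Fl, ∃ k : ℕ, 2 ≤ k ∧ k ≤ 4 ∧
    (fun x => sw (R x))^[k] f = f ∧
    ∀ m n, m < n → n < k → α ((fun x => sw (R x))^[m] f) ≠ α ((fun x => sw (R x))^[n] f)

/-! ### Module LZ -/

/-- Module LZ.  Let `N` be a nonempty set of circles orthogonal to `j` and `Z` the set of points of
`sph j` on the side `s` of all members of `N`.  If all end points of the arcs in `𝒜` are on circles of
`N` and every corner germ of `Z` is in an arc of `𝒜`, then `Z ⊆ ⋃ 𝒜`.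

PROOF (uses StCirc, StPts; `ι` finite).  Let `P = sph j ∩ ⋃_{n ∈ N} sph n` (finite, at least two
points by StPts (2)), `y ∈ Z`; `y ∉ P`; let `a'` be the component of `sph j ∖ P` at `y`.  On `a'` no
`g n`, `n ∈ N`, vanishes, so the signs are constant and `a' ⊆ Z`.  StCirc: `closure a' ∖ a' = {p, q}`,
`p ∈ P`, say `p ∈ sph n`.  For `n' ∈ N`, `n' ≠ n`: `p ∉ sph n'` (StPts (3)), so the sign of `g n'` at
`p` is the same as on `a'` near `p`, that is `OnS s n' p`.  By hypothesis there are `a ∈ 𝒜` and a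
neighbourhood `M` of `p` with `M ∩ sph j ∩ {OnS s n} ⊆ a`.  As `p ∈ closure a'`, `M` contains a point
of `a' ⊆ sph j ∩ {OnS s n}`, so `a ∩ a' ≠ ∅`.  Finally `a'` is preconnected and contained in
`sph j ∖ P ⊆ sph j ∖ (closure a ∖ a)`, so `a' ⊆ a` by maximality of `a` (hypothesis `hmax`), and
`y ∈ a`. -/
def StLZ : Prop := ∀ (ι : Type) [Fintype ι] [DecidableEq ι] (A : Fam ι) (s N : Finset ι) (j : ι)
  (𝒜 : Set (Set ℂ)), N.Nonempty → (∀ n ∈ N, A.orth n j) →
  (∀ a ∈ 𝒜, closure a \ a ⊆ (⋃ n ∈ N, A.sph n) ∧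
    ∀ Z : Set ℂ, Z ⊆ A.sph j \ (closure a \ a) → IsPreconnected Z → (Z ∩ a).Nonempty → Z ⊆ a) →
  (∀ n ∈ N, ∀ p, p ∈ A.sph j → p ∈ A.sph n → (∀ n' ∈ N, n' ≠ n → A.OnS s n' p) →
    ∃ a ∈ 𝒜, ∃ M ∈ nhds p, ∀ y ∈ M, y ∈ A.sph j → A.OnS s n y → y ∈ a) →
  ∀ y ∈ A.sph j, (∀ n ∈ N, A.OnS s n y) → ∃ a ∈ 𝒜, y ∈ a

/-! ### Modules Z1 - Z4 -/

/-- no four pairwise orthogonal circles, and no induced four-cycle -/
def Good {ι : Type} (A : Fam ι) : Prop :=
  (∀ i j k l, A.orth i j → A.orth i k → A.orth i l → A.orth j k → A.orth j l → ¬ A.orth k l) ∧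
  (∀ i j a b, i ≠ j → ¬ A.orth i j → a ≠ b → A.orth i a → A.orth i b → A.orth j a → A.orth j b →
    A.orth a b)

/-- Module FACS.  Two non orthogonal facets of a cell lie on the cell's side of each other.

PROOF.  `n, n' ∈ fac s`, not orthogonal, `n' ≠ n`.  `n'` is a facet: `sg s n = side n n'`
(`IsFacet univ (sg s) n'` at `n`).  With `side_spec` for `y ∈ sph n'`. -/
def StFacs : Prop := ∀ (ι : Type) [Fintype ι] [DecidableEq ι] (A : Fam ι) (s : Finset ι) (n n' : ι),
  n ∈ A.toPArr.fac s → n' ∈ A.toPArr.fac s → n ≠ n' → ¬ A.orth n n' → ∀ y ∈ A.sph n', A.OnS s n y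

/-- Module Z1.  Both ends of the free arc `a` of `j` are on the circle `i`: then `a` is the whole part
of `sph j` on the side `s` of `i`, and `i` is the only facet orthogonal to `j`.

PROOF (uses StLZ, StSep, StPts, StFacs).  First claim: StLZ with `N = {i}`, `𝒜 = {a}`: the points of
`i ∩ j` are `p, q` (StPts (2) and `p ≠ q`), and the germs are `germp`, `germq`; `i, j` are orthogonal
by StPts (1).  Second claim: let `n` be a facet orthogonal to `j`, `n ≠ i`; `n ∩ j` has two points `y`,
`y'` (StPts (2)).  If `n` is not orthogonal to `i`, then `OnS s i y` (StFacs).  If `n ⟂ i`, then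
`i, n, j` are pairwise orthogonal and by StSep (for the pair `n, j` and the third circle `i`) one of
`y, y'` is on the side `s` of `i`.  In both cases a crossing point is in `a`, contradiction
(`a ⊆ sph j ∖ X`). -/
def StZ1 : Prop := ∀ (ι : Type) [Fintype ι] [DecidableEq ι] (A : Fam ι) (s : Finset ι) (i j : ι)
  (p q : ℂ) (a : Set ℂ), A.Seg s i j i p q a → i ∈ A.toPArr.fac s → j ∈ A.toPArr.fac s →
  (∀ y ∈ A.sph j, A.OnS s i y → y ∈ a) ∧ (∀ n ∈ A.toPArr.fac s, A.orth n j → n = i)

/-- Module Z2.  The ends of the free arc `a` of `j` are on two orthogonal circles `i`, `l`.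

PROOF (uses StLZ, StSep, StPts, StFacs, Good).  `i, j, l` are pairwise orthogonal.  First claim: StLZ
with `N = {i, l}`, `𝒜 = {a}`: the points of `i ∩ j` are `p` and another one `p'`; by StSep exactly one
of them is on the side `s` of `l`, and `p` is (field `sp`), so the only corner germ on `i` is `germp`;
the same at `q`.  Second claim: `n` a facet, `n ⟂ j`, `n ≠ i, l`.  Not both `n ⟂ i` and `n ⟂ l` (four
pairwise orthogonal circles).  If `n ⟂ i`, not `n ⟂ l`: of the two points of `n ∩ j` one is on the side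
`s` of `i` (StSep for the pair `n, j`, third circle `i`), both are on the side `s` of `l` (StFacs);
symmetric if `n ⟂ l`; if neither, both points are on the sides `s`.  So a crossing point lies in `a`,
contradiction. -/
def StZ2 : Prop := ∀ (ι : Type) [Fintype ι] [DecidableEq ι] (A : Fam ι) (s : Finset ι) (i j l : ι)
  (p q : ℂ) (a : Set ℂ), Good A → A.Seg s i j l p q a → A.orth i l → i ∈ A.toPArr.fac s →
  j ∈ A.toPArr.fac s → l ∈ A.toPArr.fac s →
  (∀ y ∈ A.sph j, A.OnS s i y → A.OnS s l y → y ∈ a) ∧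
  (∀ n ∈ A.toPArr.fac s, A.orth n j → n = i ∨ n = l)

/-- Module Z3.  Two different free arcs of `i` from `m` to `j` and from `j` to `m`, where `j`, `m` are
not orthogonal and have no other neighbour than `i`.

PROOF (uses StLZ, StPts, StFacs).  StLZ with `N = {j, m}`, `𝒜 = {a, a'}`: `i ∩ j` has exactly two
points (StPts (2)), `q` and `p'`, which are different by hypothesis, with germs `germq` of the first
and `germp` of the second arc; `i ∩ m = {p, q'}`.  Second claim: `n` a facet, `n ⟂ i`, `n ≠ j, m`: `n`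
is not orthogonal to `j` (else `n` is a neighbour of `j`, so `n = i`, but `n ⟂ i`), nor to `m`; so the
points of `n ∩ i` are on the side `s` of `j` and `m` (StFacs), hence in `a ∪ a'`, contradiction. -/
def StZ3 : Prop := ∀ (ι : Type) [Fintype ι] [DecidableEq ι] (A : Fam ι) (s : Finset ι) (i j m : ι)
  (p q p' q' : ℂ) (a a' : Set ℂ), A.Seg s m i j p q a → A.Seg s j i m p' q' a' → q ≠ p' → p ≠ q' →
  j ≠ m → ¬ A.orth j m → i ∈ A.toPArr.fac s → j ∈ A.toPArr.fac s → m ∈ A.toPArr.fac s →
  (∀ n ∈ A.toPArr.fac s, A.orth n j → n = i) → (∀ n ∈ A.toPArr.fac s, A.orth n m → n = i) →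
  (∀ y ∈ A.sph i, A.OnS s j y → A.OnS s m y → y ∈ a ∨ y ∈ a') ∧
  (∀ n ∈ A.toPArr.fac s, A.orth n i → n = j ∨ n = m)

/-- Module Z4.  A free arc `a` of `i` from `m` to `j`, not orthogonal, and a facet `l` orthogonal to
`i, j, m`; `j` and `m` have no other neighbours than `i`, `l`.

PROOF (uses StLZ, StSep, StPts, StFacs).  StLZ with `N = {j, m, l}`, `𝒜 = {a}`.  Corners: on `j`: the
points of `i ∩ j` are `q` and `q₁`; `l` separates them (StSep), `q` is on the side `s` of `l`
(field `sq`), so only `q` counts, germ `germq`; on `m`: only `p`.  On `l`: the points `t, t'` of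
`i ∩ l`; `j` separates them and `m` separates them (StSep).  If `t` is on the side `s` of both `j` and
`m` then `t'` is on the wrong side of both; but `j, m` are non orthogonal facets, so by `Fam.compat`
and StFacs no point is on the wrong side of both (a point on the wrong side of `j` is on the side of
`m` containing `j`, which is the side `s`).  So neither `t` nor `t'` is a corner.  Second claim: `n` a
facet, `n ⟂ i`, `n ≠ j, m, l`: not `n ⟂ j`, not `n ⟂ m`.  The points of `n ∩ i` are on the sides `s` of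
`j`, `m` (StFacs); if `n` is not orthogonal to `l` also of `l`, otherwise one of them is on the side
`s` of `l` (StSep for the pair `n, i`, third circle `l`).  So a crossing point lies in `a`,
contradiction. -/
def StZ4 : Prop := ∀ (ι : Type) [Fintype ι] [DecidableEq ι] (A : Fam ι) (s : Finset ι) (i j m l : ι)
  (p q : ℂ) (a : Set ℂ), A.Seg s m i j p q a → A.orth l i → A.orth l j → A.orth l m →
  j ≠ m → ¬ A.orth j m → i ∈ A.toPArr.fac s → j ∈ A.toPArr.fac s → m ∈ A.toPArr.fac s →
  l ∈ A.toPArr.fac s →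
  (∀ n ∈ A.toPArr.fac s, A.orth n j → n = i ∨ n = l) →
  (∀ n ∈ A.toPArr.fac s, A.orth n m → n = i ∨ n = l) →
  (∀ y ∈ A.sph i, A.OnS s j y → A.OnS s m y → A.OnS s l y → y ∈ a) ∧
  (∀ n ∈ A.toPArr.fac s, A.orth n i → n = j ∨ n = m ∨ n = l)

/-! ### Module CLS -/

/-- the five types of small components -/
def Small {ι : Type} [DecidableEq ι] (A : Fam ι) (C : Finset ι) : Prop :=
  (∃ i, C = {i}) ∨ (∃ i j, A.orth i j ∧ C = {i, j}) ∨
  (∃ i j l, A.orth i j ∧ A.orth i l ∧ A.orth j l ∧ C = {i, j, l})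

/-- path with three vertices, or `K4` minus an edge -/
def Quad {ι : Type} [DecidableEq ι] (A : Fam ι) (C : Finset ι) : Prop :=
  (∃ i j l, A.orth i j ∧ A.orth i l ∧ ¬ A.orth j l ∧ j ≠ l ∧ C = {i, j, l}) ∨
  (∃ i j l m, A.orth i l ∧ A.orth i j ∧ A.orth i m ∧ A.orth l j ∧ A.orth l m ∧ ¬ A.orth j m ∧
    j ≠ m ∧ C = {i, j, l, m})

/-- A closed walk of `k` free arcs: arc `t` is on the circle `j t`, from the corner `p t` on the
circle `j (t-1)` to the corner `p (t+1)` on the circle `j (t+1)`. -/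
def Walk {ι : Type} (A : Fam ι) (s : Finset ι) (k : ℕ) (j : ℕ → ι) (p : ℕ → ℂ)
    (a : ℕ → Set ℂ) : Prop :=
  (∀ t, j (t + k) = j t ∧ p (t + k) = p t ∧ a (t + k) = a t) ∧
  (∀ t, A.Seg s (j t) (j (t + 1)) (j (t + 2)) (p t) (p (t + 1)) (a (t + 1)))

/-- Module CLS.  Classification of the closed walks of length `2 ≤ k ≤ 4`.

Index convention: `Seg s (j t) (j (t+1)) (j (t+2)) (p t) (p (t+1)) (a (t+1))`: the arc `a (t+1)` is on
the circle `j (t+1)`, `p t ∈ j t ∩ j (t+1)`.

PROOF (uses StZ1, StZ2, StZ3, StZ4).  Consecutive circles are different and orthogonal (StPts (1)).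
`k = 2`: `j 2 = j 0`: StZ1 twice; `C = {j 0, j 1}`.
`k = 3`: `j 0, j 1, j 2` pairwise orthogonal: StZ2 three times.
`k = 4`: (a) `j 0 = j 2` and `j 1 = j 3`: StZ1 for the arcs `a 1` and `a 3` of the circle `j 1 = j 3`:
both are the part of the circle on the side `s` of `j 0` (an arc of `Seg` is contained in this part by
the field `sa`), so `a 1 = a 3`, excluded.  (b) `j 0 = j 2 =: i`, `j 1 =: j ≠ m := j 3`: StZ1 for `j`
and `m`: their only neighbour is `i`, so they are not orthogonal (`j ⟂ m` would give `m = i`); StZ3 for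
`i` with the arcs `a 0 = a 4` (from `j 3 = m` to `j 1 = j`, corners `p 3`, `p 0 = p 4`) and `a 2` (from
`j` to `m`, corners `p 1`, `p 2`): `p 0 ≠ p 1` (`Seg.hpq`, arc `a 1`) and `p 3 ≠ p 2` (arc `a 3`).
`C = {i, j, m}`, Quad.  (b') `j 1 = j 3`, `j 0 ≠ j 2`: the same, shifted by one.
(c) all four different.  If `j 0`, `j 2` are not orthogonal then `j 1 ⟂ j 3` by the four-cycle axiom
of Good, so one of the two diagonals is orthogonal, and not both (four pairwise orthogonal circles).
Say `i := j 0 ⟂ l := j 2`, not `j 1 ⟂ j 3` (the other case is shifted by one).  StZ2 for `j 1` and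
`j 3`; StZ4 for `i` (arc `a 0 = a 4` from `m = j 3` to `j = j 1`, third circle `l`) and for `l` (arc
`a 2` from `j 1` to `j 3`, third circle `i`).  `C = {i, j 1, l, j 3}`, Quad.
In all cases: `C = {j t}`; every facet orthogonal to a member of `C` is in `C`; every point of `sph i`,
`i ∈ C`, which is on the side `s` of all other facets is in one of the arcs `a t` with `j t = i`. -/
def StCls : Prop := ∀ (ι : Type) [Fintype ι] [DecidableEq ι] (A : Fam ι) (s : Finset ι) (k : ℕ)
  (j : ℕ → ι) (p : ℕ → ℂ) (a : ℕ → Set ℂ), Good A → 2 ≤ k → k ≤ 4 → Walk A s k j p a →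
  (∀ t, j t ∈ A.toPArr.fac s) → (∀ m n, m < n → n < k → a m ≠ a n) →
  ∃ C : Finset ι, (∀ t, j t ∈ C) ∧ (∀ i ∈ C, ∃ t, j t = i) ∧
    (∀ i ∈ C, ∀ n ∈ A.toPArr.fac s, A.orth n i → n ∈ C) ∧
    (∀ i ∈ C, ∀ y ∈ A.sph i, (∀ n ∈ A.toPArr.fac s, n ≠ i → A.OnS s n y) → ∃ t, y ∈ a t) ∧
    ((k ≤ 3 ∧ Small A C) ∨ (k = 4 ∧ Quad A C))

/-! ### Module G5 -/

/-- Module WALK.  From a quadrangular face to a closed walk.

PROOF (uses StFace, StLoc, StArc, StNext, StStart, StOrb, StPts).  `arcs F` has exactly four elements.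
Let `Fl` be the type of flags `(p, i, j)` with `i ≠ j`, `p ∈ sph i ∩ sph j`, `p ∈ frontier F`.  For a
flag choose `(l, q, a)` by StNext and put `R (p, i, j) = (q, l, j)`, `α (p, i, j) = a`,
`sw (p, i, j) = (p, j, i)`, `th (p, i, j) = j`.  Facts: (i) `a` is determined by the flag: if `a, a'`
both satisfy `Seg` from `(p, i, j)` they have a common point (StLoc (3) gives a nonempty germ, whose
points near `p` lie in both), and both are components `arcAt j y`, so they are equal.
(ii) `R` is an involution: let `(p', i', a')` be the choice for `(q, l, j)`; `a` and `a'` both contain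
the germ at `q`, so `a' = a`, `{q, p'} = closure a ∖ a = {p, q}`, `p' = p` (as `p' ≠ q`), and `i' = i`
because no three circles have a common point.  (iii) `R f ≠ f` because `p ≠ q`.
(iv) if `α f = α f'`, `f = (p, i, j)`, `f' = (p', i', j')`: `j' = j` (a point of `a` is on one circle
only, as it is not in `X`), `p' ∈ {p, q}`, and the second circle is determined: `f' = f` or `f' = R f`.
`y ∈ frontier F ∖ X` exists since `arcs F` is not empty.  StStart: in the second alternative there is a
flag `f` whose arc is `arcAt j y`.  StOrb with `S = arcs F` gives `2 ≤ k ≤ 4`; put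
`f_t = (sw ∘ R)^[t] f = (p_t, i_t, j_t)`; `i_(t+1) = j_t`, `p_(t+1) = q_t`, `j_(t+1) = l_t`, periodic
with period `k`.  Walk: with `J t = i_t` (so `J (t+1) = j_t`, `J (t+2) = l_t = j_(t+1)`),
`P t = p_t`, `a (t+1) = α f_t` (and `a 0 = a k`).  `J t ∈ fac s` by StFace (6).
The arcs `a 1, ..., a k` are pairwise different, hence `a m ≠ a n` for `m < n < k` (periodicity). -/
def StWalk : Prop := ∀ (ι : Type) [Fintype ι] [DecidableEq ι] (A : Fam ι) (F : Set ℂ) (s : Finset ι),
  A.HasSign F s → (A.arcs F).ncard = 4 →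
    (∃ j y, y ∈ frontier F ∧ y ∈ A.sph j ∧ A.sph j ∩ A.X = ∅ ∧ A.sph j ⊆ frontier F) ∨
    ∃ (k : ℕ) (J : ℕ → ι) (P : ℕ → ℂ) (a : ℕ → Set ℂ), 2 ≤ k ∧ k ≤ 4 ∧ Walk A s k J P a ∧
      (∀ t, J t ∈ A.toPArr.fac s) ∧ (∀ m n, m < n → n < k → a m ≠ a n) ∧
      (∀ t, a t ⊆ frontier F ∧ a t ∈ A.arcs F)

/-- Module G5 (final).  Disjoint small components of the nerve for the quadrangular faces with sign
vector `s`.

PROOF (uses StWalk, StCls, StFace, StLoc, StArc, StPts).  For a quadrangular face `F` with sign vector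
`s` take StWalk.  First alternative: `C F = {j}`; `j ∈ fac s` (StFace (6)); no `n` is orthogonal to `j`
(StPts (2) would give a crossing point on `sph j`); every point of `sph j` is in `frontier F`.  Second
alternative: `C F = C` of StCls.  In all cases (+): for `i ∈ C F` and `y ∈ sph i` which is on the side
`s` of all facets `n ≠ i` we have `y ∈ frontier F`, `y ∉ X`; and there is a point `y ∈ sph i ∖ X`,
`y ∈ frontier F` for every `i ∈ C F` (a point of the arc `a t`, `j t = i`; arcs are nonempty).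
Disjointness: let `F'` be another such face and `i ∈ C F ∩ C F'`; take `y ∈ sph i ∖ X`,
`y ∈ frontier F`; by StFace (4) `y` is on the side `s` of all `n ≠ i`, so by (+) for `F'`
`y ∈ frontier F'`.  By StLoc (1) both `F` and `F'` contain the points near `y` on the side `s` of `i`,
which exist (StLoc, or: `y ∈ closure F`, points of `F` near `y` are on the side `s`), so `F ∩ F' ≠ ∅`
and `F = F'` (StFace (7)).
If `C F = fac s`: suppose we are in the first alternative or `k ≤ 3`.  `arcs F` has four elements, so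
there is a boundary arc different from `a 1, ..., a k` (resp. from `sph j`); let `y` be a point of it,
`y ∈ frontier F ∖ X`, `y ∈ sph n`, `n ∈ fac s = C F` (StFace (6)), `y` is on the side `s` of all
facets `≠ n` (StFace (4)), so `y ∈ a t` for some `t` (StCls) and the arc is `a t` (StArc: both are the
component at `y`), contradiction.  (First alternative: `n = j`, `y ∈ sph j`, the arc is `sph j`.) -/
def StG5 : Prop := ∀ (ι : Type) [Fintype ι] [DecidableEq ι] (A : Fam ι) (s : Finset ι), Good A →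
  ∃ C : Set ℂ → Finset ι, ∀ F, F ∈ A.quads → A.HasSign F s →
    (C F).Nonempty ∧ C F ⊆ A.toPArr.fac s ∧
    (∀ i ∈ C F, ∀ n ∈ A.toPArr.fac s, A.orth n i → n ∈ C F) ∧
    (Small A (C F) ∨ Quad A (C F)) ∧
    (C F = A.toPArr.fac s → Quad A (C F)) ∧
    (∀ F', F' ∈ A.quads → A.HasSign F' s → F' ≠ F → Disjoint (C F) (C F'))

/-! ### Module GOOD -/

/-- Module GOOD.  (May be superseded by helper15's version.)

PROOF.  For circles with centre `c` and radius `r` let `v = (Re c/r, Im c/r, (|c|² - r² - 1)/(2r),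
(|c|² - r² + 1)/(2r)) ∈ ℝ⁴` and `⟨v, v'⟩ = v₁v₁' + v₂v₂' + v₃v₃' - v₄v₄'`.  Then
`⟨v, v'⟩ = (r² + r'² - |c - c'|²)/(2 r r')`: it is `1` for `v = v'`, `0` for orthogonal circles, and of
absolute value `> 1` for non orthogonal different circles (`disj_cases`).  For any four vectors the Gram
determinant is `det (Vᵀ J V) = - (det V)² ≤ 0`.  Four pairwise orthogonal circles: Gram matrix `1`,
determinant `1 > 0`.  Induced four-cycle `i, j` | `a, b`: Gram determinant
`(1 - ⟨i,j⟩²) (1 - ⟨a,b⟩²) > 0`.  Both are contradictions. -/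
def StGood : Prop := ∀ (ι : Type) (A : Fam ι), Good A

/-- Module TR.  Translation of the final statement.

PROOF.  `ι = {C // C ∈ S}`, `c i = i.1.c`, `r i = i.1.r`; `pw`: for `i ≠ j` the circles are different;
if they are not disjoint they are orthogonal in the sense of `Circ.Orthogonal`, take a common point
`p` (`ncard = 2`), `‖c_i - c_j‖² = ‖(p - c_j) - (p - c_i)‖² = r_j² + r_i² - 2·0`.  The sets
`circUnion S = U`, `crossings S = X`, `arcs`, `quadFaces S = quads` coincide by unfolding. -/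
def StTr : Prop := ∀ S : Finset Circ, IsArrangement S → ∃ A : Fam {C // C ∈ S},
  quadFaces S = A.quads

end Pool.Agent.Helper56.OC
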