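import Mathlib
import Pool.Agent.Helper56.OC.St

/-!
# OC, module GOOD: every arrangement of orthogonal circles is good
-/

set_option autoImplicit false

open Set Metric

namespace Pool.Agent.Helper56.OC

open Fam

/-- four times the Lorentz product of the vectors of two circles -/
private noncomputable def lp_GOOD {ι : Type} (A : Fam ι) (i j : ι) : ℝ :=
  2 * (A.r i ^ 2 + A.r j ^ 2 - ‖A.c i - A.c j‖ ^ 2)

/-- the vector of a circle (times twice the radius) -/
private noncomputable def vec_GOOD {ι : Type} (A : Fam ι) (i : ι) : Fin 4 → ℝ :=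
  ![2 * (A.c i).re, 2 * (A.c i).im, (A.c i).re ^ 2 + (A.c i).im ^ 2 - A.r i ^ 2 - 1,
    (A.c i).re ^ 2 + (A.c i).im ^ 2 - A.r i ^ 2 + 1]

private theorem gram_GOOD {ι : Type} (A : Fam ι) (x : Fin 4 → ι) :
    (Matrix.of fun m n => lp_GOOD A (x m) (x n)).det ≤ 0 := by
  set V : Matrix (Fin 4) (Fin 4) ℝ := Matrix.of fun m n => vec_GOOD A (x m) n with hV
  have h1 : (Matrix.of fun m n => lp_GOOD A (x m) (x n)) =
      V * Matrix.diagonal ![1, 1, 1, -1] * V.transpose := by
    ext m n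
    have hn : ‖A.c (x m) - A.c (x n)‖ ^ 2 =
        ((A.c (x m)).re - (A.c (x n)).re) ^ 2 + ((A.c (x m)).im - (A.c (x n)).im) ^ 2 := by
      rw [← Complex.normSq_eq_norm_sq, Complex.normSq_apply, Complex.sub_re, Complex.sub_im]
      ring
    rw [Matrix.mul_apply, Fin.sum_univ_four]
    simp only [Matrix.mul_diagonal, Matrix.transpose_apply, Matrix.of_apply, hV, lp_GOOD, vec_GOOD,
      hn, Matrix.cons_val]
    ring
  rw [h1, Matrix.det_mul, Matrix.det_mul, Matrix.det_transpose, Matrix.det_diagonal,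
    Fin.prod_univ_four]
  simp only [Matrix.cons_val]
  nlinarith [sq_nonneg V.det]

private theorem lp_self_GOOD {ι : Type} (A : Fam ι) (i : ι) : lp_GOOD A i i = 4 * A.r i ^ 2 := by
  unfold lp_GOOD; rw [sub_self, norm_zero]; ring

private theorem lp_orth_GOOD {ι : Type} (A : Fam ι) {i j : ι} (h : A.orth i j) :
    lp_GOOD A i j = 0 := by
  unfold lp_GOOD; unfold orth at h; rw [h]; ring

private theorem lp_symm_GOOD {ι : Type} (A : Fam ι) (i j : ι) : lp_GOOD A i j = lp_GOOD A j i := by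
  unfold lp_GOOD; rw [norm_sub_rev]; ring

private theorem lp_disj_GOOD {ι : Type} (A : Fam ι) {i j : ι} (hij : i ≠ j)
    (h : ¬ A.orth i j) : (4 * A.r i * A.r j) ^ 2 < lp_GOOD A i j ^ 2 := by
  have h1 := A.pos i
  have h2 := A.pos j
  have h3 := norm_nonneg (A.c i - A.c j)
  unfold lp_GOOD
  rcases A.disj_cases hij h with h4 | h4 | h4
  · have e1 : 4 * A.r i * A.r j < 2 * (‖A.c i - A.c j‖ ^ 2 - A.r i ^ 2 - A.r j ^ 2) := by
      nlinarith
    have e2 : 0 < 4 * A.r i * A.r j := by positivity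
    nlinarith
  · have e1 : 4 * A.r i * A.r j < 2 * (A.r i ^ 2 + A.r j ^ 2 - ‖A.c i - A.c j‖ ^ 2) := by
      nlinarith
    have e2 : 0 < 4 * A.r i * A.r j := by positivity
    nlinarith
  · have e1 : 4 * A.r i * A.r j < 2 * (A.r i ^ 2 + A.r j ^ 2 - ‖A.c i - A.c j‖ ^ 2) := by
      nlinarith
    have e2 : 0 < 4 * A.r i * A.r j := by positivity
    nlinarith

theorem m_GOOD : StGood := by
  intro ι A
  constructor
  · intro i j k l hij hik hil hjk hjl hkl
    have h := gram_GOOD A ![i, j, k, l]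
    have e : (Matrix.of fun m n => lp_GOOD A (![i, j, k, l] m) (![i, j, k, l] n)) =
        Matrix.diagonal ![4 * A.r i ^ 2, 4 * A.r j ^ 2, 4 * A.r k ^ 2, 4 * A.r l ^ 2] := by
      ext m n
      fin_cases m <;> fin_cases n <;>
        simp [Matrix.diagonal, lp_self_GOOD, lp_orth_GOOD A hij, lp_orth_GOOD A hik,
          lp_orth_GOOD A hil, lp_orth_GOOD A hjk, lp_orth_GOOD A hjl, lp_orth_GOOD A hkl,
          lp_orth_GOOD A (A.orth_symm hij), lp_orth_GOOD A (A.orth_symm hik),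
          lp_orth_GOOD A (A.orth_symm hil), lp_orth_GOOD A (A.orth_symm hjk),
          lp_orth_GOOD A (A.orth_symm hjl), lp_orth_GOOD A (A.orth_symm hkl)]
    rw [e, Matrix.det_diagonal, Fin.prod_univ_four] at h
    simp only [Matrix.cons_val] at h
    have h1 := A.pos i
    have h2 := A.pos j
    have h3 := A.pos k
    have h4 := A.pos l
    have : 0 < 4 * A.r i ^ 2 * (4 * A.r j ^ 2) * (4 * A.r k ^ 2) * (4 * A.r l ^ 2) := by positivity
    linarith
  · intro i j a b hij hnij hab hia hib hja hjb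
    by_contra hnab
    have h := gram_GOOD A ![i, j, a, b]
    have e : (Matrix.of fun m n => lp_GOOD A (![i, j, a, b] m) (![i, j, a, b] n)) =
        !![4 * A.r i ^ 2, lp_GOOD A i j, 0, 0; lp_GOOD A i j, 4 * A.r j ^ 2, 0, 0;
          0, 0, 4 * A.r a ^ 2, lp_GOOD A a b; 0, 0, lp_GOOD A a b, 4 * A.r b ^ 2] := by
      ext m n
      fin_cases m <;> fin_cases n <;>
        simp [lp_self_GOOD, lp_orth_GOOD A hia, lp_orth_GOOD A hib,
          lp_orth_GOOD A hja, lp_orth_GOOD A hjb, lp_orth_GOOD A (A.orth_symm hia),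
          lp_orth_GOOD A (A.orth_symm hib), lp_orth_GOOD A (A.orth_symm hja),
          lp_orth_GOOD A (A.orth_symm hjb), lp_symm_GOOD A j i, lp_symm_GOOD A b a]
    rw [e] at h
    have hd : (!![4 * A.r i ^ 2, lp_GOOD A i j, 0, 0; lp_GOOD A i j, 4 * A.r j ^ 2, 0, 0;
          0, 0, 4 * A.r a ^ 2, lp_GOOD A a b; 0, 0, lp_GOOD A a b, 4 * A.r b ^ 2] :
          Matrix (Fin 4) (Fin 4) ℝ).det =
        (lp_GOOD A i j ^ 2 - (4 * A.r i * A.r j) ^ 2) *
          (lp_GOOD A a b ^ 2 - (4 * A.r a * A.r b) ^ 2) := by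
      simp [Matrix.det_succ_row_zero, Fin.sum_univ_succ, Fin.succAbove]
      ring
    rw [hd] at h
    have h1 := lp_disj_GOOD A hij hnij
    have h2 := lp_disj_GOOD A hab hnab
    have := mul_pos (sub_pos.2 h1) (sub_pos.2 h2)
    linarith

end Pool.Agent.Helper56.OC
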