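import Mathlib
import Pool.Agent.Helper56.OC.St

set_option autoImplicit false

open Set Metric

namespace Pool.Agent.Helper56.OC

open Fam

private theorem inner_PTS (x y : ℂ) : inner ℝ x y = x.re * y.re + x.im * y.im := by
  rw [Complex.inner, Complex.mul_re, Complex.conj_re, Complex.conj_im]
  ring

private theorem one_PTS (ι : Type) (A : Fam ι) (i j : ι) (hij : i ≠ j) (p : ℂ) (hi : p ∈ A.sph i)
    (hj : p ∈ A.sph j) : A.orth i j ∧ inner ℝ (p - A.c i) (p - A.c j) = 0 := by
  have ho : A.orth i j := by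
    rcases A.pw i j hij with h | h
    · exact absurd hj (Set.disjoint_left.1 h hi)
    · exact h
  refine ⟨ho, ?_⟩
  have h1 : ‖p - A.c i‖ = A.r i := by
    unfold sph at hi; rwa [mem_sphere_iff_norm] at hi
  have h2 : ‖p - A.c j‖ = A.r j := by
    unfold sph at hj; rwa [mem_sphere_iff_norm] at hj
  unfold orth at ho
  have h3 : A.c i - A.c j = (p - A.c j) - (p - A.c i) := by ring
  have h4 := @norm_sub_sq_real ℂ _ _ (p - A.c j) (p - A.c i)
  rw [← h3, ho, h1, h2, real_inner_comm] at h4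
  linarith

private theorem two_PTS (ι : Type) (A : Fam ι) (i j : ι) (hor : A.orth i j) :
    ∃ p q, p ≠ q ∧ A.sph i ∩ A.sph j = {p, q} := by
  have hri := A.pos i
  have hrk := A.pos j
  unfold orth at hor
  set d := ‖A.c i - A.c j‖ with hd
  have hd0 : 0 < d := by
    have h0 : 0 ≤ d := norm_nonneg _
    rcases eq_or_lt_of_le h0 with h | h
    · rw [← h] at hor; nlinarith
    · exact h
  set u : ℂ := (A.c j - A.c i) / d with hu
  have hun : ‖u‖ = 1 := by
    rw [hu, norm_div, norm_sub_rev, ← hd, Complex.norm_real, Real.norm_eq_abs,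
      abs_of_pos hd0, div_self hd0.ne']
  have hu0 : u ≠ 0 := by
    intro h; rw [h, norm_zero] at hun; exact zero_ne_one hun
  set a : ℝ := A.r i ^ 2 / d with ha
  set b : ℝ := A.r i * A.r j / d with hb
  have hb0 : 0 < b := by rw [hb]; positivity
  have hab : a ^ 2 + b ^ 2 = A.r i ^ 2 := by
    rw [ha, hb]; field_simp; nlinarith [hor]
  have had : d * a = A.r i ^ 2 := by rw [ha]; field_simp
  have hab2 : (a - d) ^ 2 + b ^ 2 = A.r j ^ 2 := by
    nlinarith [hab, hor, had]
  have hcu : A.c i - A.c j = - (u * d) := by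
    rw [hu, div_mul_cancel₀ _ (by exact_mod_cast hd0.ne')]; ring
  -- membership in terms of w
  have key : ∀ s t : ℝ, (A.c i + u * (s + t * Complex.I) ∈ A.sph i ↔ s ^ 2 + t ^ 2 = A.r i ^ 2) ∧
      (A.c i + u * (s + t * Complex.I) ∈ A.sph j ↔ (s - d) ^ 2 + t ^ 2 = A.r j ^ 2) := by
    intro s t
    have hn : ∀ s t : ℝ, ‖u * (s + t * Complex.I)‖ ^ 2 = s ^ 2 + t ^ 2 := by
      intro s t
      rw [norm_mul, hun, one_mul, ← Complex.normSq_eq_norm_sq, Complex.normSq_add_mul_I]
    constructor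
    · unfold sph
      rw [mem_sphere_iff_norm, add_sub_cancel_left, ← hn s t]
      exact (pow_left_inj₀ (norm_nonneg _) hri.le two_ne_zero).symm
    · unfold sph
      have e : A.c i + u * (s + t * Complex.I) - A.c j =
          u * (((s - d : ℝ) : ℂ) + t * Complex.I) := by
        have : A.c i + u * (s + t * Complex.I) - A.c j =
          (A.c i - A.c j) + u * (s + t * Complex.I) := by ring
        rw [this, hcu]; push_cast; ring
      rw [mem_sphere_iff_norm, e, ← hn (s - d) t]
      exact (pow_left_inj₀ (norm_nonneg _) hrk.le two_ne_zero).symm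
  refine ⟨A.c i + u * (a + b * Complex.I), A.c i + u * (a + ((-b : ℝ) : ℂ) * Complex.I), ?_, ?_⟩
  · intro h
    have h1 := mul_left_cancel₀ hu0 (add_left_cancel h)
    have h2 := congrArg Complex.im h1
    simp at h2
    linarith
  · ext z
    simp only [mem_inter_iff, mem_insert_iff, mem_singleton_iff]
    constructor
    · rintro ⟨h1, h2⟩
      obtain ⟨s, t, rfl⟩ : ∃ s t : ℝ, z = A.c i + u * (s + t * Complex.I) := by
        refine ⟨((z - A.c i) / u).re, ((z - A.c i) / u).im, ?_⟩
        rw [Complex.re_add_im, mul_div_cancel₀ _ hu0]; ring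
      have h3 := (key s t).1.1 h1
      have h4 := (key s t).2.1 h2
      have h5 : d * (s - a) = 0 := by nlinarith
      have h6 : s = a := by
        rcases mul_eq_zero.1 h5 with h | h
        · exact absurd h hd0.ne'
        · linarith
      subst h6
      have h7 : t ^ 2 = b ^ 2 := by linarith
      rcases sq_eq_sq_iff_eq_or_eq_neg.1 h7 with h | h
      · left; rw [h]
      · right; rw [h]
    · rintro (rfl | rfl)
      · exact ⟨(key a b).1.2 hab, (key a b).2.2 hab2⟩
      · refine ⟨(key a (-b)).1.2 ?_, (key a (-b)).2.2 ?_⟩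
        · rw [neg_sq]; exact hab
        · rw [neg_sq]; exact hab2

theorem m_PTS : StPts := by
  intro ι A
  refine ⟨fun i j hij p hi hj => one_PTS ι A i j hij p hi hj,
    fun i j h => two_PTS ι A i j h, ?_⟩
  intro i j n hij hin hjn p hi hj hn
  have h1 := (one_PTS ι A i j hij p hi hj).2
  have h2 := (one_PTS ι A i n hin p hi hn).2
  have h3 := (one_PTS ι A j n hjn p hj hn).2
  have hne : ∀ k, p ∈ A.sph k → 0 < (p - A.c k).re ^ 2 + (p - A.c k).im ^ 2 := by
    intro k hk
    unfold sph at hk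
    rw [mem_sphere_iff_norm] at hk
    have h4 : ‖p - A.c k‖ ^ 2 = (p - A.c k).re ^ 2 + (p - A.c k).im ^ 2 := by
      rw [← Complex.normSq_eq_norm_sq, Complex.normSq_apply]; ring
    rw [← h4, hk]
    have := A.pos k
    positivity
  have ni := hne i hi
  have nj := hne j hj
  have nn := hne n hn
  rw [inner_PTS] at h1 h2 h3
  set x1 := (p - A.c i).re
  set x2 := (p - A.c i).im
  set y1 := (p - A.c j).re
  set y2 := (p - A.c j).im
  set z1 := (p - A.c n).re
  set z2 := (p - A.c n).im
  have e1 : (x1 * y2 - x2 * y1) * (x1 * z2 - x2 * z1) = 0 := by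
    have : (x1 ^ 2 + x2 ^ 2) * (y1 * z1 + y2 * z2) =
      (x1 * y1 + x2 * y2) * (x1 * z1 + x2 * z2) + (x1 * y2 - x2 * y1) * (x1 * z2 - x2 * z1) := by ring
    rw [h1, h2, h3] at this
    linarith
  have e2 : (x1 ^ 2 + x2 ^ 2) * (y1 ^ 2 + y2 ^ 2) = (x1 * y1 + x2 * y2) ^ 2 + (x1 * y2 - x2 * y1) ^ 2 := by
    ring
  have e3 : (x1 ^ 2 + x2 ^ 2) * (z1 ^ 2 + z2 ^ 2) = (x1 * z1 + x2 * z2) ^ 2 + (x1 * z2 - x2 * z1) ^ 2 := by
    ring
  have p2 := mul_pos ni nj
  have p3 := mul_pos ni nn
  rcases mul_eq_zero.1 e1 with h | h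
  · rw [h1, h] at e2; rw [e2] at p2; norm_num at p2
  · rw [h2, h] at e3; rw [e3] at p3; norm_num at p3

end Pool.Agent.Helper56.OC
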