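import Mathlib
import Pool.Agent.Helper56.OC.St

/-!
# Module ARC: boundary arcs are arcs of circles
-/

set_option autoImplicit false

open Set Metric

namespace Pool.Agent.Helper56.OC

open Fam

theorem m_ARC (_hP : StPts) (hF : StFace) (hL : StLoc) : StArc := by
  intro ι _ _ A F s hs j y hyj hyX hyF
  have hFU : frontier F ⊆ A.U := ((hF ι A).2 F s hs).2.1
  have hloc := (hL ι A F s hs).1
  have hclosed : ∀ k, IsClosed (A.sph k) := fun k => isClosed_sphere
  have hyZ : y ∈ A.arcAt j y := mem_connectedComponentIn ⟨hyj, hyX⟩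
  have hZsub : A.arcAt j y ⊆ A.sph j \ A.X := connectedComponentIn_subset _ _
  have hZpre : IsPreconnected (A.arcAt j y) := isPreconnected_connectedComponentIn
  -- (a)
  have ha : A.arcAt j y ⊆ frontier F := by
    let u : Set ℂ := {z | ∃ N : Set ℂ, IsOpen N ∧ z ∈ N ∧ ∀ w ∈ N, w ∈ A.sph j → w ∈ frontier F}
    have hu : IsOpen u := by
      rw [isOpen_iff_mem_nhds]
      rintro z ⟨N, hN, hz, h⟩
      exact Filter.mem_of_superset (hN.mem_nhds hz) (fun w hw => ⟨N, hN, hw, h⟩)
    have hv : IsOpen (frontier F)ᶜ := isClosed_frontier.isOpen_compl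
    have hcov : A.arcAt j y ⊆ u ∪ (frontier F)ᶜ := by
      intro z hz
      by_cases hzF : z ∈ frontier F
      · left
        obtain ⟨N, hN, -, h2⟩ := hloc j z (hZsub hz).1 (hZsub hz).2 hzF
        obtain ⟨N', hN'N, hN'o, hzN'⟩ := _root_.mem_nhds_iff.1 hN
        exact ⟨N', hN'o, hzN', fun w hw hwj => h2 w (hN'N hw) hwj⟩
      · right; exact hzF
    have hdis : A.arcAt j y ∩ (u ∩ (frontier F)ᶜ) = ∅ := by
      rw [eq_empty_iff_forall_notMem]
      rintro z ⟨hz, ⟨N, -, hzN, h⟩, hzF⟩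
      exact hzF (h z hzN (hZsub hz).1)
    rcases isPreconnected_iff_subset_of_disjoint.1 hZpre u _ hu hv hcov hdis with h | h
    · intro z hz
      obtain ⟨N, -, hzN, h'⟩ := h hz
      exact h' z hzN (hZsub hz).1
    · exact absurd hyF (h hyZ)
  refine ⟨ha, ?_⟩
  -- (b)
  have hyFX : y ∈ frontier F \ A.X := ⟨hyF, hyX⟩
  have hyZ' : y ∈ connectedComponentIn (frontier F \ A.X) y := mem_connectedComponentIn hyFX
  have hZ'sub : connectedComponentIn (frontier F \ A.X) y ⊆ frontier F \ A.X :=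
    connectedComponentIn_subset _ _
  have hZ'pre : IsPreconnected (connectedComponentIn (frontier F \ A.X) y) :=
    isPreconnected_connectedComponentIn
  apply Subset.antisymm
  · exact hZpre.subset_connectedComponentIn hyZ (fun z hz => ⟨ha hz, (hZsub hz).2⟩)
  · refine hZ'pre.subset_connectedComponentIn hyZ' ?_
    let C₂ : Set ℂ := ⋃ k ∈ {k : ι | k ≠ j}, A.sph k
    have hC₂ : IsClosed C₂ :=
      (Set.toFinite {k : ι | k ≠ j}).isClosed_biUnion (fun k _ => hclosed k)
    have hcov : connectedComponentIn (frontier F \ A.X) y ⊆ C₂ᶜ ∪ (A.sph j)ᶜ := by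
      intro z hz
      by_cases hzj : z ∈ A.sph j
      · left
        intro hz2
        obtain ⟨k, hk, hzk⟩ := mem_iUnion₂.1 hz2
        exact (hZ'sub hz).2 ⟨k, j, hk, hzk, hzj⟩
      · right; exact hzj
    have hmem : ∀ z ∈ connectedComponentIn (frontier F \ A.X) y, z ∉ C₂ → z ∈ A.sph j := by
      intro z hz hz2
      obtain ⟨k, hk⟩ := mem_iUnion.1 (hFU (hZ'sub hz).1)
      by_cases hkj : k = j
      · rwa [hkj] at hk
      · exact absurd (mem_iUnion₂.2 ⟨k, hkj, hk⟩) hz2
    have hdis : connectedComponentIn (frontier F \ A.X) y ∩ (C₂ᶜ ∩ (A.sph j)ᶜ) = ∅ := by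
      rw [eq_empty_iff_forall_notMem]
      rintro z ⟨hz, hz2, hzj⟩
      exact hzj (hmem z hz hz2)
    rcases isPreconnected_iff_subset_of_disjoint.1 hZ'pre _ _ hC₂.isOpen_compl
      (hclosed j).isOpen_compl hcov hdis with h | h
    · intro z hz
      exact ⟨hmem z hz (h hz), (hZ'sub hz).2⟩
    · exact absurd hyj (h hyZ')

end Pool.Agent.Helper56.OC
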