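import Mathlib
import Pool.Agent.Helper56.OC.St

/-!
Module BOX: local coordinates at a crossing point.
-/

set_option autoImplicit false

open Set Metric

namespace Pool.Agent.Helper56.OC

open Fam

private theorem inj_BOX (a b : ℂ) (ha : a ≠ 0) (hb : b ≠ 0) (hab : inner ℝ a b = 0) (v : ℂ)
    (h1 : inner ℝ a v = 0) (h2 : inner ℝ b v = 0) : v = 0 := by
  rw [Complex.inner] at hab h1 h2
  simp only [Complex.mul_re, Complex.conj_re, Complex.conj_im] at hab h1 h2
  have ha2 : 0 < a.re ^ 2 + a.im ^ 2 := by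
    have : 0 < Complex.normSq a := Complex.normSq_pos.2 ha
    rw [Complex.normSq_apply] at this
    nlinarith
  have hb2 : 0 < b.re ^ 2 + b.im ^ 2 := by
    have : 0 < Complex.normSq b := Complex.normSq_pos.2 hb
    rw [Complex.normSq_apply] at this
    nlinarith
  have hd : a.re * b.im - a.im * b.re ≠ 0 := by
    intro h0
    have h3 : (a.re ^ 2 + a.im ^ 2) * (b.re ^ 2 + b.im ^ 2) = 0 := by
      linear_combination (a.re * b.re + a.im * b.im) * hab + (a.re * b.im - a.im * b.re) * h0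
    have := mul_pos ha2 hb2
    linarith
  have hre : v.re * (a.re * b.im - a.im * b.re) = 0 := by
    linear_combination b.im * h1 - a.im * h2
  have him : v.im * (a.re * b.im - a.im * b.re) = 0 := by
    linear_combination (-b.re) * h1 + a.re * h2
  apply Complex.ext
  · simpa using (mul_eq_zero.1 hre).resolve_right hd
  · simpa using (mul_eq_zero.1 him).resolve_right hd

theorem m_BOX : StBox := by
  intro c c' p r r' hr hr' hpc hpc' horth W hW
  have ha : p - c ≠ 0 := by
    intro h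
    rw [h, norm_zero] at hpc
    linarith
  have hb : p - c' ≠ 0 := by
    intro h
    rw [h, norm_zero] at hpc'
    linarith
  let f : ℂ → ℝ × ℝ := fun x => (‖x - c‖ ^ 2 - r ^ 2, ‖x - c'‖ ^ 2 - r' ^ 2)
  have hd1 : ∀ (d : ℂ) (s : ℝ), HasStrictFDerivAt (fun x : ℂ => ‖x - d‖ ^ 2 - s ^ 2)
      (2 • innerSL ℝ (p - d)) p := by
    intro d s
    have h1 : HasStrictFDerivAt (fun x : ℂ => x - d) (ContinuousLinearMap.id ℝ ℂ) p :=
      (hasStrictFDerivAt_id p).sub_const d
    have h2 := (hasStrictFDerivAt_norm_sq (p - d)).comp p h1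
    rw [ContinuousLinearMap.comp_id] at h2
    exact h2.sub_const (s ^ 2)
  let f0 : ℂ →L[ℝ] ℝ × ℝ := (2 • innerSL ℝ (p - c)).prod (2 • innerSL ℝ (p - c'))
  have hf0 : HasStrictFDerivAt f f0 p := (hd1 c r).prodMk (hd1 c' r')
  have hinj : Function.Injective (f0 : ℂ →ₗ[ℝ] ℝ × ℝ) := by
    rw [← LinearMap.ker_eq_bot, LinearMap.ker_eq_bot']
    intro v hv
    have hv' : f0 v = 0 := hv
    have h1 : 2 * inner ℝ (p - c) v = 0 := by
      have h3 : (2 : ℕ) • (inner ℝ (p - c) v : ℝ) = 0 := congrArg Prod.fst hv'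
      rwa [nsmul_eq_mul, Nat.cast_ofNat] at h3
    have h2 : 2 * inner ℝ (p - c') v = 0 := by
      have h3 : (2 : ℕ) • (inner ℝ (p - c') v : ℝ) = 0 := congrArg Prod.snd hv'
      rwa [nsmul_eq_mul, Nat.cast_ofNat] at h3
    exact inj_BOX _ _ ha hb horth v (by linarith) (by linarith)
  have hdim : Module.finrank ℝ ℂ = Module.finrank ℝ (ℝ × ℝ) := by
    rw [Complex.finrank_real_complex, Module.finrank_prod, Module.finrank_self]
  let L : ℂ ≃L[ℝ] ℝ × ℝ :=
    (LinearMap.linearEquivOfInjective (f0 : ℂ →ₗ[ℝ] ℝ × ℝ) hinj hdim).toContinuousLinearEquiv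
  have hL : (L : ℂ →L[ℝ] ℝ × ℝ) = f0 := by
    ext1 v
    rfl
  rw [← hL] at hf0
  let e := hf0.toOpenPartialHomeomorph f
  have hee : ∀ x, e x = f x := fun x => rfl
  have hfp : f p = (0, 0) := by
    simp only [f, hpc, hpc', sub_self]
  have hps : p ∈ e.source := hf0.mem_toOpenPartialHomeomorph_source
  have h0t : ((0, 0) : ℝ × ℝ) ∈ e.target := by
    rw [← hfp]
    exact e.map_source hps
  have hsymm : e.symm (0, 0) = p := by
    rw [← hfp, ← hee]
    exact e.left_inv hps
  have hO : IsOpen (e.target ∩ e.symm ⁻¹' (interior W)) :=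
    e.symm.continuousOn.isOpen_inter_preimage e.open_target isOpen_interior
  have h0O : ((0, 0) : ℝ × ℝ) ∈ e.target ∩ e.symm ⁻¹' (interior W) := by
    refine ⟨h0t, ?_⟩
    rw [mem_preimage, hsymm]
    exact mem_interior_iff_mem_nhds.2 hW
  obtain ⟨ε, hε, hball⟩ := Metric.isOpen_iff.1 hO _ h0O
  have hbox : Ioo (-ε) ε ×ˢ Ioo (-ε) ε = ball ((0, 0) : ℝ × ℝ) ε := by
    rw [← ball_prod_same, Real.ball_eq_Ioo, zero_sub, zero_add]
  have hsub : Ioo (-ε) ε ×ˢ Ioo (-ε) ε ⊆ e.target ∩ e.symm ⁻¹' (interior W) := by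
    rw [hbox]
    exact hball
  refine ⟨ε, hε, e.symm, ?_, hsymm, ?_, ?_, ?_⟩
  · exact e.symm.continuousOn.mono fun z hz => (hsub hz).1
  · intro z hz
    have h1 : f (e.symm z) = z := by
      rw [← hee]
      exact e.right_inv (hsub hz).1
    exact ⟨congrArg Prod.fst h1, congrArg Prod.snd h1⟩
  · refine e.symm.isOpen_image_of_subset_source (isOpen_Ioo.prod isOpen_Ioo) fun z hz => ?_
    exact (hsub hz).1
  · rintro _ ⟨z, hz, rfl⟩
    exact interior_subset (hsub hz).2

end Pool.Agent.Helper56.OC
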