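import Mathlib
import Pool.Agent.Helper56.OC.St

/-!
# Module CIRC: arcs of a circle
-/

set_option autoImplicit false

open Set Metric

namespace Pool.Agent.Helper56.OC

open Fam

/-- parametrization of the circle -/
noncomputable def gam_CIRC (c w : ℂ) (θ : ℝ) : ℂ := c + w * Complex.exp (θ * Complex.I)

theorem gam_cont_CIRC (c w : ℂ) : Continuous (gam_CIRC c w) := by
  unfold gam_CIRC
  fun_prop

theorem gam_inj_CIRC {c w : ℂ} (hw : w ≠ 0) {s t : ℝ} (h : gam_CIRC c w s = gam_CIRC c w t)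
    (h1 : s ≤ t) (h2 : t < s + 2 * Real.pi) : s = t := by
  unfold gam_CIRC at h
  have h3 := mul_left_cancel₀ hw (add_left_cancel h)
  rw [Complex.exp_eq_exp_iff_exists_int] at h3
  obtain ⟨n, hn⟩ := h3
  have h4 : (s : ℂ) = t + n * (2 * Real.pi) := by
    have h5 : (s : ℂ) * Complex.I = (t + n * (2 * Real.pi)) * Complex.I := by
      rw [hn]; ring
    exact mul_right_cancel₀ Complex.I_ne_zero h5
  have h6 : s = t + n * (2 * Real.pi) := by exact_mod_cast h4
  have hpi := Real.pi_pos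
  have h7 : n = 0 := by
    by_contra hne
    rcases lt_or_gt_of_ne hne with h8 | h8
    · have h9 : n ≤ -1 := by omega
      have h10 : (n : ℝ) ≤ -1 := by exact_mod_cast h9
      nlinarith
    · have h9 : 1 ≤ n := by omega
      have h10 : (1 : ℝ) ≤ n := by exact_mod_cast h9
      nlinarith
  rw [h7] at h6
  simpa using h6

theorem gam_mem_CIRC {c w : ℂ} {r : ℝ} (hw : ‖w‖ = r) (s : ℝ) : gam_CIRC c w s ∈ sphere c r := by
  unfold gam_CIRC
  rw [mem_sphere_iff_norm, add_sub_cancel_left, norm_mul, Complex.norm_exp_ofReal_mul_I, mul_one, hw]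

theorem gam_surj_CIRC {c w : ℂ} {r : ℝ} (hr : 0 < r) (hw : ‖w‖ = r) (u : ℝ) {y : ℂ}
    (hy : y ∈ sphere c r) : ∃ s ∈ Ico u (u + 2 * Real.pi), gam_CIRC c w s = y := by
  have hw0 : w ≠ 0 := by
    intro h; rw [h, norm_zero] at hw; exact hr.ne hw
  rw [mem_sphere_iff_norm] at hy
  have h1 : ‖(y - c) / w‖ = 1 := by rw [norm_div, hy, hw, div_self hr.ne']
  rw [Complex.norm_eq_one_iff] at h1
  obtain ⟨θ, hθ⟩ := h1
  refine ⟨toIcoMod Real.two_pi_pos u θ, toIcoMod_mem_Ico _ _ _, ?_⟩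
  unfold gam_CIRC
  have h2 : Complex.exp ((toIcoMod Real.two_pi_pos u θ : ℝ) * Complex.I)
      = Complex.exp (θ * Complex.I) := by
    rw [Complex.exp_eq_exp_iff_exists_int]
    refine ⟨-(toIcoDiv Real.two_pi_pos u θ), ?_⟩
    unfold toIcoMod
    rw [zsmul_eq_mul]
    push_cast
    ring
  rw [h2, hθ, mul_div_cancel₀ _ hw0]
  ring

theorem m_CIRC : StCirc := by
  intro c r hr P hPf hPs hPn y hy
  obtain ⟨p0, hp0⟩ := hPn.nonempty
  obtain ⟨p1, hp1, hp10⟩ := hPn.exists_ne p0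
  set w : ℂ := p0 - c with hwdef
  have hw : ‖w‖ = r := mem_sphere_iff_norm.1 (hPs hp0)
  have hw0 : w ≠ 0 := by
    intro h; rw [h, norm_zero] at hw; exact hr.ne hw
  set γ : ℝ → ℂ := gam_CIRC c w with hγ
  have hγc : Continuous γ := gam_cont_CIRC c w
  have hγ0 : γ 0 = p0 := by
    rw [hγ]; unfold gam_CIRC; simp [hwdef]
  have hpi := Real.pi_pos
  have hγ2 : γ (2 * Real.pi) = p0 := by
    rw [hγ]; unfold gam_CIRC
    push_cast
    rw [Complex.exp_two_pi_mul_I]; simp [hwdef]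
  have hinj : ∀ s t : ℝ, s < t → t < s + 2 * Real.pi → γ s ≠ γ t := by
    intro s t h1 h2 h3
    exact h1.ne (gam_inj_CIRC hw0 h3 h1.le h2)
  obtain ⟨t, ht, hty⟩ := gam_surj_CIRC hr hw 0 hy.1
  change γ t = y at hty
  rw [zero_add] at ht
  have hPcl : IsClosed (γ ⁻¹' P) := hPf.isClosed.preimage hγc
  -- the left end
  obtain ⟨u, hu⟩ : ∃ u, IsGreatest (Icc 0 t ∩ γ ⁻¹' P) u := by
    apply (isCompact_Icc.inter_right hPcl).exists_isGreatest
    exact ⟨0, ⟨le_refl _, ht.1⟩, by rw [mem_preimage, hγ0]; exact hp0⟩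
  obtain ⟨v, hv⟩ : ∃ v, IsLeast (Icc t (2 * Real.pi) ∩ γ ⁻¹' P) v := by
    apply (isCompact_Icc.inter_right hPcl).exists_isLeast
    exact ⟨2 * Real.pi, ⟨ht.2.le, le_refl _⟩, by rw [mem_preimage, hγ2]; exact hp0⟩
  have hut : u < t := by
    apply lt_of_le_of_ne hu.1.1.2
    rintro rfl
    exact hy.2 (hty ▸ hu.1.2)
  have htv : t < v := by
    apply lt_of_le_of_ne hv.1.1.1
    rintro rfl
    exact hy.2 (hty ▸ hv.1.2)
  have hu0 : 0 ≤ u := hu.1.1.1
  have hv2 : v ≤ 2 * Real.pi := hv.1.1.2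
  have hfree : ∀ θ ∈ Ioo u v, γ θ ∉ P := by
    intro θ hθ hP
    rcases le_total θ t with h | h
    · exact absurd (hu.2 ⟨⟨hu0.trans hθ.1.le, h⟩, hP⟩) (not_le.2 hθ.1)
    · exact absurd (hv.2 ⟨⟨h, hθ.2.le.trans hv2⟩, hP⟩) (not_le.2 hθ.2)
  have hvu : v < u + 2 * Real.pi := by
    by_contra hcon
    push Not at hcon
    have hu00 : u = 0 := by linarith
    have hv22 : v = 2 * Real.pi := by linarith
    obtain ⟨s, hs, hs1⟩ := gam_surj_CIRC hr hw 0 (hPs hp1)
    change γ s = p1 at hs1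
    rw [zero_add] at hs
    have hs0 : s ≠ 0 := by
      rintro rfl
      exact hp10 (by rw [← hs1, hγ0])
    exact hfree s ⟨by rw [hu00]; exact lt_of_le_of_ne hs.1 (Ne.symm hs0), by rw [hv22]; exact hs.2⟩
      (by rw [hs1]; exact hp1)
  have huv : u < v := hut.trans htv
  set a : Set ℂ := γ '' Ioo u v with ha
  set A : Set ℂ := γ '' Icc u v with hA
  set b : Set ℂ := γ '' Ioo v (u + 2 * Real.pi) with hb
  set B : Set ℂ := γ '' Icc v (u + 2 * Real.pi) with hB
  have hAc : IsClosed A := (isCompact_Icc.image hγc).isClosed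
  have hBc : IsClosed B := (isCompact_Icc.image hγc).isClosed
  have haA : a ⊆ A := image_mono Ioo_subset_Icc_self
  have hbB : b ⊆ B := image_mono Ioo_subset_Icc_self
  have haB : ∀ x ∈ a, x ∉ B := by
    rintro x ⟨s, hs, rfl⟩ ⟨s', hs', h⟩
    exact hinj s s' (by linarith [hs.2, hs'.1]) (by linarith [hs.1, hs'.2]) h.symm
  have hbA : ∀ x ∈ b, x ∉ A := by
    rintro x ⟨s, hs, rfl⟩ ⟨s', hs', h⟩
    exact hinj s' s (by linarith [hs.1, hs'.2]) (by linarith [hs.2, hs'.1]) h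
  have hcov : ∀ x ∈ sphere c r, x ≠ γ u → x ≠ γ v → x ∈ a ∨ x ∈ b := by
    intro x hx hxu hxv
    obtain ⟨s, hs, hsx⟩ := gam_surj_CIRC hr hw u hx
    change γ s = x at hsx
    have h1 : s ≠ u := by rintro rfl; exact hxu hsx.symm
    have h2 : s ≠ v := by rintro rfl; exact hxv hsx.symm
    rcases lt_or_gt_of_ne h2 with h3 | h3
    · left
      exact ⟨s, ⟨lt_of_le_of_ne hs.1 (Ne.symm h1), h3⟩, hsx⟩
    · right
      exact ⟨s, ⟨h3, hs.2⟩, hsx⟩
  have hstar : ∀ Z : Set ℂ, Z ⊆ sphere c r \ {γ u, γ v} → IsPreconnected Z → (Z ∩ a).Nonempty →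
      Z ⊆ a := by
    intro Z hZ hZp hZa
    by_contra hcon
    rw [not_subset] at hcon
    obtain ⟨x, hxZ, hxa⟩ := hcon
    have hab : ∀ x ∈ Z, x ∈ a ∨ x ∈ b := by
      intro x hx
      have h := hZ hx
      rw [mem_diff, mem_insert_iff, mem_singleton_iff, not_or] at h
      exact hcov x h.1 h.2.1 h.2.2
    obtain ⟨z, hzZ, hz1, hz2⟩ := hZp Bᶜ Aᶜ hBc.isOpen_compl hAc.isOpen_compl
      (fun x hx => by
        rcases hab x hx with h | h
        · exact Or.inl (haB x h)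
        · exact Or.inr (hbA x h))
      (by
        obtain ⟨z, hz, hz'⟩ := hZa
        exact ⟨z, hz, haB z hz'⟩)
      ⟨x, hxZ, hbA x ((hab x hxZ).resolve_left hxa)⟩
    rcases hab z hzZ with h | h
    · exact hz2 (haA h)
    · exact hz1 (hbB h)
  have hasub : a ⊆ sphere c r \ P := by
    rintro x ⟨s, hs, rfl⟩
    exact ⟨gam_mem_CIRC hw s, hfree s hs⟩
  have hya : y ∈ a := ⟨t, ⟨hut, htv⟩, hty⟩
  have hPu : γ u ∈ P := hu.1.2
  have hPv : γ v ∈ P := hv.1.2
  have hcomp : connectedComponentIn (sphere c r \ P) y = a := by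
    apply Subset.antisymm
    · apply hstar
      · intro x hx
        have h := connectedComponentIn_subset _ _ hx
        refine ⟨h.1, ?_⟩
        rw [mem_insert_iff, mem_singleton_iff]
        rintro (rfl | rfl)
        · exact h.2 hPu
        · exact h.2 hPv
      · exact isPreconnected_connectedComponentIn
      · exact ⟨y, mem_connectedComponentIn hy, hya⟩
    · exact (isPreconnected_Ioo.image γ hγc.continuousOn).subset_connectedComponentIn hya hasub
  refine ⟨γ u, hPu, γ v, hPv, hinj u v huv hvu, ?_, ?_⟩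
  · rw [hcomp]
    have hcl : closure a = A := by
      apply Subset.antisymm
      · exact closure_minimal haA hAc
      · rw [hA, ← closure_Ioo huv.ne]
        exact image_closure_subset_closure_image hγc
    rw [hcl]
    ext x
    rw [mem_diff, mem_insert_iff, mem_singleton_iff]
    constructor
    · rintro ⟨⟨s, hs, rfl⟩, hx⟩
      rcases eq_or_lt_of_le hs.1 with h | h
      · left; rw [h]
      · rcases eq_or_lt_of_le hs.2 with h' | h'
        · right; rw [h']
        · exact absurd ⟨s, ⟨h, h'⟩, rfl⟩ hx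
    · rintro (rfl | rfl)
      · refine ⟨⟨u, ⟨le_refl _, huv.le⟩, rfl⟩, ?_⟩
        rintro ⟨s, hs, h⟩
        exact hinj u s hs.1 (by linarith [hs.2]) h.symm
      · refine ⟨⟨v, ⟨huv.le, le_refl _⟩, rfl⟩, ?_⟩
        rintro ⟨s, hs, h⟩
        exact hinj s v hs.2 (by linarith [hs.1]) h
  · rw [hcomp]
    exact hstar

end Pool.Agent.Helper56.OC
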