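import Mathlib
import Pool.Agent.Helper56.OC.St

/-!
# Module CLS: classification of closed walks of length at most four
-/

set_option autoImplicit false

open Set Metric

namespace Pool.Agent.Helper56.OC

open Fam

theorem per_CLS {α : Type} {k : ℕ} {f : ℕ → α} (h : ∀ t, f (t + k) = f t) (t : ℕ) :
    f t = f (t % k) := by
  have key : ∀ q r : ℕ, f (r + k * q) = f r := by
    intro q r
    induction q with
    | zero => simp
    | succ q ih => rw [Nat.mul_succ, ← Nat.add_assoc, h, ih]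
  have h1 := key (t / k) (t % k)
  rwa [Nat.mod_add_div] at h1

theorem seg_sub_CLS {ι : Type} {A : Fam ι} {s : Finset ι} {i j l : ι} {p q : ℂ} {a : Set ℂ}
    (h : A.Seg s i j l p q a) : a ⊆ A.sph j \ A.X := by
  obtain ⟨y, -, rfl⟩ := h.harc
  exact connectedComponentIn_subset _ _

/-- the conclusion of `StCls` -/
def Cl_CLS {ι : Type} [Fintype ι] [DecidableEq ι] (A : Fam ι) (s : Finset ι) (k : ℕ) (j : ℕ → ι)
    (a : ℕ → Set ℂ) : Prop :=
  ∃ C : Finset ι, (∀ t, j t ∈ C) ∧ (∀ i ∈ C, ∃ t, j t = i) ∧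
    (∀ i ∈ C, ∀ n ∈ A.toPArr.fac s, A.orth n i → n ∈ C) ∧
    (∀ i ∈ C, ∀ y ∈ A.sph i, (∀ n ∈ A.toPArr.fac s, n ≠ i → A.OnS s n y) → ∃ t, y ∈ a t) ∧
    ((k ≤ 3 ∧ Small A C) ∨ (k = 4 ∧ Quad A C))

section four

variable {ι : Type} [Fintype ι] [DecidableEq ι] (A : Fam ι) (s : Finset ι)
  (j : ℕ → ι) (p : ℕ → ℂ) (a : ℕ → Set ℂ)

theorem shift_CLS (h : Walk A s 4 j p a) :
    Walk A s 4 (fun t => j (t + 1)) (fun t => p (t + 1)) (fun t => a (t + 1)) := by
  refine ⟨fun t => ?_, fun t => ?_⟩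
  · have := h.1 (t + 1)
    have e : t + 4 + 1 = t + 1 + 4 := by omega
    simp only [e]
    exact this
  · exact h.2 (t + 1)

theorem unshift_CLS (h : Walk A s 4 j p a)
    (hc : Cl_CLS A s 4 (fun t => j (t + 1)) (fun t => a (t + 1))) : Cl_CLS A s 4 j a := by
  obtain ⟨C, c1, c2, c3, c4, c5⟩ := hc
  refine ⟨C, fun t => ?_, fun i hi => ?_, c3, fun i hi y hy hn => ?_, c5⟩
  · have := c1 (t + 3)
    have e : j (t + 3 + 1) = j t := (h.1 t).1
    simp only [e] at this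
    exact this
  · obtain ⟨t, ht⟩ := c2 i hi
    exact ⟨t + 1, ht⟩
  · obtain ⟨t, ht⟩ := c4 i hi y hy hn
    exact ⟨t + 1, ht⟩

theorem mem4_CLS (h : Walk A s 4 j p a) (t : ℕ) : j t ∈ ({j 0, j 1, j 2, j 3} : Finset ι) := by
  have h1 := per_CLS (k := 4) (fun t => (h.1 t).1) t
  have h2 : t % 4 < 4 := Nat.mod_lt _ (by norm_num)
  rw [h1]
  simp only [Finset.mem_insert, Finset.mem_singleton]
  rcases (by omega : t % 4 = 0 ∨ t % 4 = 1 ∨ t % 4 = 2 ∨ t % 4 = 3) with h | h | h | h <;>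
    simp [h]

theorem exists4_CLS {i : ι} (hi : i ∈ ({j 0, j 1, j 2, j 3} : Finset ι)) : ∃ t, j t = i := by
  simp only [Finset.mem_insert, Finset.mem_singleton] at hi
  rcases hi with h | h | h | h
  · exact ⟨0, h.symm⟩
  · exact ⟨1, h.symm⟩
  · exact ⟨2, h.symm⟩
  · exact ⟨3, h.symm⟩

/-- case (b) -/
theorem caseb_CLS (hP : StPts) (h1 : StZ1) (h3 : StZ3) (h : Walk A s 4 j p a)
    (hf : ∀ t, j t ∈ A.toPArr.fac s) (h02 : j 2 = j 0) (h13 : j 1 ≠ j 3) : Cl_CLS A s 4 j a := by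
  have s0 := h.2 0
  have s1 := h.2 1
  have s2 := h.2 2
  have s3 := h.2 3
  simp only [Nat.reduceAdd] at s0 s1 s2 s3
  have e4 : j 4 = j 0 := (h.1 0).1
  have e5 : j 5 = j 1 := (h.1 1).1
  have p4 : p 4 = p 0 := (h.1 0).2.1
  have a4 : a 4 = a 0 := (h.1 0).2.2
  rw [e4, e5, p4, a4] at s3
  rw [e4] at s2
  rw [h02] at s0 s1 s2
  have z0 := h1 ι A s _ _ _ _ _ s0 (hf 0) (hf 1)
  have z2 := h1 ι A s _ _ _ _ _ s2 (hf 0) (hf 3)
  have o01 : A.orth (j 0) (j 1) := ((hP ι A).1 _ _ s0.hij _ s0.pi s0.pj).1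
  have o03 : A.orth (j 0) (j 3) := ((hP ι A).1 _ _ s2.hij _ s2.pi s2.pj).1
  have n13 : ¬ A.orth (j 1) (j 3) := fun ho => s0.hij (z2.2 _ (hf 1) ho).symm
  have z3 := h3 ι A s (j 0) (j 1) (j 3) _ _ _ _ _ _ s3 s1 s0.hpq s2.hpq.symm h13 n13 (hf 0) (hf 1)
    (hf 3) z0.2 z2.2
  have hC : ({j 0, j 1, j 2, j 3} : Finset ι) = {j 0, j 1, j 3} := by
    rw [h02]; ext x; simp only [Finset.mem_insert, Finset.mem_singleton]; tauto
  refine ⟨{j 0, j 1, j 2, j 3}, mem4_CLS A s j p a h, fun i hi => exists4_CLS j hi, ?_, ?_, ?_⟩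
  · rw [hC]
    intro i hi n hn ho
    simp only [Finset.mem_insert, Finset.mem_singleton] at hi ⊢
    rcases hi with rfl | rfl | rfl
    · rcases z3.2 n hn ho with h | h
      · exact Or.inr (Or.inl h)
      · exact Or.inr (Or.inr h)
    · exact Or.inl (z0.2 n hn ho)
    · exact Or.inl (z2.2 n hn ho)
  · rw [hC]
    intro i hi y hy hn
    simp only [Finset.mem_insert, Finset.mem_singleton] at hi
    rcases hi with rfl | rfl | rfl
    · rcases z3.1 y hy (hn _ (hf 1) s0.hij.symm) (hn _ (hf 3) s2.hij.symm) with h | h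
      · exact ⟨0, h⟩
      · exact ⟨2, h⟩
    · exact ⟨1, z0.1 y hy (hn _ (hf 0) s0.hij)⟩
    · exact ⟨3, z2.1 y hy (hn _ (hf 0) s2.hij)⟩
  · right
    refine ⟨rfl, Or.inl ⟨j 0, j 1, j 3, o01, o03, n13, h13, hC⟩⟩

/-- case (c) -/
theorem casec_CLS (hP : StPts) (h2 : StZ2) (h4 : StZ4) (hG : Good A) (h : Walk A s 4 j p a)
    (hf : ∀ t, j t ∈ A.toPArr.fac s) (h13 : j 1 ≠ j 3)
    (o02 : A.orth (j 0) (j 2)) (n13 : ¬ A.orth (j 1) (j 3)) : Cl_CLS A s 4 j a := by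
  have s0 := h.2 0
  have s1 := h.2 1
  have s2 := h.2 2
  have s3 := h.2 3
  simp only [Nat.reduceAdd] at s0 s1 s2 s3
  have e4 : j 4 = j 0 := (h.1 0).1
  have e5 : j 5 = j 1 := (h.1 1).1
  have p4 : p 4 = p 0 := (h.1 0).2.1
  have a4 : a 4 = a 0 := (h.1 0).2.2
  rw [e4, e5, p4, a4] at s3
  rw [e4] at s2
  have o01 : A.orth (j 0) (j 1) := ((hP ι A).1 _ _ s0.hij _ s0.pi s0.pj).1
  have o12 : A.orth (j 1) (j 2) := ((hP ι A).1 _ _ s1.hij _ s1.pi s1.pj).1
  have o23 : A.orth (j 2) (j 3) := ((hP ι A).1 _ _ s2.hij _ s2.pi s2.pj).1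
  have o30 : A.orth (j 3) (j 0) := ((hP ι A).1 _ _ s3.hij _ s3.pi s3.pj).1
  have z1 := h2 ι A s _ _ _ _ _ _ hG s0 o02 (hf 0) (hf 1) (hf 2)
  have z3 := h2 ι A s _ _ _ _ _ _ hG s2 (A.orth_symm o02) (hf 2) (hf 3) (hf 0)
  have z3' : ∀ n ∈ A.toPArr.fac s, A.orth n (j 3) → n = j 0 ∨ n = j 2 :=
    fun n hn ho => (z3.2 n hn ho).symm
  have z1' : ∀ n ∈ A.toPArr.fac s, A.orth n (j 1) → n = j 2 ∨ n = j 0 :=
    fun n hn ho => (z1.2 n hn ho).symm
  have z0 := h4 ι A s (j 0) (j 1) (j 3) (j 2) _ _ _ s3 (A.orth_symm o02) (A.orth_symm o12) o23 h13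
    n13 (hf 0) (hf 1) (hf 3) (hf 2) z1.2 z3'
  have z2 := h4 ι A s (j 2) (j 3) (j 1) (j 0) _ _ _ s1 o02 (A.orth_symm o30) o01 h13.symm
    (fun ho => n13 (A.orth_symm ho)) (hf 2) (hf 3) (hf 1) (hf 0) z3.2 z1'
  have d02 : j 0 ≠ j 2 := by
    intro he
    rw [he] at o02
    exact A.orth_irrefl _ o02
  refine ⟨{j 0, j 1, j 2, j 3}, mem4_CLS A s j p a h, fun i hi => exists4_CLS j hi, ?_, ?_, ?_⟩
  · intro i hi n hn ho
    simp only [Finset.mem_insert, Finset.mem_singleton] at hi ⊢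
    rcases hi with rfl | rfl | rfl | rfl
    · rcases z0.2 n hn ho with h | h | h <;> simp [h]
    · rcases z1.2 n hn ho with h | h <;> simp [h]
    · rcases z2.2 n hn ho with h | h | h <;> simp [h]
    · rcases z3.2 n hn ho with h | h <;> simp [h]
  · intro i hi y hy hn
    simp only [Finset.mem_insert, Finset.mem_singleton] at hi
    rcases hi with rfl | rfl | rfl | rfl
    · exact ⟨0, z0.1 y hy (hn _ (hf 1) s0.hij.symm) (hn _ (hf 3) s3.hij) (hn _ (hf 2) d02.symm)⟩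
    · exact ⟨1, z1.1 y hy (hn _ (hf 0) s0.hij) (hn _ (hf 2) s0.hlj)⟩
    · exact ⟨2, z2.1 y hy (hn _ (hf 3) s1.hlj) (hn _ (hf 1) s1.hij) (hn _ (hf 0) d02)⟩
    · exact ⟨3, z3.1 y hy (hn _ (hf 2) s2.hij) (hn _ (hf 0) s2.hlj)⟩
  · right
    exact ⟨rfl, Or.inr ⟨j 0, j 1, j 2, j 3, o02, o01, A.orth_symm o30, A.orth_symm o12, o23, n13,
      h13, rfl⟩⟩

end four

theorem m_CLS (hP : StPts) (h1 : StZ1) (h2 : StZ2) (h3 : StZ3) (h4 : StZ4) : StCls := by
  intro ι _ _ A s k j p a hG hk2 hk4 h hf ha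
  change Cl_CLS A s k j a
  rcases (by omega : k = 2 ∨ k = 3 ∨ k = 4) with rfl | rfl | rfl
  · -- k = 2
    have e2 : ∀ t, j (t + 2) = j t := fun t => (h.1 t).1
    have z : ∀ t, (∀ y ∈ A.sph (j (t + 1)), A.OnS s (j t) y → y ∈ a (t + 1)) ∧
        (∀ n ∈ A.toPArr.fac s, A.orth n (j (t + 1)) → n = j t) := by
      intro t
      have s0 := h.2 t
      rw [e2 t] at s0
      exact h1 ι A s _ _ _ _ _ s0 (hf t) (hf (t + 1))
    have s0 := h.2 0
    have o01 : A.orth (j 0) (j 1) := ((hP ι A).1 _ _ s0.hij _ s0.pi s0.pj).1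
    have s1 := h.2 1
    simp only [Nat.reduceAdd] at s0 s1
    have e20 : j 2 = j 0 := e2 0
    refine ⟨{j 0, j 1}, fun t => ?_, fun i hi => ?_, fun i hi n hn ho => ?_, fun i hi y hy hn => ?_,
      Or.inl ⟨by norm_num, Or.inr (Or.inl ⟨j 0, j 1, o01, rfl⟩)⟩⟩
    · have h5 := per_CLS (k := 2) e2 t
      rw [h5]
      rcases (by omega : t % 2 = 0 ∨ t % 2 = 1) with h | h <;> simp [h]
    · simp only [Finset.mem_insert, Finset.mem_singleton] at hi
      rcases hi with h | h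
      · exact ⟨0, h.symm⟩
      · exact ⟨1, h.symm⟩
    · simp only [Finset.mem_insert, Finset.mem_singleton] at hi ⊢
      rcases hi with rfl | rfl
      · have z1 := (z 1).2
        simp only [Nat.reduceAdd] at z1
        rw [e20] at z1
        exact Or.inr (z1 n hn ho)
      · exact Or.inl ((z 0).2 n hn ho)
    · simp only [Finset.mem_insert, Finset.mem_singleton] at hi
      rcases hi with rfl | rfl
      · have z1 := (z 1).1
        simp only [Nat.reduceAdd] at z1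
        rw [e20] at z1
        exact ⟨2, z1 y hy (hn _ (hf 1) s0.hij.symm)⟩
      · exact ⟨1, (z 0).1 y hy (hn _ (hf 0) s0.hij)⟩
  · -- k = 3
    have e3 : ∀ t, j (t + 3) = j t := fun t => (h.1 t).1
    have ho1 : ∀ t, A.orth (j t) (j (t + 1)) := fun t =>
      ((hP ι A).1 _ _ (h.2 t).hij _ (h.2 t).pi (h.2 t).pj).1
    have ho2 : ∀ t, A.orth (j t) (j (t + 2)) := by
      intro t
      have h5 := ho1 (t + 2)
      have h6 : j (t + 2 + 1) = j t := e3 t
      rw [h6] at h5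
      exact A.orth_symm h5
    have z : ∀ t, (∀ y ∈ A.sph (j (t + 1)), A.OnS s (j t) y → A.OnS s (j (t + 2)) y → y ∈ a (t + 1)) ∧
        (∀ n ∈ A.toPArr.fac s, A.orth n (j (t + 1)) → n = j t ∨ n = j (t + 2)) := by
      intro t
      exact h2 ι A s _ _ _ _ _ _ hG (h.2 t) (ho2 t) (hf t) (hf (t + 1)) (hf (t + 2))
    have hmem : ∀ t, j t ∈ ({j 0, j 1, j 2} : Finset ι) := by
      intro t
      have h5 := per_CLS (k := 3) e3 t
      rw [h5]
      rcases (by omega : t % 3 = 0 ∨ t % 3 = 1 ∨ t % 3 = 2) with h | h | h <;> simp [h]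
    have hex : ∀ i ∈ ({j 0, j 1, j 2} : Finset ι), ∃ t, j (t + 1) = i := by
      intro i hi
      simp only [Finset.mem_insert, Finset.mem_singleton] at hi
      rcases hi with h | h | h
      · exact ⟨2, by rw [h]; exact e3 0⟩
      · exact ⟨0, h.symm⟩
      · exact ⟨1, h.symm⟩
    refine ⟨{j 0, j 1, j 2}, hmem, fun i hi => ?_, fun i hi n hn ho => ?_, fun i hi y hy hn => ?_,
      Or.inl ⟨le_rfl, Or.inr (Or.inr ⟨j 0, j 1, j 2, ho1 0, ho2 0, ho1 1, rfl⟩)⟩⟩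
    · obtain ⟨t, ht⟩ := hex i hi
      exact ⟨t + 1, ht⟩
    · obtain ⟨t, rfl⟩ := hex i hi
      rcases (z t).2 n hn ho with h5 | h5
      · rw [h5]; exact hmem t
      · rw [h5]; exact hmem (t + 2)
    · obtain ⟨t, rfl⟩ := hex i hi
      exact ⟨t + 1, (z t).1 y hy (hn _ (hf t) (h.2 t).hij) (hn _ (hf (t + 2)) (h.2 t).hlj)⟩
  · -- k = 4
    have hsh := shift_CLS A s j p a h
    have hfs : ∀ t, j (t + 1) ∈ A.toPArr.fac s := fun t => hf (t + 1)
    by_cases d0 : j 2 = j 0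
    · by_cases d1 : j 1 = j 3
      · -- case (a)
        exfalso
        have s0 := h.2 0
        have s2 := h.2 2
        simp only [Nat.reduceAdd] at s0 s2
        have e4 : j 4 = j 0 := (h.1 0).1
        rw [e4, d0, ← d1] at s2
        rw [d0] at s0
        have z0 := h1 ι A s _ _ _ _ _ s0 (hf 0) (hf 1)
        have z2 := h1 ι A s _ _ _ _ _ s2 (hf 0) (hf 1)
        apply ha 1 3 (by norm_num) (by norm_num)
        apply Subset.antisymm
        · intro y hy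
          exact z2.1 y (seg_sub_CLS s0 hy).1 (s0.sa y hy _ s0.hij)
        · intro y hy
          exact z0.1 y (seg_sub_CLS s2 hy).1 (s2.sa y hy _ s2.hij)
      · exact caseb_CLS A s j p a hP h1 h3 h hf d0 d1
    · by_cases d1 : j 1 = j 3
      · -- case (b')
        apply unshift_CLS A s j p a h
        refine caseb_CLS A s _ _ _ hP h1 h3 hsh hfs d1.symm ?_
        have e4 : j 4 = j 0 := (h.1 0).1
        change j 2 ≠ j 4
        rw [e4]
        exact d0
      · -- case (c)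
        have s0 := h.2 0
        have s1 := h.2 1
        have s2 := h.2 2
        have s3 := h.2 3
        simp only [Nat.reduceAdd] at s0 s1 s2 s3
        have e4 : j 4 = j 0 := (h.1 0).1
        have o01 : A.orth (j 0) (j 1) := ((hP ι A).1 _ _ s0.hij _ s0.pi s0.pj).1
        have o12 : A.orth (j 1) (j 2) := ((hP ι A).1 _ _ s1.hij _ s1.pi s1.pj).1
        have o23 : A.orth (j 2) (j 3) := ((hP ι A).1 _ _ s2.hij _ s2.pi s2.pj).1
        have o30 : A.orth (j 3) (j 0) := by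
          have := ((hP ι A).1 _ _ s3.hij _ s3.pi s3.pj).1
          rwa [e4] at this
        by_cases o02 : A.orth (j 0) (j 2)
        · have n13 : ¬ A.orth (j 1) (j 3) := by
            intro o13
            exact hG.1 (j 0) (j 1) (j 2) (j 3) o01 o02 (A.orth_symm o30) o12 o13 o23
          exact casec_CLS A s j p a hP h2 h4 hG h hf d1 o02 n13
        · have o13 : A.orth (j 1) (j 3) :=
            hG.2 (j 0) (j 2) (j 1) (j 3) (fun he => d0 he.symm) o02 d1 o01 (A.orth_symm o30)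
              (A.orth_symm o12) o23
          apply unshift_CLS A s j p a h
          refine casec_CLS A s _ _ _ hP h2 h4 hG hsh hfs ?_ o13 ?_
          · change j 2 ≠ j 4
            rw [e4]
            exact d0
          · change ¬ A.orth (j 2) (j 4)
            rw [e4]
            exact fun ho => o02 (A.orth_symm ho)

end Pool.Agent.Helper56.OC
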