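import Mathlib
import Pool.Agent.Helper56.OC.St

set_option autoImplicit false

open Set Metric

namespace Pool.Agent.Helper56.OC

open Fam

section FACE

variable {ι : Type}

private theorem cont_FACE (A : Fam ι) (i : ι) : Continuous (A.g i) := by
  unfold Fam.g
  fun_prop

private theorem closed_FACE [Fintype ι] (A : Fam ι) : IsClosed A.U := by
  unfold Fam.U
  exact isClosed_iUnion_of_finite fun i => Metric.isClosed_sphere

private theorem ne_FACE (A : Fam ι) {x : ℂ} (hx : x ∈ A.Uᶜ) (i : ι) : A.g i x ≠ 0 := by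
  intro h
  exact hx (mem_iUnion.2 ⟨i, A.mem_sph.2 h⟩)

/-- the sign is constant on a connected set -/
private theorem sign_FACE (A : Fam ι) {F : Set ℂ} (hF : IsPreconnected F) (hU : F ⊆ A.Uᶜ)
    {p x : ℂ} (hp : p ∈ F) (hx : x ∈ F) (i : ι) (h : A.g i p < 0) : A.g i x < 0 := by
  by_contra hc
  rw [not_lt] at hc
  obtain ⟨z, hz, hz0⟩ := hF.intermediate_value hp hx (cont_FACE A i).continuousOn ⟨h.le, hc⟩
  exact ne_FACE A (hU hz) i hz0

end FACE

theorem m_FACE : StFace := by
  intro ι _ _ A
  have hclosed := closed_FACE A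
  have hopen : IsOpen A.Uᶜ := hclosed.isOpen_compl
  refine ⟨?_, ?_⟩
  · rintro F ⟨p, hp, rfl⟩
    have hsub := connectedComponentIn_subset A.Uᶜ p
    have hpre : IsPreconnected (connectedComponentIn A.Uᶜ p) := isPreconnected_connectedComponentIn
    have hpF : p ∈ connectedComponentIn A.Uᶜ p := mem_connectedComponentIn hp
    refine ⟨A.sgn p, ⟨p, hp, rfl⟩, fun x hx i => ⟨ne_FACE A (hsub hx) i, ?_⟩⟩
    unfold Fam.sgn
    rw [Finset.mem_filter]
    exact ⟨fun h => ⟨Finset.mem_univ _, sign_FACE A hpre hsub hx hpF i h⟩,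
      fun h => sign_FACE A hpre hsub hpF hx i h.2⟩
  · rintro F s ⟨⟨p, hp, hFp⟩, hs⟩
    have hsub : F ⊆ A.Uᶜ := by rw [hFp]; exact connectedComponentIn_subset _ _
    have hFo : IsOpen F := by rw [hFp]; exact hopen.connectedComponentIn
    have hFc : IsConnected F := by rw [hFp]; exact isConnected_connectedComponentIn_iff.2 hp
    have hpF : p ∈ F := by rw [hFp]; exact mem_connectedComponentIn hp
    have heq : ∀ z ∈ F, connectedComponentIn A.Uᶜ z = F := by
      intro z hz
      rw [hFp] at hz ⊢
      exact (connectedComponentIn_eq hz).symm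
    have h4 : ∀ x ∈ closure F, ∀ n, A.g n x ≠ 0 → A.OnS s n x := by
      intro x hx n hn
      refine ⟨hn, ?_⟩
      rcases lt_or_gt_of_ne hn with h | h
      · have ho : IsOpen {y | A.g n y < 0} := isOpen_lt (cont_FACE A n) continuous_const
        obtain ⟨y, hy1, hy2⟩ := mem_closure_iff.1 hx _ ho h
        exact ⟨fun _ => ((hs y hy2 n).2).1 hy1, fun _ => h⟩
      · have ho : IsOpen {y | 0 < A.g n y} := isOpen_lt continuous_const (cont_FACE A n)
        obtain ⟨y, hy1, hy2⟩ := mem_closure_iff.1 hx _ ho h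
        have hy1' : 0 < A.g n y := hy1
        refine ⟨fun h' => absurd h' (not_lt.2 h.le), fun h' => ?_⟩
        exact absurd (((hs y hy2 n).2).2 h') (not_lt.2 hy1'.le)
    refine ⟨⟨hFo, hFc, hsub⟩, ?_, ?_, h4, ?_, ?_, ?_⟩
    · intro x hx
      by_contra hxU
      have hxC : x ∈ A.Uᶜ := hxU
      have ho : IsOpen (connectedComponentIn A.Uᶜ x) := hopen.connectedComponentIn
      obtain ⟨y, hy1, hy2⟩ := mem_closure_iff.1 hx.1 _ ho (mem_connectedComponentIn hxC)
      have h1 := connectedComponentIn_eq hy1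
      have hxF : x ∈ F := by
        rw [← heq y hy2, ← h1]
        exact mem_connectedComponentIn hxC
      apply hx.2
      rw [hFo.interior_eq]
      exact hxF
    · rintro Z hZ hZp ⟨z, hz, hzF⟩
      rw [← heq z hzF]
      exact hZp.subset_connectedComponentIn hz hZ
    · rw [PArr.mem_cellsF]
      refine ⟨Finset.subset_univ _, ?_⟩
      intro i _ j _ hij hor
      rcases A.compat hij hor p with h | h
      · left
        change decide (i ∈ s) = A.side i j
        rw [Bool.eq_iff_iff, decide_eq_true_iff]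
        exact ((hs p hpF i).2).symm.trans h
      · right
        change decide (j ∈ s) = A.side j i
        rw [Bool.eq_iff_iff, decide_eq_true_iff]
        exact ((hs p hpF j).2).symm.trans h
    · intro x hx i hxi
      rw [PArr.mem_fac]
      intro j _ hji hor
      have h1 := A.side_spec hji (fun h => hor (A.orth_symm h)) hxi
      have h2 := h4 x hx.1 j h1.1
      change decide (j ∈ s) = A.side j i
      rw [Bool.eq_iff_iff, decide_eq_true_iff]
      exact h2.2.symm.trans h1.2
    · rintro F' ⟨q, hq, rfl⟩ ⟨z, hz, hz'⟩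
      rw [← heq z hz]
      exact (connectedComponentIn_eq hz').symm

end Pool.Agent.Helper56.OC
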