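import Mathlib
import Pool.Agent.Helper56.OC.St

/-!
# Module FACS
-/

set_option autoImplicit false

open Set Metric

namespace Pool.Agent.Helper56.OC

open Fam

theorem m_FACS : StFacs := by
  intro ι _ _ A s n n' _ hn' hne hno y hy
  have h1 := (A.toPArr.mem_fac).1 hn' n (Finset.mem_univ n) hne (fun h => hno (A.orth_symm h))
  have h2 := A.side_spec hne hno hy
  refine ⟨h2.1, h2.2.trans ?_⟩
  have h3 : decide (n ∈ s) = A.side n n' := h1
  rw [← h3, decide_eq_true_eq]

end Pool.Agent.Helper56.OC
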