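import Mathlib
import Pool.Agent.Helper56.OC.St

/-!
# Module G5: disjoint small components for the quadrangular faces
-/

set_option autoImplicit false

open Set Metric

namespace Pool.Agent.Helper56.OC

open Fam

/-- the data for one face -/
structure Ph_G5 {ι : Type} [Fintype ι] [DecidableEq ι] (A : Fam ι) (s : Finset ι) (F : Set ℂ)
    (C : Finset ι) : Prop where
  ne : C.Nonempty
  sub : C ⊆ A.toPArr.fac s
  cl : ∀ i ∈ C, ∀ n ∈ A.toPArr.fac s, A.orth n i → n ∈ C
  ty : Small A C ∨ Quad A C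
  full : C = A.toPArr.fac s → Quad A C
  plus : ∀ i ∈ C, ∀ y ∈ A.sph i, (∀ n ∈ A.toPArr.fac s, n ≠ i → A.OnS s n y) →
    y ∈ frontier F ∧ y ∉ A.X
  pt : ∀ i ∈ C, ∃ y ∈ A.sph i, y ∉ A.X ∧ y ∈ frontier F

theorem exists_sph_G5 {ι : Type} {A : Fam ι} {y : ℂ} (hy : y ∈ A.U) : ∃ i, y ∈ A.sph i := by
  simpa [Fam.U] using hy

theorem onS_G5 (hF : StFace) {ι : Type} [Fintype ι] [DecidableEq ι] {A : Fam ι} {F : Set ℂ}
    {s : Finset ι} (h : A.HasSign F s) {i : ι} {y : ℂ} (hy : y ∈ frontier F) (hX : y ∉ A.X)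
    (hi : y ∈ A.sph i) {n : ι} (hn : n ≠ i) : A.OnS s n y := by
  refine ((hF ι A).2 F s h).2.2.2.1 y (frontier_subset_closure hy) n ?_
  intro h0
  exact hX ⟨n, i, hn, A.mem_sph.2 h0, hi⟩

theorem main_G5 (hP : StPts) (hF : StFace) (hA : StArc) (hW : StWalk) (hC : StCls)
    {ι : Type} [Fintype ι] [DecidableEq ι] (A : Fam ι) (s : Finset ι) (hG : Good A) (F : Set ℂ)
    (hq : F ∈ A.quads) (h : A.HasSign F s) : ∃ C, Ph_G5 A s F C := by
  obtain ⟨hcon, hfr, h3, h4, h5, h6, h7⟩ := (hF ι A).2 F s h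
  have hcard : (A.arcs F).ncard = 4 := hq.2
  rcases hW ι A F s h hcard with ⟨j, y0, hy0F, hy0, hjX, hjF⟩ | ⟨k, J, P, a, hk2, hk4, hw, hJ, hne, haF⟩
  · -- a whole circle
    have hjf : j ∈ A.toPArr.fac s := h6 y0 hy0F j hy0
    have hnX : ∀ y ∈ A.sph j, y ∉ A.X := by
      intro y hy hX
      have : y ∈ A.sph j ∩ A.X := ⟨hy, hX⟩
      rw [hjX] at this
      exact this
    refine ⟨{j}, ⟨⟨j, by simp⟩, ?_, ?_, Or.inl (Or.inl ⟨j, rfl⟩), ?_, ?_, ?_⟩⟩
    · intro i hi
      rw [Finset.mem_singleton] at hi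
      rw [hi]; exact hjf
    · intro i hi n hn ho
      rw [Finset.mem_singleton] at hi
      subst hi
      exfalso
      obtain ⟨p, q, hpq, he⟩ := (hP ι A).2.1 n i ho
      have hp : p ∈ A.sph n ∩ A.sph i := by rw [he]; simp
      have hni : n ≠ i := by rintro rfl; exact A.orth_irrefl _ ho
      exact hnX p hp.2 ⟨n, i, hni, hp.1, hp.2⟩
    · intro hfull
      exfalso
      have hsub : A.arcs F ⊆ {A.sph j} := by
        rintro b ⟨y, hy, rfl⟩
        obtain ⟨n, hn⟩ := exists_sph_G5 (hfr hy.1)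
        have hnf := h6 y hy.1 n hn
        rw [← hfull, Finset.mem_singleton] at hnf
        subst hnf
        rw [mem_singleton_iff, ← (hA ι A F s h n y hn hy.2 hy.1).2]
        have hdiff : A.sph n \ A.X = A.sph n := by
          ext z
          exact ⟨fun hz => hz.1, fun hz => ⟨hz, hnX z hz⟩⟩
        unfold arcAt
        rw [hdiff]
        apply Subset.antisymm (connectedComponentIn_subset _ _)
        have hpre : IsPreconnected (A.sph n) := by
          apply isPreconnected_sphere
          rw [Complex.rank_real_complex]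
          exact Cardinal.one_lt_two
        exact hpre.subset_connectedComponentIn hn subset_rfl
      have h8 := ncard_le_ncard hsub (finite_singleton _)
      rw [ncard_singleton, hcard] at h8
      omega
    · intro i hi y hy _
      rw [Finset.mem_singleton] at hi
      subst hi
      exact ⟨hjF hy, hnX y hy⟩
    · intro i hi
      rw [Finset.mem_singleton] at hi
      subst hi
      exact ⟨y0, hy0, hnX y0 hy0, hy0F⟩
  · -- a walk
    obtain ⟨C, c1, c2, c3, c4, c5⟩ := hC ι A s k J P a hG hk2 hk4 hw hJ hne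
    have haX : ∀ t, ∀ y ∈ a t, y ∉ A.X := by
      intro t y hy
      obtain ⟨z, -, hz⟩ := (haF t).2
      rw [hz] at hy
      exact (connectedComponentIn_subset _ _ hy).2
    have hCf : C ⊆ A.toPArr.fac s := by
      intro i hi
      obtain ⟨t, rfl⟩ := c2 i hi
      exact hJ t
    refine ⟨C, ⟨⟨J 0, c1 0⟩, hCf, c3, ?_, ?_, ?_, ?_⟩⟩
    · rcases c5 with h8 | h8
      · exact Or.inl h8.2
      · exact Or.inr h8.2
    · intro hfull
      rcases c5 with h8 | h8
      · exfalso
        have hsub : A.arcs F ⊆ (Finset.range k).image a := by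
          rintro b ⟨y, hy, rfl⟩
          obtain ⟨n, hn⟩ := exists_sph_G5 (hfr hy.1)
          have hnf := h6 y hy.1 n hn
          rw [← hfull] at hnf
          obtain ⟨t, ht⟩ := c4 n hnf y hn (fun n' _ hne' => onS_G5 hF h hy.1 hy.2 hn hne')
          obtain ⟨z, -, hz⟩ := (haF t).2
          have hb : connectedComponentIn (frontier F \ A.X) y = a t := by
            rw [hz] at ht ⊢
            exact (connectedComponentIn_eq ht).symm
          rw [hb]
          -- reduce the index mod k
          have hper : ∀ q r : ℕ, a (r + k * q) = a r := by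
            intro q r
            induction q with
            | zero => simp
            | succ q ih => rw [Nat.mul_succ, ← Nat.add_assoc, (hw.1 _).2.2, ih]
          have h9 := hper (t / k) (t % k)
          rw [Nat.mod_add_div] at h9
          rw [h9]
          simp only [Finset.coe_image, Finset.coe_range]
          exact ⟨t % k, Nat.mod_lt _ (by omega), rfl⟩
        have h9 := ncard_le_ncard hsub (Finset.finite_toSet _)
        rw [ncard_coe_finset, hcard] at h9
        have h10 := (Finset.card_image_le (s := Finset.range k) (f := a))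
        rw [Finset.card_range] at h10
        omega
      · exact h8.2
    · intro i hi y hy hn
      obtain ⟨t, ht⟩ := c4 i hi y hy hn
      exact ⟨(haF t).1 ht, haX t y ht⟩
    · intro i hi
      obtain ⟨t, ht⟩ := c2 i hi
      have h8 : J (t + (k - 1) + 1) = i := by
        have e : t + (k - 1) + 1 = t + k := by omega
        rw [e, (hw.1 t).1, ht]
      have hseg := hw.2 (t + (k - 1))
      obtain ⟨y, hy, hy2⟩ := hseg.harc
      have hya : y ∈ a (t + (k - 1) + 1) := by
        rw [hy2]
        exact mem_connectedComponentIn hy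
      rw [h8] at hy
      exact ⟨y, hy.1, hy.2, (haF _).1 hya⟩

theorem m_G5 (hP : StPts) (hF : StFace) (hL : StLoc) (hA : StArc) (hW : StWalk) (hC : StCls) :
    StG5 := by
  classical
  intro ι _ _ A s hG
  have key : ∀ F : Set ℂ, ∃ C : Finset ι, F ∈ A.quads → A.HasSign F s → Ph_G5 A s F C := by
    intro F
    by_cases h1 : F ∈ A.quads
    · by_cases h2 : A.HasSign F s
      · obtain ⟨C, hC'⟩ := main_G5 hP hF hA hW hC A s hG F h1 h2
        exact ⟨C, fun _ _ => hC'⟩
      · exact ⟨∅, fun _ h => absurd h h2⟩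
    · exact ⟨∅, fun h => absurd h h1⟩
  choose C hCC using key
  refine ⟨C, fun F hq hs => ?_⟩
  have hF1 := hCC F hq hs
  refine ⟨hF1.ne, hF1.sub, hF1.cl, hF1.ty, hF1.full, fun F' hq' hs' hne => ?_⟩
  have hF2 := hCC F' hq' hs'
  rw [Finset.disjoint_left]
  intro i hi hi'
  obtain ⟨y, hy, hyX, hyF⟩ := hF1.pt i hi
  have hyF' : y ∈ frontier F' :=
    (hF2.plus i hi' y hy (fun n _ hn => onS_G5 hF hs hyF hyX hy hn)).1
  obtain ⟨N', hN', hsub', -⟩ := (hL ι A F' s hs').1 i y hy hyX hyF'
  -- a point of `F` near `y`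
  obtain ⟨z, hzN, hzF⟩ := mem_closure_iff_nhds.1 (frontier_subset_closure hyF) N' hN'
  have hz' : z ∈ F' := hsub' z hzN (hs.2 z hzF i)
  exact hne (((hF ι A).2 F s hs).2.2.2.2.2.2 F' hs'.1 ⟨z, hzF, hz'⟩).symm

end Pool.Agent.Helper56.OC
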