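import Mathlib
import Pool.Agent.Helper56.OC.St

set_option autoImplicit false

open Set Metric

namespace Pool.Agent.Helper56.OC

open Fam

/-- the half line with a given sign -/
private def hs_LOC (b : Prop) : Set ℝ := {t | t ≠ 0 ∧ (t < 0 ↔ b)}

private theorem hs_pos_LOC {b : Prop} (hb : b) : hs_LOC b = Iio 0 := by
  ext t
  simp only [hs_LOC, mem_ofPred_eq, mem_Iio]
  constructor
  · exact fun h => h.2.2 hb
  · exact fun h => ⟨h.ne, fun _ => hb, fun _ => h⟩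

private theorem hs_neg_LOC {b : Prop} (hb : ¬ b) : hs_LOC b = Ioi 0 := by
  ext t
  simp only [hs_LOC, mem_ofPred_eq, mem_Ioi]
  constructor
  · rintro ⟨h1, h2⟩
    have h3 : ¬ t < 0 := fun h => hb (h2.1 h)
    exact lt_of_le_of_ne (not_lt.1 h3) (Ne.symm h1)
  · exact fun h => ⟨h.ne', fun h' => absurd h' (not_lt.2 h.le), fun h' => absurd h' hb⟩

private theorem hs_convex_LOC (b : Prop) (ε : ℝ) : Convex ℝ (hs_LOC b ∩ Ioo (-ε) ε) := by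
  by_cases hb : b
  · rw [hs_pos_LOC hb]
    exact (convex_Iio 0).inter (convex_Ioo _ _)
  · rw [hs_neg_LOC hb]
    exact (convex_Ioi 0).inter (convex_Ioo _ _)

private theorem hs_closure_LOC (b : Prop) {ε : ℝ} (hε : 0 < ε) :
    (0 : ℝ) ∈ closure (hs_LOC b ∩ Ioo (-ε) ε) := by
  by_cases hb : b
  · rw [hs_pos_LOC hb]
    have h1 : Ioo (-ε) 0 ⊆ Iio 0 ∩ Ioo (-ε) ε := by
      rintro t ⟨h1, h2⟩
      exact ⟨h2, h1, h2.trans hε⟩
    refine closure_mono h1 ?_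
    rw [closure_Ioo (by linarith)]
    exact ⟨by linarith, le_refl _⟩
  · rw [hs_neg_LOC hb]
    have h1 : Ioo 0 ε ⊆ Ioi 0 ∩ Ioo (-ε) ε := by
      rintro t ⟨h1, h2⟩
      exact ⟨h1, by linarith, h2⟩
    refine closure_mono h1 ?_
    rw [closure_Ioo (by linarith)]
    exact ⟨le_refl _, by linarith⟩

private theorem onS_iff_LOC {ι : Type} (A : Fam ι) (s : Finset ι) (i : ι) (y : ℂ) :
    A.OnS s i y ↔ A.g i y ∈ hs_LOC (i ∈ s) := Iff.rfl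

private theorem nbhd_LOC {ι : Type} [Fintype ι] (A : Fam ι) (x : ℂ) :
    {y | ∀ n, x ∉ A.sph n → y ∉ A.sph n} ∈ nhds x := by
  have : ∀ᶠ y in nhds x, ∀ n, x ∉ A.sph n → y ∉ A.sph n := by
    rw [Filter.eventually_all]
    intro n
    by_cases h : x ∈ A.sph n
    · exact Filter.Eventually.of_forall fun y h' => absurd h h'
    · have h1 : (A.sph n)ᶜ ∈ nhds x := (isClosed_sphere.isOpen_compl).mem_nhds h
      filter_upwards [h1] with y hy _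
      exact hy
  exact this

private theorem clos_LOC {h : ℝ × ℝ → ℂ} {B R : Set (ℝ × ℝ)} (hc : ContinuousOn h B) (hR : R ⊆ B)
    {z : ℝ × ℝ} (hz : z ∈ B) (hz' : z ∈ closure R) : h z ∈ closure (h '' R) :=
  ((hc z hz).mono hR).mem_closure_image hz'

theorem m_LOC (hB : StBox) (hP : StPts) (hF : StFace) : StLoc := by
  intro ι _ _ A F s hFs
  obtain ⟨hP1, -, hP3⟩ := hP ι A
  obtain ⟨⟨hopen, hconn, hU⟩, -, hmax, -, -, -, -⟩ := (hF ι A).2 F s hFs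
  have hfr : frontier F = closure F \ F := hopen.frontier_eq
  -- the regions in the box of `x`
  have key : ∀ x : ℂ, x ∈ frontier F → ∀ (ε : ℝ) (h : ℝ × ℝ → ℂ),
      h (0, 0) = x → (0 < ε) →
      IsOpen (h '' (Ioo (-ε) ε ×ˢ Ioo (-ε) ε)) → ∀ R : Set (ℝ × ℝ), R ⊆ Ioo (-ε) ε ×ˢ Ioo (-ε) ε →
      ContinuousOn h (Ioo (-ε) ε ×ˢ Ioo (-ε) ε) → Convex ℝ R →
      (∀ z ∈ Ioo (-ε) ε ×ˢ Ioo (-ε) ε, h z ∈ F → z ∈ R) → (∀ z ∈ R, h z ∈ A.Uᶜ) →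
      h '' R ⊆ F := by
    intro x hx ε h h0 hε hop R hR hc hcv h1 h2
    have hx0 : x ∈ h '' (Ioo (-ε) ε ×ˢ Ioo (-ε) ε) :=
      ⟨(0, 0), ⟨⟨by simpa using hε, by simpa using hε⟩, ⟨by simpa using hε, by simpa using hε⟩⟩, h0⟩
    have hxc : x ∈ closure F := (hfr ▸ hx).1
    obtain ⟨y, ⟨z, hz, rfl⟩, hyF⟩ := mem_closure_iff.1 hxc _ hop hx0
    refine hmax (h '' R) ?_ ?_ ⟨h z, ⟨z, h1 z hz hyF, rfl⟩, hyF⟩
    · rintro _ ⟨z, hz, rfl⟩
      exact h2 z hz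
    · exact hcv.isPreconnected.image h (hc.mono hR)
  -- the box at a crossing point
  have box2 : ∀ i j x, i ≠ j → x ∈ A.sph i → x ∈ A.sph j → ∃ ε > (0 : ℝ), ∃ h : ℝ × ℝ → ℂ,
      ContinuousOn h (Ioo (-ε) ε ×ˢ Ioo (-ε) ε) ∧ h (0, 0) = x ∧
      (∀ z ∈ Ioo (-ε) ε ×ˢ Ioo (-ε) ε, A.g i (h z) = z.1 ∧ A.g j (h z) = z.2) ∧
      IsOpen (h '' (Ioo (-ε) ε ×ˢ Ioo (-ε) ε)) ∧
      (∀ z ∈ Ioo (-ε) ε ×ˢ Ioo (-ε) ε, ∀ n, n ≠ i → n ≠ j → h z ∉ A.sph n) := by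
    intro i j x hij hi hj
    obtain ⟨-, hin⟩ := hP1 i j hij x hi hj
    have hi' : ‖x - A.c i‖ = A.r i := mem_sphere_iff_norm.1 hi
    have hj' : ‖x - A.c j‖ = A.r j := mem_sphere_iff_norm.1 hj
    obtain ⟨ε, hε, h, hc, h0, hg, hop, hW⟩ :=
      hB (A.c i) (A.c j) x (A.r i) (A.r j) (A.pos i) (A.pos j) hi' hj' hin _ (nbhd_LOC A x)
    refine ⟨ε, hε, h, hc, h0, hg, hop, ?_⟩
    intro z hz n hni hnj
    exact hW ⟨z, hz, rfl⟩ n (hP3 i j n hij (Ne.symm hni) (Ne.symm hnj) x hi hj)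
  -- the quarter
  have quarter : ∀ i j x, x ∈ frontier F → ∀ (ε : ℝ) (h : ℝ × ℝ → ℂ), 0 < ε →
      ContinuousOn h (Ioo (-ε) ε ×ˢ Ioo (-ε) ε) → h (0, 0) = x →
      (∀ z ∈ Ioo (-ε) ε ×ˢ Ioo (-ε) ε, A.g i (h z) = z.1 ∧ A.g j (h z) = z.2) →
      IsOpen (h '' (Ioo (-ε) ε ×ˢ Ioo (-ε) ε)) →
      (∀ z ∈ Ioo (-ε) ε ×ˢ Ioo (-ε) ε, ∀ n, n ≠ i → n ≠ j → h z ∉ A.sph n) →
      h '' ((hs_LOC (i ∈ s) ∩ Ioo (-ε) ε) ×ˢ (hs_LOC (j ∈ s) ∩ Ioo (-ε) ε)) ⊆ F := by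
    intro i j x hx ε h hε hc h0 hg hop hn
    refine key x hx ε h h0 hε hop _ (prod_mono inter_subset_right inter_subset_right) hc
      ((hs_convex_LOC _ _).prod (hs_convex_LOC _ _)) ?_ ?_
    · intro z hz hzF
      obtain ⟨g1, g2⟩ := hg z hz
      refine ⟨⟨?_, hz.1⟩, ⟨?_, hz.2⟩⟩
      · have := hFs.2 _ hzF i
        rw [onS_iff_LOC, g1] at this
        exact this
      · have := hFs.2 _ hzF j
        rw [onS_iff_LOC, g2] at this
        exact this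
    · rintro z ⟨⟨hz1, hz2⟩, hz3, hz4⟩ hzU
      obtain ⟨g1, g2⟩ := hg z ⟨hz2, hz4⟩
      obtain ⟨n, hzn⟩ := mem_iUnion.1 hzU
      by_cases hni : n = i
      · subst hni
        rw [mem_sph, g1] at hzn
        exact hz1.1 hzn
      · by_cases hnj : n = j
        · subst hnj
          rw [mem_sph, g2] at hzn
          exact hz3.1 hzn
        · exact hn z ⟨hz2, hz4⟩ n hni hnj hzn
  refine ⟨?_, ?_, ?_⟩
  · intro i x hi hX hx
    have hi' : ‖x - A.c i‖ = A.r i := mem_sphere_iff_norm.1 hi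
    have hpos := A.pos i
    have hn1 : ‖x - (x + Complex.I * (x - A.c i))‖ = A.r i := by
      have : x - (x + Complex.I * (x - A.c i)) = -(Complex.I * (x - A.c i)) := by ring
      rw [this, norm_neg, norm_mul, Complex.norm_I, one_mul, hi']
    have hin : inner ℝ (x - A.c i) (x - (x + Complex.I * (x - A.c i))) = 0 := by
      have : x - (x + Complex.I * (x - A.c i)) = -(Complex.I * (x - A.c i)) := by ring
      rw [this, Complex.inner]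
      simp
      ring
    obtain ⟨ε, hε, h, hc, h0, hg, hop, hW⟩ :=
      hB (A.c i) (x + Complex.I * (x - A.c i)) x (A.r i) (A.r i) hpos hpos hi' hn1 hin _ (nbhd_LOC A x)
    have hg' : ∀ z ∈ Ioo (-ε) ε ×ˢ Ioo (-ε) ε, A.g i (h z) = z.1 := fun z hz => (hg z hz).1
    have hn : ∀ z ∈ Ioo (-ε) ε ×ˢ Ioo (-ε) ε, ∀ n, n ≠ i → h z ∉ A.sph n := by
      intro z hz n hni
      refine hW ⟨z, hz, rfl⟩ n ?_
      intro hxn
      exact hX ⟨n, i, hni, hxn, hi⟩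
    have hx0 : x ∈ h '' (Ioo (-ε) ε ×ˢ Ioo (-ε) ε) :=
      ⟨(0, 0), ⟨⟨by simpa using hε, by simpa using hε⟩, ⟨by simpa using hε, by simpa using hε⟩⟩, h0⟩
    have hsub : (hs_LOC (i ∈ s) ∩ Ioo (-ε) ε) ×ˢ Ioo (-ε) ε ⊆ Ioo (-ε) ε ×ˢ Ioo (-ε) ε :=
      prod_mono inter_subset_right subset_rfl
    have hhalf : h '' ((hs_LOC (i ∈ s) ∩ Ioo (-ε) ε) ×ˢ Ioo (-ε) ε) ⊆ F := by
      refine key x hx ε h h0 hε hop _ hsub hc
        ((hs_convex_LOC _ _).prod (convex_Ioo _ _)) ?_ ?_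
      · intro z hz hzF
        refine ⟨⟨?_, hz.1⟩, hz.2⟩
        have := hFs.2 _ hzF i
        rw [onS_iff_LOC, hg' z hz] at this
        exact this
      · rintro z ⟨⟨hz1, hz2⟩, hz3⟩ hzU
        obtain ⟨n, hzn⟩ := mem_iUnion.1 hzU
        by_cases hni : n = i
        · subst hni
          rw [mem_sph, hg' z ⟨hz2, hz3⟩] at hzn
          exact hz1.1 hzn
        · exact hn z ⟨hz2, hz3⟩ n hni hzn
    refine ⟨_, hop.mem_nhds hx0, ?_, ?_⟩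
    · rintro _ ⟨z, hz, rfl⟩ hy
      rw [onS_iff_LOC, hg' z hz] at hy
      exact hhalf ⟨z, ⟨⟨hy, hz.1⟩, hz.2⟩, rfl⟩
    · rintro _ ⟨z, hz, rfl⟩ hy
      have hz0 : z.1 = 0 := by rw [← hg' z hz]; exact (A.mem_sph).1 hy
      rw [hfr]
      refine ⟨?_, ?_⟩
      · refine closure_mono hhalf (clos_LOC hc hsub hz ?_)
        rw [closure_prod_eq]
        refine ⟨?_, subset_closure hz.2⟩
        rw [hz0]
        exact hs_closure_LOC _ hε
      · intro hyF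
        exact hU hyF (mem_iUnion.2 ⟨i, hy⟩)
  · intro i j x hij hi hj hx
    obtain ⟨ε, hε, h, hc, h0, hg, hop, hn⟩ := box2 i j x hij hi hj
    have hx0 : x ∈ h '' (Ioo (-ε) ε ×ˢ Ioo (-ε) ε) :=
      ⟨(0, 0), ⟨⟨by simpa using hε, by simpa using hε⟩, ⟨by simpa using hε, by simpa using hε⟩⟩, h0⟩
    refine ⟨_, hop.mem_nhds hx0, ?_⟩
    rintro _ ⟨z, hz, rfl⟩ hy1 hy2
    rw [onS_iff_LOC, (hg z hz).1] at hy1
    rw [onS_iff_LOC, (hg z hz).2] at hy2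
    exact quarter i j x hx ε h hε hc h0 hg hop hn ⟨z, ⟨⟨hy1, hz.1⟩, ⟨hy2, hz.2⟩⟩, rfl⟩
  · intro i j x hij hi hj
    obtain ⟨ε, hε, h, hc, h0, hg, hop, hn⟩ := box2 i j x hij hi hj
    have h00 : ((0 : ℝ), (0 : ℝ)) ∈ Ioo (-ε) ε ×ˢ Ioo (-ε) ε :=
      ⟨⟨by simpa using hε, by simpa using hε⟩, ⟨by simpa using hε, by simpa using hε⟩⟩
    have hx0 : x ∈ h '' (Ioo (-ε) ε ×ˢ Ioo (-ε) ε) := ⟨(0, 0), h00, h0⟩
    have hsub : (hs_LOC (i ∈ s) ∩ Ioo (-ε) ε) ×ˢ ({0} : Set ℝ) ⊆ Ioo (-ε) ε ×ˢ Ioo (-ε) ε := by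
      rintro z ⟨⟨hz1, hz2⟩, hz3⟩
      refine ⟨hz2, ?_⟩
      rw [mem_singleton_iff] at hz3
      rw [hz3]
      exact h00.2
    have hcl : (0 : ℝ) ∈ closure (hs_LOC (i ∈ s) ∩ Ioo (-ε) ε) := hs_closure_LOC _ hε
    have hne : (hs_LOC (i ∈ s) ∩ Ioo (-ε) ε).Nonempty := closure_nonempty_iff.1 ⟨0, hcl⟩
    refine ⟨h '' ((hs_LOC (i ∈ s) ∩ Ioo (-ε) ε) ×ˢ ({0} : Set ℝ)), ?_, ?_, ?_, ?_, ?_, ?_, ?_⟩
    · exact ((hs_convex_LOC _ _).prod (convex_singleton _)).isPreconnected.image h (hc.mono hsub)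
    · exact (hne.prod (singleton_nonempty _)).image h
    · rintro _ ⟨z, hz, rfl⟩
      have hzB := hsub hz
      have hz0 : z.2 = 0 := hz.2
      refine ⟨?_, ?_⟩
      · rw [mem_sph, (hg z hzB).2, hz0]
      · rintro ⟨a, b, hab, ha, hb⟩
        have hj1 : ∀ n, h z ∈ A.sph n → n = j := by
          intro n hzn
          by_contra hnj
          by_cases hni : n = i
          · subst hni
            rw [mem_sph, (hg z hzB).1] at hzn
            exact hz.1.1.1 hzn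
          · exact hn z hzB n hni hnj hzn
        exact hab ((hj1 a ha).trans (hj1 b hb).symm)
    · rintro _ ⟨z, hz, rfl⟩
      rw [onS_iff_LOC, (hg z (hsub hz)).1]
      exact hz.1.1
    · rw [← h0]
      refine clos_LOC hc hsub h00 ?_
      rw [closure_prod_eq]
      exact ⟨hcl, subset_closure rfl⟩
    · refine ⟨_, hop.mem_nhds hx0, ?_⟩
      rintro _ ⟨z, hz, rfl⟩ hy1 hy2
      rw [onS_iff_LOC, (hg z hz).1] at hy2
      rw [mem_sph, (hg z hz).2] at hy1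
      exact ⟨z, ⟨⟨hy2, hz.1⟩, hy1⟩, rfl⟩
    · intro hx
      have hq := quarter i j x hx ε h hε hc h0 hg hop hn
      rintro _ ⟨z, hz, rfl⟩
      have hzB := hsub hz
      have hz0 : z.2 = 0 := hz.2
      rw [hfr]
      refine ⟨closure_mono hq (clos_LOC hc (prod_mono inter_subset_right inter_subset_right) hzB ?_), ?_⟩
      · rw [closure_prod_eq]
        refine ⟨subset_closure hz.1, ?_⟩
        rw [hz0]
        exact hs_closure_LOC _ hε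
      · intro hyF
        have hyj : h z ∈ A.sph j := by rw [mem_sph, (hg z hzB).2, hz0]
        exact hU hyF (mem_iUnion.2 ⟨j, hyj⟩)

end Pool.Agent.Helper56.OC
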