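import Mathlib
import Pool.Agent.Helper56.OC.St

set_option autoImplicit false

open Set Metric

namespace Pool.Agent.Helper56.OC

open Fam

theorem continuous_g_LZ {ι : Type} (A : Fam ι) (i : ι) : Continuous (A.g i) := by
  unfold Fam.g
  fun_prop

/-- a nonvanishing continuous function has constant sign on a preconnected set -/
theorem sign_LZ {S : Set ℂ} (hS : IsPreconnected S) {f : ℂ → ℝ} (hf : Continuous f)
    (h0 : ∀ x ∈ S, f x ≠ 0) {x y : ℂ} (hx : x ∈ S) (hy : y ∈ S) (h : f x < 0) : f y < 0 := by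
  by_contra hn
  rw [not_lt] at hn
  obtain ⟨z, hz, hz0⟩ := hS.intermediate_value hx hy hf.continuousOn ⟨h.le, hn⟩
  exact h0 z hz hz0

theorem m_LZ (hC : StCirc) (hP : StPts) : StLZ := by
  intro ι _ _ A s N j 𝒜 hNe hNj h𝒜 hcorner y hyj hyN
  obtain ⟨hP1, hP2, hP3⟩ := hP ι A
  have hne : ∀ n ∈ N, n ≠ j := by
    rintro n hn rfl
    exact A.orth_irrefl _ (hNj n hn)
  set P : Set ℂ := A.sph j ∩ ⋃ n ∈ N, A.sph n with hPdef
  have hfin : P.Finite := by
    have h1 : (⋃ n ∈ N, (A.sph n ∩ A.sph j)).Finite := by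
      refine Set.Finite.biUnion N.finite_toSet fun n hn => ?_
      obtain ⟨p, q, -, hpq⟩ := hP2 n j (hNj n hn)
      rw [hpq]
      exact Set.toFinite _
    refine h1.subset ?_
    rintro x ⟨hxj, hx⟩
    obtain ⟨n, hn, hxn⟩ := Set.mem_iUnion₂.mp hx
    exact Set.mem_iUnion₂.mpr ⟨n, hn, hxn, hxj⟩
  have hnt : P.Nontrivial := by
    obtain ⟨n, hn⟩ := hNe
    obtain ⟨p, q, hpq, he⟩ := hP2 n j (hNj n hn)
    have hp : p ∈ A.sph n ∩ A.sph j := by rw [he]; exact Set.mem_insert _ _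
    have hq : q ∈ A.sph n ∩ A.sph j := by
      rw [he]; exact Set.mem_insert_of_mem _ (Set.mem_singleton _)
    exact ⟨p, ⟨hp.2, Set.mem_iUnion₂.mpr ⟨n, hn, hp.1⟩⟩, q,
      ⟨hq.2, Set.mem_iUnion₂.mpr ⟨n, hn, hq.1⟩⟩, hpq⟩
  have hyP : y ∉ P := by
    rintro ⟨-, hy⟩
    obtain ⟨n, hn, hyn⟩ := Set.mem_iUnion₂.mp hy
    exact (hyN n hn).1 (A.mem_sph.mp hyn)
  obtain ⟨p, hp, q, hq, hpq, hcl, -⟩ := hC (A.c j) (A.r j) (A.pos j) P hfin
    Set.inter_subset_left hnt y ⟨hyj, hyP⟩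
  change closure (connectedComponentIn (A.sph j \ P) y) \
      connectedComponentIn (A.sph j \ P) y = {p, q} at hcl
  set a' : Set ℂ := connectedComponentIn (A.sph j \ P) y with ha'
  have hsub : a' ⊆ A.sph j \ P := connectedComponentIn_subset _ _
  have hpre : IsPreconnected a' := isPreconnected_connectedComponentIn
  have hya : y ∈ a' := mem_connectedComponentIn ⟨hyj, hyP⟩
  have h0 : ∀ n ∈ N, ∀ x ∈ a', A.g n x ≠ 0 := by
    intro n hn x hx h
    exact (hsub hx).2 ⟨(hsub hx).1, Set.mem_iUnion₂.mpr ⟨n, hn, A.mem_sph.mpr h⟩⟩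
  have hOn : ∀ n ∈ N, ∀ x ∈ a', A.OnS s n x := by
    intro n hn x hx
    refine ⟨h0 n hn x hx, ?_⟩
    rw [← (hyN n hn).2]
    exact ⟨fun h => sign_LZ hpre (continuous_g_LZ A n) (h0 n hn) hx hya h,
      fun h => sign_LZ hpre (continuous_g_LZ A n) (h0 n hn) hya hx h⟩
  have hpc : p ∈ closure a' := by
    have : p ∈ closure a' \ a' := by rw [hcl]; exact Set.mem_insert _ _
    exact this.1
  obtain ⟨hpj, hpU⟩ := hp
  obtain ⟨n, hn, hpn⟩ := Set.mem_iUnion₂.mp hpU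
  have hother : ∀ n' ∈ N, n' ≠ n → A.OnS s n' p := by
    intro n' hn' hnn
    have hp0 : A.g n' p ≠ 0 := by
      intro h
      exact hP3 j n n' (hne n hn).symm (hne n' hn').symm hnn.symm p hpj hpn (A.mem_sph.mpr h)
    refine ⟨hp0, ?_⟩
    constructor
    · intro hlt
      have hop : IsOpen {x | A.g n' x < 0} := isOpen_lt (continuous_g_LZ A n') continuous_const
      obtain ⟨z, hz, hza⟩ := mem_closure_iff.mp hpc _ hop hlt
      exact (hOn n' hn' z hza).2.mp hz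
    · intro hs
      by_contra hnl
      have hgt : 0 < A.g n' p := lt_of_le_of_ne (not_lt.mp hnl) (Ne.symm hp0)
      have hop : IsOpen {x | 0 < A.g n' x} := isOpen_lt continuous_const (continuous_g_LZ A n')
      obtain ⟨z, hz, hza⟩ := mem_closure_iff.mp hpc _ hop hgt
      have h1 := (hOn n' hn' z hza).2.mpr hs
      have h2 : 0 < A.g n' z := hz
      linarith
  obtain ⟨a, ha, M, hM, hMa⟩ := hcorner n hn p hpj hpn hother
  obtain ⟨z, hzM, hza⟩ := mem_closure_iff_nhds.mp hpc M hM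
  have hz : z ∈ a := hMa z hzM (hsub hza).1 (hOn n hn z hza)
  obtain ⟨h1, h2⟩ := h𝒜 a ha
  refine ⟨a, ha, h2 a' ?_ hpre ⟨z, hza, hz⟩ hya⟩
  intro x hx
  refine ⟨(hsub hx).1, fun hxa => (hsub hx).2 ⟨(hsub hx).1, h1 hxa⟩⟩

end Pool.Agent.Helper56.OC
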