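import Mathlib
import Pool.Agent.Helper56.OC.St

/-!
# Module NEXT: the next corner
-/

set_option autoImplicit false

open Set Metric

namespace Pool.Agent.Helper56.OC

open Fam

theorem X_finite_NEXT (hP : StPts) (ι : Type) [Fintype ι] (A : Fam ι) : A.X.Finite := by
  classical
  obtain ⟨h1, h2, -⟩ := hP ι A
  have h3 : A.X ⊆ ⋃ i : ι, ⋃ j : ι, (if i ≠ j then A.sph i ∩ A.sph j else ∅) := by
    rintro x ⟨i, j, hij, hi, hj⟩
    rw [mem_iUnion]
    refine ⟨i, ?_⟩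
    rw [mem_iUnion]
    refine ⟨j, ?_⟩
    rw [if_pos hij]
    exact ⟨hi, hj⟩
  apply Finite.subset _ h3
  apply finite_iUnion
  intro i
  apply finite_iUnion
  intro j
  split_ifs with hij
  · by_cases he : (A.sph i ∩ A.sph j).Nonempty
    · obtain ⟨x, hxi, hxj⟩ := he
      obtain ⟨p, q, -, hpq⟩ := h2 i j (h1 i j hij x hxi hxj).1
      rw [hpq]
      exact toFinite _
    · rw [not_nonempty_iff_eq_empty] at he
      rw [he]
      exact finite_empty
  · exact finite_empty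

theorem m_NEXT (hC : StCirc) (hP : StPts) (hF : StFace) (hL : StLoc) (hA : StArc) : StNext := by
  intro ι _ _ A F s hs i j p hij hpi hpj hpF
  have hXf := X_finite_NEXT hP ι A
  obtain ⟨hP1, hP2, hP3⟩ := hP ι A
  obtain ⟨-, -, -, hF4, -⟩ := (hF ι A).2 F s hs
  obtain ⟨-, -, hL3⟩ := hL ι A F s hs
  obtain ⟨H, hHp, ⟨y, hyH⟩, hHs, hHon, hpH, ⟨N, hN, hNH⟩, hHF⟩ := hL3 i j p hij hpi hpj
  have hHF' := hHF hpF
  have hyj := hHs hyH
  obtain ⟨haF, haeq⟩ := hA ι A F s hs j y hyj.1 hyj.2 (hHF' hyH)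
  set a : Set ℂ := A.arcAt j y with ha
  have haX : a ⊆ A.sph j \ A.X := connectedComponentIn_subset _ _
  have hHa : H ⊆ a := hHp.subset_connectedComponentIn hyH hHs
  have hpX : p ∈ A.X := ⟨i, j, hij, hpi, hpj⟩
  -- the end points
  have hdiff : sphere (A.c j) (A.r j) \ (A.sph j ∩ A.X) = A.sph j \ A.X := by
    unfold Fam.sph
    ext x
    simp only [mem_sdiff, mem_inter_iff]
    tauto
  have hnt : (A.sph j ∩ A.X).Nontrivial := by
    obtain ⟨p1, q1, hpq1, he⟩ := hP2 i j (hP1 i j hij p hpi hpj).1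
    have h1 : p1 ∈ A.sph i ∩ A.sph j := by rw [he]; exact mem_insert _ _
    have h2 : q1 ∈ A.sph i ∩ A.sph j := by rw [he]; exact mem_insert_of_mem _ rfl
    exact ⟨p1, ⟨h1.2, i, j, hij, h1.1, h1.2⟩, q1, ⟨h2.2, i, j, hij, h2.1, h2.2⟩, hpq1⟩
  obtain ⟨p', hp', q', hq', hpq', hends', hmax'⟩ := hC (A.c j) (A.r j) (A.pos j) (A.sph j ∩ A.X)
    (hXf.subset inter_subset_right) inter_subset_left hnt y (by rw [hdiff]; exact hyj)
  rw [hdiff] at hends' hmax'
  change closure a \ a = {p', q'} at hends'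
  have hpcl : p ∈ closure a \ a := ⟨closure_mono hHa hpH, fun h => (haX h).2 hpX⟩
  obtain ⟨q, hq, hpq, hends, hmax⟩ : ∃ q ∈ A.sph j ∩ A.X, p ≠ q ∧ closure a \ a = {p, q} ∧
      ∀ Z : Set ℂ, Z ⊆ A.sph j \ {p, q} → IsPreconnected Z → (Z ∩ a).Nonempty → Z ⊆ a := by
    have h := hpcl
    rw [hends', mem_insert_iff, mem_singleton_iff] at h
    rcases h with rfl | rfl
    · exact ⟨q', hq', hpq', hends', hmax'⟩
    · refine ⟨p', hp', hpq'.symm, ?_, ?_⟩
      · rw [hends', pair_comm]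
      · intro Z hZ
        rw [pair_comm] at hZ
        exact hmax' Z hZ
  -- the other circle at `q`
  obtain ⟨l, hlj, hql⟩ : ∃ l, l ≠ j ∧ q ∈ A.sph l := by
    obtain ⟨i', j', hij', hi', hj'⟩ := hq.2
    by_cases h : i' = j
    · exact ⟨j', fun h' => hij' (h.trans h'.symm), hj'⟩
    · exact ⟨i', h, hi'⟩
  have hqcl : q ∈ closure a := by
    have : q ∈ closure a \ a := by rw [hends]; exact mem_insert_of_mem _ rfl
    exact this.1
  have hclF : closure a ⊆ frontier F := closure_minimal haF isClosed_frontier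
  have hqF : q ∈ frontier F := hclF hqcl
  have hsa : ∀ z ∈ a, ∀ n, n ≠ j → A.OnS s n z := by
    intro z hz n hn
    apply hF4 z (frontier_subset_closure (haF hz)) n
    intro h0
    exact (haX hz).2 ⟨n, j, hn, A.mem_sph.2 h0, (haX hz).1⟩
  refine ⟨l, q, a, ?_, hqF, haF, ⟨y, ⟨hHF' hyH, hyj.2⟩, haeq⟩⟩
  refine ⟨hij, hlj, hpi, hpj, hq.1, hql, hpq, ⟨y, hyj, rfl⟩, hends, hmax, ?_, ?_, hsa, ?_, ?_⟩
  · exact ⟨N, hN, fun z hz hz1 hz2 => hHa (hNH z hz hz1 hz2)⟩
  · obtain ⟨H', hHp', -, hHs', -, -, ⟨N', hN', hNH'⟩, -⟩ := hL3 l j q hlj hql hq.1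
    obtain ⟨z, hzN, hza⟩ := mem_closure_iff_nhds.1 hqcl N' hN'
    have hzH : z ∈ H' := hNH' z hzN (haX hza).1 (hsa z hza l hlj)
    have hHa' : H' ⊆ a := by
      have h1 := hHp'.subset_connectedComponentIn hzH hHs'
      have h2 : connectedComponentIn (A.sph j \ A.X) y = connectedComponentIn (A.sph j \ A.X) z :=
        connectedComponentIn_eq hza
      rw [← h2] at h1
      exact h1
    exact ⟨N', hN', fun z hz hz1 hz2 => hHa' (hNH' z hz hz1 hz2)⟩
  · intro n hni hnj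
    apply hF4 p (frontier_subset_closure hpF) n
    intro h0
    exact hP3 i j n hij hni.symm hnj.symm p hpi hpj (A.mem_sph.2 h0)
  · intro n hnl hnj
    apply hF4 q (frontier_subset_closure hqF) n
    intro h0
    exact hP3 l j n hlj hnl.symm hnj.symm q hql hq.1 (A.mem_sph.2 h0)

end Pool.Agent.Helper56.OC
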