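import Mathlib
import Pool.Agent.Helper56.OC.St

set_option autoImplicit false

open Set Metric

namespace Pool.Agent.Helper56.OC

open Fam

theorem m_ORB : StOrb := by
  intro Fl κ β R sw th α S hR hsw hRne hth hthsw hαS hcard hα f
  classical
  set T : Fl → Fl := fun x => sw (R x) with hT
  have hTR : ∀ g, T (R (T g)) = R g := by
    intro g
    simp only [hT, hR, hsw]
  have hinj : Function.Injective T := by
    intro x y h
    have h1 : sw (sw (R x)) = sw (sw (R y)) := congrArg sw h
    rw [hsw, hsw] at h1
    have h2 : R (R x) = R (R y) := congrArg R h1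
    rwa [hR, hR] at h2
  have hA : ∀ (m : ℕ) (g : Fl), T^[m] (R (T^[m] g)) = R g := by
    intro m
    induction m with
    | zero => intro g; rfl
    | succ m ih =>
      intro g
      rw [Function.iterate_succ_apply, Function.iterate_succ_apply', hTR, ih]
  have hB : ∀ (m : ℕ) (g : Fl), R g ≠ T^[m] g := by
    intro m g h
    rcases Nat.even_or_odd' m with ⟨t, rfl | rfl⟩
    · have h1 := hA t g
      rw [h, two_mul, Function.iterate_add_apply] at h1
      exact hRne _ (hinj.iterate t h1)
    · have h1 := hA t g
      have h2 : T^[2 * t + 1] g = T^[t] (T (T^[t] g)) := by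
        rw [← Function.iterate_succ_apply' T t g, ← Function.iterate_add_apply]
        congr 1
        omega
      rw [h, h2] at h1
      have h3 := hinj.iterate t h1
      have h4 : th (R (T^[t] g)) = th (sw (R (T^[t] g))) := congrArg th h3
      exact hthsw _ h4.symm
  have hC : ∀ m n : ℕ, m < n → α (T^[m] f) = α (T^[n] f) → T^[n - m] f = f := by
    intro m n hmn h
    have h1 : T^[n] f = T^[n - m] (T^[m] f) := by
      rw [← Function.iterate_add_apply]
      congr 1
      omega
    rcases hα _ _ h with h2 | h2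
    · have h3 : T^[m] (T^[n - m] f) = T^[m] f := by
        rw [← Function.iterate_add_apply, ← h2]
        congr 1
        omega
      exact hinj.iterate m h3
    · exact absurd (h2.symm.trans h1) (hB _ _)
  have hex : ∃ k, 1 ≤ k ∧ T^[k] f = f := by
    obtain ⟨m, hm, n, hn, hne, h⟩ := Finset.exists_ne_map_eq_of_card_lt_of_maps_to
      (s := Finset.range 5) (t := S) (by rw [Finset.card_range]; omega)
      (f := fun m => α (T^[m] f)) (fun m _ => hαS _)
    rcases lt_or_gt_of_ne hne with h1 | h1
    · exact ⟨n - m, by omega, hC m n h1 h⟩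
    · exact ⟨m - n, by omega, hC n m h1 h.symm⟩
  have hex4 : ∃ k, 1 ≤ k ∧ k ≤ 4 ∧ T^[k] f = f := by
    obtain ⟨m, hm, n, hn, hne, h⟩ := Finset.exists_ne_map_eq_of_card_lt_of_maps_to
      (s := Finset.range 5) (t := S) (by rw [Finset.card_range]; omega)
      (f := fun m => α (T^[m] f)) (fun m _ => hαS _)
    rw [Finset.mem_range] at hm hn
    rcases lt_or_gt_of_ne hne with h1 | h1
    · exact ⟨n - m, by omega, by omega, hC m n h1 h⟩
    · exact ⟨m - n, by omega, by omega, hC n m h1 h.symm⟩
  obtain ⟨hk1, hk2⟩ := Nat.find_spec hex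
  refine ⟨Nat.find hex, ?_, ?_, hk2, ?_⟩
  · by_contra hlt
    have h1 : Nat.find hex = 1 := by omega
    rw [h1] at hk2
    have h2 : th (T f) = th f := congrArg th hk2
    exact hthsw (R f) (h2.trans (hth f).symm)
  · obtain ⟨k, h1, h2, h3⟩ := hex4
    exact (Nat.find_min' hex ⟨h1, h3⟩).trans h2
  · intro m n hmn hnk h
    exact Nat.find_min hex (m := n - m) (by omega) ⟨by omega, hC m n hmn h⟩

end Pool.Agent.Helper56.OC
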