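import Mathlib
import Pool.Agent.Helper56.OC.St

set_option autoImplicit false

open Set Metric

namespace Pool.Agent.Helper56.OC

open Fam

private theorem core_SEP (u1 u2 v1 v2 d1 d2 w1 w2 R Rj Rn : ℝ) (hR : 0 < R) (hRj : 0 < Rj)
    (hRn : 0 < Rn) (h1 : u1 ^ 2 + u2 ^ 2 = R) (h2 : v1 ^ 2 + v2 ^ 2 = R)
    (h3 : (u1 - d1) ^ 2 + (u2 - d2) ^ 2 = Rj) (h4 : (v1 - d1) ^ 2 + (v2 - d2) ^ 2 = Rj)
    (h5 : d1 ^ 2 + d2 ^ 2 = R + Rj) (h6 : w1 ^ 2 + w2 ^ 2 = R + Rn)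
    (h7 : (w1 - d1) ^ 2 + (w2 - d2) ^ 2 = Rj + Rn) (hne : ¬ (u1 = v1 ∧ u2 = v2)) :
    ((u1 - w1) ^ 2 + (u2 - w2) ^ 2 - Rn) * ((v1 - w1) ^ 2 + (v2 - w2) ^ 2 - Rn) < 0 := by
  have a1 : u1 * d1 + u2 * d2 = R := by linear_combination (h1 + h5 - h3) / 2
  have a2 : v1 * d1 + v2 * d2 = R := by linear_combination (h2 + h5 - h4) / 2
  have a3 : w1 * d1 + w2 * d2 = R := by linear_combination (h6 + h5 - h7) / 2
  have b1 : (u1 * d2 - u2 * d1) ^ 2 = R * Rj := by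
    linear_combination (d1 ^ 2 + d2 ^ 2) * h1 + R * h5 - (u1 * d1 + u2 * d2 + R) * a1
  have b2 : (v1 * d2 - v2 * d1) ^ 2 = R * Rj := by
    linear_combination (d1 ^ 2 + d2 ^ 2) * h2 + R * h5 - (v1 * d1 + v2 * d2 + R) * a2
  have b3 : (w1 * d2 - w2 * d1) ^ 2 = (R + Rn) * (R + Rj) - R ^ 2 := by
    linear_combination (d1 ^ 2 + d2 ^ 2) * h6 + (R + Rn) * h5 - (w1 * d1 + w2 * d2 + R) * a3
  have hD : 0 < R + Rj := by positivity
  have hopp : v1 * d2 - v2 * d1 = -(u1 * d2 - u2 * d1) := by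
    have h8 : ((u1 * d2 - u2 * d1) - (v1 * d2 - v2 * d1)) *
        ((u1 * d2 - u2 * d1) + (v1 * d2 - v2 * d1)) = 0 := by linear_combination b1 - b2
    rcases mul_eq_zero.1 h8 with h9 | h9
    · exfalso
      apply hne
      have c1 : (R + Rj) * (u1 - v1) = 0 := by
        rw [← h5]
        linear_combination d1 * (a1 - a2) + d2 * h9
      have c2 : (R + Rj) * (u2 - v2) = 0 := by
        rw [← h5]
        linear_combination d2 * (a1 - a2) - d1 * h9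
      constructor
      · rcases mul_eq_zero.1 c1 with h | h
        · exact absurd h hD.ne'
        · linarith
      · rcases mul_eq_zero.1 c2 with h | h
        · exact absurd h hD.ne'
        · linarith
    · linarith
  have e1 : (R + Rj) * ((u1 - w1) ^ 2 + (u2 - w2) ^ 2 - Rn) =
      2 * (R * Rj - (u1 * d2 - u2 * d1) * (w1 * d2 - w2 * d1)) := by
    linear_combination (R + Rj) * (h1 + h6) + 2 * (u1 * w1 + u2 * w2) * h5 -
      2 * (w1 * d1 + w2 * d2) * a1 - 2 * R * a3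
  have e2 : (R + Rj) * ((v1 - w1) ^ 2 + (v2 - w2) ^ 2 - Rn) =
      2 * (R * Rj + (u1 * d2 - u2 * d1) * (w1 * d2 - w2 * d1)) := by
    linear_combination (R + Rj) * (h2 + h6) + 2 * (v1 * w1 + v2 * w2) * h5 -
      2 * (w1 * d1 + w2 * d2) * a2 - 2 * R * a3 - 2 * (w1 * d2 - w2 * d1) * hopp
  have e3 : ((R + Rj) * (R + Rj)) * (((u1 - w1) ^ 2 + (u2 - w2) ^ 2 - Rn) *
      ((v1 - w1) ^ 2 + (v2 - w2) ^ 2 - Rn)) = -(4 * (R * Rj) * (Rn * (R + Rj))) := by
    calc _ = ((R + Rj) * ((u1 - w1) ^ 2 + (u2 - w2) ^ 2 - Rn)) *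
          ((R + Rj) * ((v1 - w1) ^ 2 + (v2 - w2) ^ 2 - Rn)) := by ring
      _ = 4 * ((R * Rj) ^ 2 - (u1 * d2 - u2 * d1) ^ 2 * (w1 * d2 - w2 * d1) ^ 2) := by
          rw [e1, e2]; ring
      _ = _ := by rw [b1, b3]; ring
  have h10 : ((R + Rj) * (R + Rj)) * (((u1 - w1) ^ 2 + (u2 - w2) ^ 2 - Rn) *
      ((v1 - w1) ^ 2 + (v2 - w2) ^ 2 - Rn)) < 0 := by
    rw [e3]
    have : 0 < 4 * (R * Rj) * (Rn * (R + Rj)) := by positivity
    linarith
  exact (pos_iff_neg_of_mul_neg h10).1 (by positivity)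

private theorem nsq_SEP (z : ℂ) : ‖z‖ ^ 2 = z.re ^ 2 + z.im ^ 2 := by
  rw [← Complex.normSq_eq_norm_sq, Complex.normSq_apply]
  ring

theorem m_SEP : StSep := by
  intro ι A i j n hij hin hjn p q hpq hpi hpj hqi hqj
  rw [mem_sph] at hpi hpj hqi hqj
  unfold g at hpi hpj hqi hqj ⊢
  unfold orth at hij hin hjn
  rw [nsq_SEP] at hij hin hjn hpi hpj hqi hqj
  rw [nsq_SEP, nsq_SEP]
  simp only [Complex.sub_re, Complex.sub_im] at hij hin hjn hpi hpj hqi hqj ⊢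
  have h := core_SEP (p.re - (A.c i).re) (p.im - (A.c i).im) (q.re - (A.c i).re)
    (q.im - (A.c i).im) ((A.c j).re - (A.c i).re) ((A.c j).im - (A.c i).im)
    ((A.c n).re - (A.c i).re) ((A.c n).im - (A.c i).im) (A.r i ^ 2) (A.r j ^ 2) (A.r n ^ 2)
    (pow_pos (A.pos i) 2) (pow_pos (A.pos j) 2) (pow_pos (A.pos n) 2)
    (by linarith) (by linarith) (by linarith) (by linarith)
    (by linear_combination hij) (by linear_combination hin) (by linear_combination hjn) (by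
      rintro ⟨h1, h2⟩
      exact hpq (Complex.ext (by linarith) (by linarith)))
  have e1 : p.re - (A.c i).re - ((A.c n).re - (A.c i).re) = p.re - (A.c n).re := by ring
  have e2 : p.im - (A.c i).im - ((A.c n).im - (A.c i).im) = p.im - (A.c n).im := by ring
  have e3 : q.re - (A.c i).re - ((A.c n).re - (A.c i).re) = q.re - (A.c n).re := by ring
  have e4 : q.im - (A.c i).im - ((A.c n).im - (A.c i).im) = q.im - (A.c n).im := by ring
  rw [e1, e2, e3, e4] at h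
  exact h

end Pool.Agent.Helper56.OC
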