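import Mathlib
import Pool.Agent.Helper56.OC.St

set_option autoImplicit false

open Set Metric

namespace Pool.Agent.Helper56.OC

open Fam

/-- the intersection of two different circles is finite -/
theorem inter_finite_START (hP : StPts) {ι : Type} (A : Fam ι) (i j : ι) (hij : i ≠ j) :
    (A.sph i ∩ A.sph j).Finite := by
  rcases Set.eq_empty_or_nonempty (A.sph i ∩ A.sph j) with h | ⟨x, hx⟩
  · rw [h]; exact Set.finite_empty
  · obtain ⟨h1, h2, -⟩ := hP ι A
    obtain ⟨p, q, -, hpq⟩ := h2 i j (h1 i j hij x hx.1 hx.2).1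
    rw [hpq]
    exact Set.toFinite _

theorem X_finite_START (hP : StPts) {ι : Type} [Fintype ι] (A : Fam ι) : A.X.Finite := by
  have h : A.X ⊆ ⋃ i, ⋃ j, {x | i ≠ j ∧ x ∈ A.sph i ∩ A.sph j} := by
    rintro x ⟨i, j, hij, hi, hj⟩
    exact Set.mem_iUnion.mpr ⟨i, Set.mem_iUnion.mpr ⟨j, hij, hi, hj⟩⟩
  refine Set.Finite.subset ?_ h
  refine Set.finite_iUnion fun i => Set.finite_iUnion fun j => ?_
  by_cases hij : i = j
  · subst hij
    refine Set.Finite.subset Set.finite_empty ?_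
    rintro x ⟨hx, -⟩
    exact absurd rfl hx
  · refine Set.Finite.subset (inter_finite_START hP A i j hij) ?_
    rintro x ⟨-, hx⟩
    exact hx

theorem m_START (hC : StCirc) (hP : StPts) (hF : StFace) (hL : StLoc) (hA : StArc) (hN : StNext) :
    StStart := by
  intro ι _ _ A F s hs y hy
  obtain ⟨-, hF'⟩ := hF ι A
  obtain ⟨-, hFU, -, hFS, -, -, -⟩ := hF' F s hs
  obtain ⟨j, hj⟩ := Set.mem_iUnion.mp (hFU hy.1)
  refine ⟨j, hj, ?_⟩
  rcases Set.eq_empty_or_nonempty (A.sph j ∩ A.X) with hE | ⟨x₀, hx₀j, a, b, hab, hxa, hxb⟩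
  · left
    refine ⟨hE, ?_⟩
    have e : A.sph j \ A.X = A.sph j := by
      rw [← Set.sdiff_inter_self_eq_sdiff, Set.inter_comm, hE, Set.sdiff_empty]
    show connectedComponentIn (A.sph j \ A.X) y = A.sph j
    rw [e]
    refine IsPreconnected.connectedComponentIn ?_ hj
    refine isPreconnected_sphere ?_ (A.c j) (A.r j)
    rw [Complex.rank_real_complex]
    exact Nat.one_lt_ofNat
  · right
    obtain ⟨hP1, hP2, hP3⟩ := hP ι A
    -- a second circle through a point of the circle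
    obtain ⟨n, hnj, hxn⟩ : ∃ n, n ≠ j ∧ x₀ ∈ A.sph n := by
      by_cases haj : a = j
      · exact ⟨b, fun h => hab (haj.trans h.symm), hxb⟩
      · exact ⟨a, haj, hxa⟩
    obtain ⟨p₁, p₂, hp12, hpp⟩ := hP2 n j (hP1 n j hnj x₀ hxn hx₀j).1
    have hp1 : p₁ ∈ A.sph n ∩ A.sph j := by rw [hpp]; exact Set.mem_insert _ _
    have hp2 : p₂ ∈ A.sph n ∩ A.sph j := by
      rw [hpp]; exact Set.mem_insert_of_mem _ (Set.mem_singleton _)
    have hnt : (A.sph j ∩ A.X).Nontrivial :=
      ⟨p₁, ⟨hp1.2, n, j, hnj, hp1.1, hp1.2⟩, p₂, ⟨hp2.2, n, j, hnj, hp2.1, hp2.2⟩, hp12⟩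
    have hfin : (A.sph j ∩ A.X).Finite := (X_finite_START hP A).subset Set.inter_subset_right
    have e : A.sph j \ (A.sph j ∩ A.X) = A.sph j \ A.X := Set.sdiff_self_inter
    obtain ⟨p, hp, q, hq, hpq, hcl, -⟩ := hC (A.c j) (A.r j) (A.pos j) (A.sph j ∩ A.X) hfin
      Set.inter_subset_left hnt y ⟨hj, fun h => hy.2 h.2⟩
    change closure (connectedComponentIn (A.sph j \ (A.sph j ∩ A.X)) y) \
      connectedComponentIn (A.sph j \ (A.sph j ∩ A.X)) y = {p, q} at hcl
    rw [e] at hcl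
    have hpc : p ∈ closure (A.arcAt j y) := by
      have : p ∈ closure (connectedComponentIn (A.sph j \ A.X) y) \
          connectedComponentIn (A.sph j \ A.X) y := by
        rw [hcl]; exact Set.mem_insert _ _
      exact this.1
    obtain ⟨hAF, -⟩ := hA ι A F s hs j y hj hy.2 hy.1
    have hpF : p ∈ frontier F := closure_minimal hAF isClosed_frontier hpc
    obtain ⟨i, hij, hpi⟩ : ∃ i, i ≠ j ∧ p ∈ A.sph i := by
      obtain ⟨a', b', hab', hpa, hpb⟩ := hp.2
      by_cases haj : a' = j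
      · exact ⟨b', fun h => hab' (haj.trans h.symm), hpb⟩
      · exact ⟨a', haj, hpa⟩
    obtain ⟨l, q', a', hseg, hq', -, -⟩ := hN ι A F s hs i j p hij hpi hp.1 hpF
    obtain ⟨N, hNp, hNa⟩ := hseg.germp
    obtain ⟨z, hzN, hza⟩ := mem_closure_iff_nhds.mp hpc N hNp
    have hzj : z ∈ A.sph j \ A.X := connectedComponentIn_subset _ _ hza
    have hzi : A.g i z ≠ 0 := by
      intro h0
      exact hzj.2 ⟨i, j, hij, A.mem_sph.mpr h0, hzj.1⟩
    have hzS : A.OnS s i z := hFS z (frontier_subset_closure (hAF hza)) i hzi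
    have hza' : z ∈ a' := hNa z hzN hzj.1 hzS
    obtain ⟨y', -, hay'⟩ := hseg.harc
    have e1 : A.arcAt j y = connectedComponentIn (A.sph j \ A.X) z := connectedComponentIn_eq hza
    have e2 : a' = connectedComponentIn (A.sph j \ A.X) z := by
      rw [hay'] at hza' ⊢
      exact connectedComponentIn_eq hza'
    refine ⟨i, l, p, q', ?_, hpF, hq'⟩
    rw [e1, ← e2]
    exact hseg

end Pool.Agent.Helper56.OC
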