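import Mathlib
import Pool.Agent.Helper56.OC.St

/-!
# Module TR: translation of the final statement
-/

set_option autoImplicit false

open Set Metric

namespace Pool.Agent.Helper56.OC

open Fam

private theorem pw_TR {C D : Circ} (h : C.Orthogonal D) :
    ‖C.c - D.c‖ ^ 2 = C.r ^ 2 + D.r ^ 2 := by
  have hne : (C.pts ∩ D.pts).Nonempty := by
    apply nonempty_of_ncard_ne_zero
    rw [h.1]
    norm_num
  obtain ⟨p, hp⟩ := hne
  have h1 := h.2 p hp
  have hC : ‖p - C.c‖ = C.r := mem_sphere_iff_norm.1 hp.1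
  have hD : ‖p - D.c‖ = D.r := mem_sphere_iff_norm.1 hp.2
  have e : C.c - D.c = (p - D.c) - (p - C.c) := by ring
  rw [e, norm_sub_sq_real, hC, hD, real_inner_comm, h1]
  ring

theorem m_TR : StTr := by
  intro S hS
  obtain ⟨A, hc, hr⟩ : ∃ A : Fam {C // C ∈ S}, (∀ i, A.c i = i.1.c) ∧ (∀ i, A.r i = i.1.r) := by
    refine ⟨{ c := fun i => i.1.c
              r := fun i => i.1.r
              pos := fun i => i.1.pos
              pw := ?_ }, fun _ => rfl, fun _ => rfl⟩
    intro i j hij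
    have hne : i.1 ≠ j.1 := fun h => hij (Subtype.ext h)
    rcases hS i.1 i.2 j.1 j.2 hne with h | h
    · exact Or.inl h
    · exact Or.inr (pw_TR h)
  refine ⟨A, ?_⟩
  have hsph : ∀ i, A.sph i = i.1.pts := by
    intro i
    unfold Fam.sph Circ.pts
    rw [hc, hr]
  have hU : circUnion S = A.U := by
    unfold circUnion Fam.U
    ext x
    simp only [mem_iUnion, hsph]
    constructor
    · rintro ⟨C, hC, hx⟩
      exact ⟨⟨C, hC⟩, hx⟩
    · rintro ⟨i, hx⟩
      exact ⟨i.1, i.2, hx⟩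
  have hX : crossings S = A.X := by
    unfold crossings Fam.X
    ext x
    simp only [mem_setOf_eq, hsph]
    constructor
    · rintro ⟨C, hC, D, hD, hne, h1, h2⟩
      exact ⟨⟨C, hC⟩, ⟨D, hD⟩, fun h => hne (congrArg Subtype.val h), h1, h2⟩
    · rintro ⟨i, j, hne, h1, h2⟩
      exact ⟨i.1, i.2, j.1, j.2, fun h => hne (Subtype.ext h), h1, h2⟩
  have hA : ∀ F, arcs S F = A.arcs F := by
    intro F
    unfold arcs Fam.arcs
    rw [hX]
  unfold quadFaces faces Fam.quads
  rw [hU]
  simp only [hA]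
  rfl

end Pool.Agent.Helper56.OC
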