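import Mathlib
import Pool.Agent.Helper56.OC.St

/-!
# Module WALK: from a quadrangular face to a closed walk
-/

set_option autoImplicit false

open Set Metric

namespace Pool.Agent.Helper56.OC

open Fam

/-- flags: corners of the boundary with an ordering of the two circles -/
@[ext] structure Fl_WALK {ι : Type} (A : Fam ι) (F : Set ℂ) where
  /-- corner -/
  p : ℂ
  /-- first circle -/
  i : ι
  /-- second circle -/
  j : ι
  hij : i ≠ j
  pi : p ∈ A.sph i
  pj : p ∈ A.sph j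
  pf : p ∈ frontier F

/-- a common point of two different circles is a crossing -/
theorem mem_X_WALK {ι : Type} (A : Fam ι) {i j : ι} {x : ℂ} (hx : x ∉ A.X) (hi : x ∈ A.sph i)
    (hj : x ∈ A.sph j) : i = j := by
  by_contra h
  exact hx ⟨i, j, h, hi, hj⟩

/-- arcs with a common point are equal -/
theorem arcAt_eq_WALK {ι : Type} (A : Fam ι) {j : ι} {x y : ℂ} (h : x ∈ A.arcAt j y) :
    A.arcAt j x = A.arcAt j y := (connectedComponentIn_eq h).symm

theorem arcAt_sub_WALK {ι : Type} (A : Fam ι) (j : ι) (y : ℂ) : A.arcAt j y ⊆ A.sph j \ A.X :=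
  connectedComponentIn_subset _ _

/-- the arc of a segment is a set of non crossing points of the circle -/
theorem Seg_sub_WALK {ι : Type} (A : Fam ι) {s : Finset ι} {i j l : ι} {p q : ℂ} {a : Set ℂ}
    (h : A.Seg s i j l p q a) : a ⊆ A.sph j \ A.X := by
  obtain ⟨y, _, rfl⟩ := h.harc
  exact arcAt_sub_WALK A j y

theorem Seg_nonempty_WALK {ι : Type} (A : Fam ι) {s : Finset ι} {i j l : ι} {p q : ℂ} {a : Set ℂ}
    (h : A.Seg s i j l p q a) : a.Nonempty := by
  obtain ⟨y, hy, rfl⟩ := h.harc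
  exact ⟨y, mem_connectedComponentIn hy⟩

theorem Seg_eq_WALK {ι : Type} (A : Fam ι) {s : Finset ι} {i j l i' l' : ι} {p q p' q' : ℂ}
    {a a' : Set ℂ} (h : A.Seg s i j l p q a) (h' : A.Seg s i' j l' p' q' a') {x : ℂ} (hx : x ∈ a)
    (hx' : x ∈ a') : a = a' := by
  obtain ⟨y, _, rfl⟩ := h.harc
  obtain ⟨y', _, rfl⟩ := h'.harc
  rw [← arcAt_eq_WALK A hx, ← arcAt_eq_WALK A hx']

/-- the reversed segment -/
theorem Seg_symm_WALK {ι : Type} (A : Fam ι) {s : Finset ι} {i j l : ι} {p q : ℂ} {a : Set ℂ}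
    (h : A.Seg s i j l p q a) : A.Seg s l j i q p a where
  hij := h.hlj
  hlj := h.hij
  pi := h.ql
  pj := h.qj
  qj := h.pj
  ql := h.pi
  hpq := h.hpq.symm
  harc := h.harc
  hends := by rw [h.hends, Set.pair_comm]
  hmax := by
    intro Z hZ
    rw [Set.pair_comm] at hZ
    exact h.hmax Z hZ
  germp := h.germq
  germq := h.germp
  sa := h.sa
  sp := h.sq
  sq := h.sp

/-- no three circles have a common point -/
theorem three_WALK (hP : StPts) {ι : Type} (A : Fam ι) {i i' j : ι} (hi : i ≠ j) (hi' : i' ≠ j)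
    {p : ℂ} (h1 : p ∈ A.sph i) (h2 : p ∈ A.sph i') (h3 : p ∈ A.sph j) : i = i' := by
  by_contra h
  exact (hP ι A).2.2 i i' j h hi hi' p h1 h2 h3

/-- the second member of a pair -/
theorem pair_WALK {p q q' : ℂ} (h : ({p, q} : Set ℂ) = {p, q'}) (hq : p ≠ q) : q = q' := by
  have h1 : q ∈ ({p, q'} : Set ℂ) := h ▸ (by simp)
  rcases h1 with h1 | h1
  · exact absurd h1.symm hq
  · exact h1

/-- the segment starting at a flag is unique -/
theorem Seg_uniq_WALK (hP : StPts) (hL : StLoc) {ι : Type} [Fintype ι] [DecidableEq ι]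
    (A : Fam ι) (F : Set ℂ) (s : Finset ι) (hFs : A.HasSign F s) {i j l l' : ι} {p q q' : ℂ}
    {a a' : Set ℂ} (h : A.Seg s i j l p q a)
    (h' : A.Seg s i j l' p q' a') : a = a' ∧ q = q' ∧ l = l' := by
  have haa : a = a' := by
    obtain ⟨H, _, _, hH1, hH2, hH3, _, _⟩ := (hL ι A F s hFs).2.2 i j p h.hij h.pi h.pj
    obtain ⟨N, hN, hN'⟩ := h.germp
    obtain ⟨M, hM, hM'⟩ := h'.germp
    obtain ⟨x, hx1, hx2⟩ := mem_closure_iff_nhds.1 hH3 (N ∩ M) (Filter.inter_mem hN hM)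
    have hxj := (hH1 hx2).1
    exact Seg_eq_WALK A h h' (hN' x hx1.1 hxj (hH2 x hx2)) (hM' x hx1.2 hxj (hH2 x hx2))
  subst haa
  have hq : q = q' := pair_WALK (h.hends.symm.trans h'.hends) h.hpq
  subst hq
  exact ⟨rfl, rfl, three_WALK hP A h.hlj h'.hlj h.ql h'.ql h.qj⟩

theorem m_WALK (hP : StPts) (hF : StFace) (hL : StLoc) (hA : StArc) (hN : StNext) (hS : StStart)
    (hO : StOrb) : StWalk := by
  intro ι _ _ A F s hFs hcard
  have hfin : (A.arcs F).Finite := Set.finite_of_ncard_ne_zero (by omega)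
  have hne : (A.arcs F).Nonempty := Set.nonempty_of_ncard_ne_zero (by omega)
  obtain ⟨_, y, hy, _⟩ := hne
  obtain ⟨j₀, hyj, hcase⟩ := hS ι A F s hFs y hy
  rcases hcase with ⟨h1, h2⟩ | ⟨i₀, l₀, p₀, q₀, hseg₀, hp₀, _⟩
  · left
    refine ⟨j₀, y, hy.1, hyj, h1, ?_⟩
    rw [← h2]
    exact (hA ι A F s hFs j₀ y hyj hy.2 hy.1).1
  right
  have hnext : ∀ f : Fl_WALK A F, ∃ l q a, A.Seg s f.i f.j l f.p q a ∧ q ∈ frontier F ∧
      a ⊆ frontier F ∧ a ∈ A.arcs F := fun f =>
    hN ι A F s hFs f.i f.j f.p f.hij f.pi f.pj f.pf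
  choose l q α hseg hqF hαF hαA using hnext
  let R : Fl_WALK A F → Fl_WALK A F := fun f =>
    ⟨q f, l f, f.j, (hseg f).hlj, (hseg f).ql, (hseg f).qj, hqF f⟩
  let sw : Fl_WALK A F → Fl_WALK A F := fun f => ⟨f.p, f.j, f.i, f.hij.symm, f.pj, f.pi, f.pf⟩
  have hRR : ∀ f, R (R f) = f := by
    intro f
    obtain ⟨_, h2, h3⟩ := Seg_uniq_WALK hP hL A F s hFs (hseg (R f))
      (Seg_symm_WALK A (hseg f))
    exact Fl_WALK.ext h2 h3 rfl
  have hne : ∀ f, R f ≠ f := by
    intro f h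
    have h1 : q f = f.p := congrArg Fl_WALK.p h
    exact (hseg f).hpq h1.symm
  have hαR : ∀ f f', α f = α f' → f' = f ∨ f' = R f := by
    intro f f' h
    have hj : f.j = f'.j := by
      obtain ⟨x, hx⟩ := Seg_nonempty_WALK A (hseg f)
      have h1 := Seg_sub_WALK A (hseg f) hx
      rw [h] at hx
      have h2 := Seg_sub_WALK A (hseg f') hx
      exact mem_X_WALK A h1.2 h1.1 h2.1
    have hends : ({f.p, q f} : Set ℂ) = {f'.p, q f'} := by
      rw [← (hseg f).hends, ← (hseg f').hends, h]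
    have hp : f'.p ∈ ({f.p, q f} : Set ℂ) := hends ▸ (by simp)
    rcases hp with hp | hp
    · left
      refine Fl_WALK.ext hp ?_ hj.symm
      have h1 := f.pi
      have h2 := f.pj
      rw [← hp] at h1 h2
      exact three_WALK hP A (hj ▸ f'.hij) f.hij f'.pi h1 h2
    · right
      have hp' : f'.p = q f := hp
      refine Fl_WALK.ext hp' ?_ hj.symm
      have h1 := (hseg f).ql
      have h2 := (hseg f).qj
      rw [← hp'] at h1 h2
      exact three_WALK hP A (hj ▸ f'.hij) (hseg f).hlj f'.pi h1 h2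
  let f₀ : Fl_WALK A F := ⟨p₀, i₀, j₀, hseg₀.hij, hseg₀.pi, hseg₀.pj, hp₀⟩
  obtain ⟨k, hk2, hk4, hper, hdiff⟩ := hO (Fl_WALK A F) ι (Set ℂ) R sw (fun f => f.j) α
    hfin.toFinset hRR (fun f => rfl) hne (fun f => rfl) (fun f => f.hij)
    (fun f => hfin.mem_toFinset.2 (hαA f))
    (by rw [← Set.ncard_eq_toFinset_card _ hfin, hcard]) hαR f₀
  have hT : ∀ t, (fun x => sw (R x))^[t + k] f₀ = (fun x => sw (R x))^[t] f₀ := by
    intro t
    rw [Function.iterate_add_apply, hper]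
  have hTs : ∀ t, (fun x => sw (R x))^[t + 1] f₀ = sw (R ((fun x => sw (R x))^[t] f₀)) := by
    intro t
    exact Function.iterate_succ_apply' _ _ _
  generalize hg : (fun t : ℕ => (fun x => sw (R x))^[t] f₀) = g at *
  have hg' : ∀ t, (fun x => sw (R x))^[t] f₀ = g t := fun t => congrFun hg t
  simp only [hg'] at hT hTs hdiff
  have hi : ∀ t, (g (t + 1)).i = (g t).j := fun t => by rw [hTs]
  have hj : ∀ t, (g (t + 1)).j = l (g t) := fun t => by rw [hTs]
  have hp : ∀ t, (g (t + 1)).p = q (g t) := fun t => by rw [hTs]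
  have ha : ∀ t, g (t + 1 + (k - 1)) = g t := by
    intro t
    have h1 : t + 1 + (k - 1) = t + k := by omega
    rw [h1, hT]
  refine ⟨k, fun t => (g t).i, fun t => (g t).p, fun t => α (g (t + (k - 1))), hk2, hk4,
    ⟨?_, ?_⟩, ?_, ?_, ?_⟩
  · intro t
    refine ⟨?_, ?_, ?_⟩
    · change (g (t + k)).i = (g t).i
      rw [hT]
    · change (g (t + k)).p = (g t).p
      rw [hT]
    · change α (g (t + k + (k - 1))) = α (g (t + (k - 1)))
      have h1 : t + k + (k - 1) = t + (k - 1) + k := by omega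
      rw [h1, hT]
  · intro t
    change A.Seg s (g t).i (g (t + 1)).i (g (t + 2)).i (g t).p (g (t + 1)).p
      (α (g (t + 1 + (k - 1))))
    rw [ha, hi (t + 1), hj, hi, hp]
    exact hseg (g t)
  · intro t
    exact ((hF ι A).2 F s hFs).2.2.2.2.2.1 _ (g t).pf _ (g t).pi
  · intro m n hmn hnk
    change α (g (m + (k - 1))) ≠ α (g (n + (k - 1)))
    obtain ⟨n', rfl⟩ : ∃ n', n = n' + 1 := ⟨n - 1, by omega⟩
    rw [ha]
    rcases Nat.eq_zero_or_pos m with h0 | h0
    · subst h0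
      rw [zero_add]
      exact (hdiff n' (k - 1) (by omega) (by omega)).symm
    · obtain ⟨m', rfl⟩ : ∃ m', m = m' + 1 := ⟨m - 1, by omega⟩
      rw [ha]
      exact hdiff m' n' (by omega) (by omega)
  · intro t
    exact ⟨hαF _, hαA _⟩

end Pool.Agent.Helper56.OC
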