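import Mathlib
import Pool.Agent.Helper56.OC.St

/-!
# Module Z2
-/

set_option autoImplicit false

open Set Metric

namespace Pool.Agent.Helper56.OC

open Fam

private theorem pick_Z2 {ι : Type} {A : Fam ι} {s : Finset ι} {i : ι} {y y' : ℂ}
    (h : A.g i y * A.g i y' < 0) : A.OnS s i y ∨ A.OnS s i y' := by
  rcases mul_neg_iff.1 h with ⟨h1, h2⟩ | ⟨h1, h2⟩
  · by_cases hs : i ∈ s
    · exact Or.inr ⟨h2.ne, iff_of_true h2 hs⟩
    · exact Or.inl ⟨h1.ne', iff_of_false (not_lt.2 h1.le) hs⟩
  · by_cases hs : i ∈ s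
    · exact Or.inl ⟨h1.ne, iff_of_true h1 hs⟩
    · exact Or.inr ⟨h2.ne', iff_of_false (not_lt.2 h2.le) hs⟩

private theorem same_Z2 {ι : Type} {A : Fam ι} {s : Finset ι} {i : ι} {y y' : ℂ}
    (h : A.OnS s i y) (h' : A.OnS s i y') : 0 < A.g i y * A.g i y' := by
  by_cases hs : i ∈ s
  · exact mul_pos_of_neg_of_neg (h.2.2 hs) (h'.2.2 hs)
  · have h1 : 0 < A.g i y := lt_of_le_of_ne (not_lt.1 fun hc => hs (h.2.1 hc)) (Ne.symm h.1)
    have h2 : 0 < A.g i y' := lt_of_le_of_ne (not_lt.1 fun hc => hs (h'.2.1 hc)) (Ne.symm h'.1)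
    exact mul_pos h1 h2

theorem m_Z2 (hLZ : StLZ) (hS : StSep) (hP : StPts) (hFa : StFacs) : StZ2 := by
  intro ι _ _ A s i j l p q a hG hseg hil hi hj hl
  obtain ⟨hP1, hP2, -⟩ := hP ι A
  have hij : A.orth i j := (hP1 i j hseg.hij p hseg.pi hseg.pj).1
  have hlj : A.orth l j := (hP1 l j hseg.hlj q hseg.ql hseg.qj).1
  have hli : A.orth l i := A.orth_symm hil
  have hji : A.orth j i := A.orth_symm hij
  have hjl : A.orth j l := A.orth_symm hlj
  have hne : i ≠ l := by
    intro h
    rw [h] at hil
    exact A.orth_irrefl l hil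
  have first : ∀ y ∈ A.sph j, A.OnS s i y → A.OnS s l y → y ∈ a := by
    intro y hy hyi hyl
    obtain ⟨b, hb, hyb⟩ := hLZ ι A s {i, l} j {a} ⟨i, Finset.mem_insert_self _ _⟩ (by
        intro n hn
        rw [Finset.mem_insert, Finset.mem_singleton] at hn
        rcases hn with rfl | rfl
        · exact hij
        · exact hlj) (by
        intro b hb
        rw [mem_singleton_iff] at hb
        subst hb
        rw [hseg.hends]
        refine ⟨?_, hseg.hmax⟩
        intro x hx
        simp only [mem_iUnion, Finset.mem_insert, Finset.mem_singleton, exists_prop]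
        rcases hx with rfl | hx
        · exact ⟨i, Or.inl rfl, hseg.pi⟩
        · rw [mem_singleton_iff] at hx
          subst hx
          exact ⟨l, Or.inr rfl, hseg.ql⟩) (by
        intro n hn x hxj hxn hx
        refine ⟨a, mem_singleton _, ?_⟩
        rw [Finset.mem_insert, Finset.mem_singleton] at hn
        rcases hn with rfl | rfl
        · have hxl : A.OnS s l x := hx l (by simp) (Ne.symm hne)
          have hpl : A.OnS s l p := hseg.sp l (Ne.symm hne) hseg.hlj
          have hxp : x = p := by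
            by_contra hcon
            have h1 := hS ι A n j l hij hil hjl p x (Ne.symm hcon) hseg.pi hseg.pj hxn hxj
            exact absurd h1 (not_lt.2 (same_Z2 hpl hxl).le)
          rw [hxp]
          exact hseg.germp
        · have hxi : A.OnS s i x := hx i (by simp) hne
          have hqi : A.OnS s i q := hseg.sq i hne hseg.hij
          have hxq : x = q := by
            by_contra hcon
            have h1 := hS ι A n j i hlj hli hji q x (Ne.symm hcon) hseg.ql hseg.qj hxn hxj
            exact absurd h1 (not_lt.2 (same_Z2 hqi hxi).le)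
          rw [hxq]
          exact hseg.germq) y hy (by
        intro n hn
        rw [Finset.mem_insert, Finset.mem_singleton] at hn
        rcases hn with rfl | rfl
        · exact hyi
        · exact hyl)
    rw [mem_singleton_iff] at hb
    subst hb
    exact hyb
  refine ⟨first, ?_⟩
  intro n hn hnj
  by_contra hcon
  rw [not_or] at hcon
  obtain ⟨hni, hnl⟩ := hcon
  have hnjne : n ≠ j := by
    intro h
    rw [h] at hnj
    exact A.orth_irrefl j hnj
  obtain ⟨y, y', hyy, hY⟩ := hP2 n j hnj
  have hy : y ∈ A.sph n ∩ A.sph j := by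
    rw [hY]
    exact Or.inl rfl
  have hy' : y' ∈ A.sph n ∩ A.sph j := by
    rw [hY]
    exact Or.inr rfl
  -- no crossing point of `n` and `j` is on the sides of `i` and `l`
  have hno : ∀ x ∈ A.sph n ∩ A.sph j, A.OnS s i x → A.OnS s l x → False := by
    intro x hx h1 h2
    have hxa := first x hx.2 h1 h2
    obtain ⟨z, -, hz⟩ := hseg.harc
    rw [hz] at hxa
    have h3 := connectedComponentIn_subset _ _ hxa
    exact h3.2 ⟨n, j, hnjne, hx.1, hx.2⟩
  by_cases h1 : A.orth n i
  · by_cases h2 : A.orth n l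
    · exact hG.1 i j l n hij hil (A.orth_symm h1) hjl (A.orth_symm hnj) (A.orth_symm h2)
    · have hF := hFa ι A s l n hl hn (Ne.symm hnl) (fun h => h2 (A.orth_symm h))
      have hsep := hS ι A n j i hnj h1 hji y y' hyy hy.1 hy.2 hy'.1 hy'.2
      rcases pick_Z2 (s := s) hsep with h3 | h3
      · exact hno y hy h3 (hF y hy.1)
      · exact hno y' hy' h3 (hF y' hy'.1)
  · have hFi := hFa ι A s i n hi hn (Ne.symm hni) (fun h => h1 (A.orth_symm h))
    by_cases h2 : A.orth n l
    · have hsep := hS ι A n j l hnj h2 hjl y y' hyy hy.1 hy.2 hy'.1 hy'.2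
      rcases pick_Z2 (s := s) hsep with h3 | h3
      · exact hno y hy (hFi y hy.1) h3
      · exact hno y' hy' (hFi y' hy'.1) h3
    · have hF := hFa ι A s l n hl hn (Ne.symm hnl) (fun h => h2 (A.orth_symm h))
      exact hno y hy (hFi y hy.1) (hF y hy.1)

end Pool.Agent.Helper56.OC
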