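import Mathlib
import Pool.Agent.Helper56.OC.St

set_option autoImplicit false

open Set Metric

namespace Pool.Agent.Helper56.OC

open Fam

private theorem orth_symm_Z3 {ι : Type} (A : Fam ι) {i j : ι} (h : A.orth i j) : A.orth j i := by
  unfold orth at h ⊢
  rw [norm_sub_rev, h]
  ring

private theorem not_orth_self_Z3 {ι : Type} (A : Fam ι) (i : ι) : ¬ A.orth i i := by
  unfold orth
  intro h
  have h1 := A.pos i
  rw [sub_self, norm_zero] at h
  have h2 : 0 < A.r i ^ 2 := pow_pos h1 2
  nlinarith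

private theorem not_mem_X_Z3 {ι : Type} [Fintype ι] [DecidableEq ι] {A : Fam ι} {s : Finset ι}
    {i j l : ι} {p q : ℂ} {a : Set ℂ} (h : A.Seg s i j l p q a) {y : ℂ} (hy : y ∈ a) :
    y ∉ A.X := by
  obtain ⟨y0, -, ha⟩ := h.harc
  rw [ha] at hy
  exact (connectedComponentIn_subset _ _ hy).2

theorem m_Z3 (hLZ : StLZ) (hP : StPts) (hFa : StFacs) : StZ3 := by
  intro ι _ _ A s i j m p q p' q' a a' h h' hqp hpq hjm hnjm hi hj hm hnj hnm
  obtain ⟨P1, P2, P3⟩ := hP ι A
  have oji : A.orth j i := (P1 j i h.hlj q h.ql h.qj).1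
  have omi : A.orth m i := (P1 m i h.hij p h.pi h.pj).1
  have two : ∀ n : ι, A.orth n i → ∀ x y z : ℂ, x ≠ y → x ∈ A.sph n → x ∈ A.sph i →
      y ∈ A.sph n → y ∈ A.sph i → z ∈ A.sph n → z ∈ A.sph i → z = x ∨ z = y := by
    intro n hn x y z hxy x1 x2 y1 y2 z1 z2
    obtain ⟨u, v, huv, he⟩ := P2 n i hn
    have hx : x = u ∨ x = v := by
      have : x ∈ A.sph n ∩ A.sph i := ⟨x1, x2⟩
      rw [he] at this
      simpa using this
    have hy : y = u ∨ y = v := by
      have : y ∈ A.sph n ∩ A.sph i := ⟨y1, y2⟩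
      rw [he] at this
      simpa using this
    have hz : z = u ∨ z = v := by
      have : z ∈ A.sph n ∩ A.sph i := ⟨z1, z2⟩
      rw [he] at this
      simpa using this
    rcases hx with rfl | rfl <;> rcases hy with rfl | rfl <;> rcases hz with rfl | rfl <;>
      simp_all
  have c1 : ∀ y ∈ A.sph i, A.OnS s j y → A.OnS s m y → y ∈ a ∨ y ∈ a' := by
    have key := hLZ ι A s {j, m} i {a, a'} ⟨j, by simp⟩ (by
      intro n hn
      simp only [Finset.mem_insert, Finset.mem_singleton] at hn
      rcases hn with rfl | rfl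
      · exact oji
      · exact omi) (by
      intro b hb
      rcases hb with rfl | hb
      · rw [h.hends]
        refine ⟨?_, h.hmax⟩
        rintro x (rfl | hx)
        · simp only [mem_iUnion]
          exact ⟨m, by simp, h.pi⟩
        · rw [mem_singleton_iff] at hx
          subst hx
          simp only [mem_iUnion]
          exact ⟨j, by simp, h.ql⟩
      · rw [mem_singleton_iff] at hb
        subst hb
        rw [h'.hends]
        refine ⟨?_, h'.hmax⟩
        rintro x (rfl | hx)
        · simp only [mem_iUnion]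
          exact ⟨j, by simp, h'.pi⟩
        · rw [mem_singleton_iff] at hx
          subst hx
          simp only [mem_iUnion]
          exact ⟨m, by simp, h'.ql⟩) (by
      intro n hn x hxi hxn _
      simp only [Finset.mem_insert, Finset.mem_singleton] at hn
      rcases hn with rfl | rfl
      · rcases two n oji q p' x hqp h.ql h.qj h'.pi h'.pj hxn hxi with rfl | rfl
        · exact ⟨a, by simp, h.germq⟩
        · exact ⟨a', by simp, h'.germp⟩
      · rcases two n omi p q' x hpq h.pi h.pj h'.ql h'.qj hxn hxi with rfl | rfl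
        · exact ⟨a, by simp, h.germp⟩
        · exact ⟨a', by simp, h'.germq⟩)
    intro y hy h1 h2
    obtain ⟨b, hb, hyb⟩ := key y hy (by
      intro n hn
      simp only [Finset.mem_insert, Finset.mem_singleton] at hn
      rcases hn with rfl | rfl
      · exact h1
      · exact h2)
    rcases hb with rfl | hb
    · exact Or.inl hyb
    · rw [mem_singleton_iff] at hb
      subst hb
      exact Or.inr hyb
  refine ⟨c1, ?_⟩
  intro n hn hni
  by_contra hcon
  rw [not_or] at hcon
  obtain ⟨n1, n2⟩ := hcon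
  have hne : n ≠ i := by
    rintro rfl
    exact not_orth_self_Z3 A n hni
  have q1 : ¬ A.orth j n := fun h1 => hne (hnj n hn (orth_symm_Z3 A h1))
  have q2 : ¬ A.orth m n := fun h1 => hne (hnm n hn (orth_symm_Z3 A h1))
  obtain ⟨y, y', -, he⟩ := P2 n i hni
  have hy : y ∈ A.sph n ∩ A.sph i := by
    rw [he]
    simp
  have f1 := hFa ι A s j n hj hn (Ne.symm n1) q1 y hy.1
  have f2 := hFa ι A s m n hm hn (Ne.symm n2) q2 y hy.1
  have hX : y ∈ A.X := ⟨n, i, hne, hy.1, hy.2⟩
  rcases c1 y hy.2 f1 f2 with h3 | h3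
  · exact not_mem_X_Z3 h h3 hX
  · exact not_mem_X_Z3 h' h3 hX

end Pool.Agent.Helper56.OC
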