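import Mathlib
import Pool.Agent.Helper56.OC.St

/-!
# Module Z4
-/

set_option autoImplicit false

open Set Metric

namespace Pool.Agent.Helper56.OC

open Fam

private theorem onS_sep_Z4 {ι : Type} (A : Fam ι) {s : Finset ι} {n : ι} {x y : ℂ}
    (h : A.g n x * A.g n y < 0) (hx : A.OnS s n x) : ¬ A.OnS s n y := by
  intro hy
  obtain ⟨hx0, hx1⟩ := hx
  obtain ⟨hy0, hy1⟩ := hy
  by_cases hn : n ∈ s
  · have h1 := hx1.2 hn
    have h2 := hy1.2 hn
    have := mul_pos_of_neg_of_neg h1 h2
    linarith
  · have h1 : 0 < A.g n x := lt_of_le_of_ne (not_lt.1 (fun h' => hn (hx1.1 h'))) (Ne.symm hx0)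
    have h2 : 0 < A.g n y := lt_of_le_of_ne (not_lt.1 (fun h' => hn (hy1.1 h'))) (Ne.symm hy0)
    have := mul_pos h1 h2
    linarith

private theorem onS_one_Z4 {ι : Type} (A : Fam ι) {s : Finset ι} {n : ι} {x y : ℂ}
    (h : A.g n x * A.g n y < 0) : A.OnS s n x ∨ A.OnS s n y := by
  have hx0 : A.g n x ≠ 0 := by
    intro h'
    rw [h', zero_mul] at h
    exact lt_irrefl _ h
  have hy0 : A.g n y ≠ 0 := by
    intro h'
    rw [h', mul_zero] at h
    exact lt_irrefl _ h
  rcases mul_neg_iff.1 h with ⟨h1, h2⟩ | ⟨h1, h2⟩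
  · by_cases hn : n ∈ s
    · exact Or.inr ⟨hy0, ⟨fun _ => hn, fun _ => h2⟩⟩
    · exact Or.inl ⟨hx0, ⟨fun h' => absurd h' (not_lt.2 h1.le), fun h' => absurd h' hn⟩⟩
  · by_cases hn : n ∈ s
    · exact Or.inl ⟨hx0, ⟨fun _ => hn, fun _ => h1⟩⟩
    · exact Or.inr ⟨hy0, ⟨fun h' => absurd h' (not_lt.2 h2.le), fun h' => absurd h' hn⟩⟩

theorem m_Z4 (hLZ : StLZ) (hS : StSep) (hP : StPts) (hFa : StFacs) : StZ4 := by
  intro ι _ _ A s i j m l p q a hseg hli hlj hlm hjm hnjm fi fj fm fl hnj hnm
  obtain ⟨P1, P2, P3⟩ := hP ι A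
  have hmi : A.orth m i := (P1 m i hseg.hij p hseg.pi hseg.pj).1
  have hji : A.orth j i := (P1 j i hseg.hlj q hseg.ql hseg.qj).1
  have hne : ∀ {u v : ι}, A.orth u v → u ≠ v := by
    intro u v h h'
    rw [h'] at h
    exact A.orth_irrefl v h
  have hsub : a ⊆ A.sph i \ A.X := by
    obtain ⟨y, _, rfl⟩ := hseg.harc
    exact connectedComponentIn_subset _ _
  have c1 : ∀ y ∈ A.sph i, A.OnS s j y → A.OnS s m y → A.OnS s l y → y ∈ a := by
    intro y hy hyj hym hyl
    have key := hLZ ι A s {j, m, l} i {a} ⟨j, by simp⟩ ?_ ?_ ?_ y hy ?_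
    · obtain ⟨a', ha', hy'⟩ := key
      rw [mem_singleton_iff] at ha'
      rwa [ha'] at hy'
    · intro n hn
      rw [Finset.mem_insert, Finset.mem_insert, Finset.mem_singleton] at hn
      rcases hn with rfl | rfl | rfl
      · exact hji
      · exact hmi
      · exact hli
    · intro a' ha'
      rw [mem_singleton_iff] at ha'
      subst ha'
      refine ⟨?_, ?_⟩
      · rw [hseg.hends]
        intro z hz
        rw [mem_insert_iff, mem_singleton_iff] at hz
        rw [mem_iUnion₂]
        rcases hz with rfl | rfl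
        · exact ⟨m, by simp, hseg.pi⟩
        · exact ⟨j, by simp, hseg.ql⟩
      · rw [hseg.hends]
        exact hseg.hmax
    · intro n hn t hti htn hcor
      rw [Finset.mem_insert, Finset.mem_insert, Finset.mem_singleton] at hn
      refine ⟨a, rfl, ?_⟩
      rcases hn with rfl | rfl | rfl
      · have hl : A.OnS s l t := hcor l (by simp) (hne hlj)
        by_cases htq : t = q
        · rw [htq]
          exact hseg.germq
        · exfalso
          have h1 := hS ι A i n l (A.orth_symm hji) (A.orth_symm hli) (A.orth_symm hlj) t q htq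
            hti htn hseg.qj hseg.ql
          exact onS_sep_Z4 A h1 hl (hseg.sq l (hne hlj) (hne hli))
      · have hl : A.OnS s l t := hcor l (by simp) (hne hlm)
        by_cases htp : t = p
        · rw [htp]
          exact hseg.germp
        · exfalso
          have h1 := hS ι A i n l (A.orth_symm hmi) (A.orth_symm hli) (A.orth_symm hlm) t p htp
            hti htn hseg.pj hseg.pi
          exact onS_sep_Z4 A h1 hl (hseg.sp l (hne hlm) (hne hli))
      · exfalso
        have hj : A.OnS s j t := hcor j (by simp) (hne (A.orth_symm hlj))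
        have hm : A.OnS s m t := hcor m (by simp) (hne (A.orth_symm hlm))
        obtain ⟨u, v, huv, huv2⟩ := P2 i n (A.orth_symm hli)
        have ht : t ∈ ({u, v} : Set ℂ) := by
          rw [← huv2]
          exact ⟨hti, htn⟩
        obtain ⟨t', ht', hti', htn'⟩ : ∃ t', t ≠ t' ∧ t' ∈ A.sph i ∧ t' ∈ A.sph n := by
          have hu : u ∈ A.sph i ∩ A.sph n := by rw [huv2]; simp
          have hv : v ∈ A.sph i ∩ A.sph n := by rw [huv2]; simp
          rw [mem_insert_iff, mem_singleton_iff] at ht
          rcases ht with rfl | rfl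
          · exact ⟨v, huv, hv.1, hv.2⟩
          · exact ⟨u, huv.symm, hu.1, hu.2⟩
        have h1 := hS ι A i n j (A.orth_symm hli) (A.orth_symm hji) hlj t t' ht' hti htn hti' htn'
        have h2 := hS ι A i n m (A.orth_symm hli) (A.orth_symm hmi) hlm t t' ht' hti htn hti' htn'
        have g1 := onS_sep_Z4 A h1 hj
        have g2 := onS_sep_Z4 A h2 hm
        have z1 : A.g j t' ≠ 0 := by
          intro h'
          rw [h', mul_zero] at h1
          exact lt_irrefl _ h1
        have z2 : A.g m t' ≠ 0 := by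
          intro h'
          rw [h', mul_zero] at h2
          exact lt_irrefl _ h2
        have e1 : PArr.sg s j = A.side j m :=
          (A.toPArr.mem_fac.1 fm) j (Finset.mem_univ _) hjm (fun h => hnjm (A.orth_symm h))
        have e2 : PArr.sg s m = A.side m j :=
          (A.toPArr.mem_fac.1 fj) m (Finset.mem_univ _) hjm.symm hnjm
        rcases A.compat hjm hnjm t' with h | h
        · apply g1
          refine ⟨z1, ?_⟩
          rw [h, ← e1]
          unfold PArr.sg
          rw [decide_eq_true_eq]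
        · apply g2
          refine ⟨z2, ?_⟩
          rw [h, ← e2]
          unfold PArr.sg
          rw [decide_eq_true_eq]
    · intro n hn
      rw [Finset.mem_insert, Finset.mem_insert, Finset.mem_singleton] at hn
      rcases hn with rfl | rfl | rfl
      · exact hyj
      · exact hym
      · exact hyl
  refine ⟨c1, ?_⟩
  intro n hn hni
  by_contra hcon
  push Not at hcon
  obtain ⟨n1, n2, n3⟩ := hcon
  have o1 : ¬ A.orth n j := by
    intro h
    rcases hnj n hn h with h' | h'
    · exact hne hni h'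
    · exact n3 h'
  have o2 : ¬ A.orth n m := by
    intro h
    rcases hnm n hn h with h' | h'
    · exact hne hni h'
    · exact n3 h'
  obtain ⟨u, v, huv, huv2⟩ := P2 n i hni
  have hu : u ∈ A.sph n ∩ A.sph i := by rw [huv2]; simp
  have hv : v ∈ A.sph n ∩ A.sph i := by rw [huv2]; simp
  have fin : ∀ y, y ∈ A.sph n → y ∈ A.sph i → A.OnS s l y → False := by
    intro y hyn hyi hyl
    have h1 : A.OnS s j y := hFa ι A s j n fj hn (Ne.symm n1) (fun h => o1 (A.orth_symm h)) y hyn
    have h2 : A.OnS s m y := hFa ι A s m n fm hn (Ne.symm n2) (fun h => o2 (A.orth_symm h)) y hyn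
    exact (hsub (c1 y hyi h1 h2 hyl)).2 ⟨n, i, hne hni, hyn, hyi⟩
  by_cases o3 : A.orth n l
  · have h1 := hS ι A n i l hni o3 (A.orth_symm hli) u v huv hu.1 hu.2 hv.1 hv.2
    rcases onS_one_Z4 A (s := s) h1 with h | h
    · exact fin u hu.1 hu.2 h
    · exact fin v hv.1 hv.2 h
  · exact fin u hu.1 hu.2 (hFa ι A s l n fl hn (Ne.symm n3) (fun h => o3 (A.orth_symm h)) u hu.1)

end Pool.Agent.Helper56.OC
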