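import Mathlib
import Pool.Agent.Helper56.OC.M_CIRC
import Pool.Agent.Helper56.OC.M_BOX
import Pool.Agent.Helper56.OC.M_SEP
import Pool.Agent.Helper56.OC.M_PTS
import Pool.Agent.Helper56.OC.M_FACE
import Pool.Agent.Helper56.OC.M_LOC
import Pool.Agent.Helper56.OC.M_ARC
import Pool.Agent.Helper56.OC.M_NEXT
import Pool.Agent.Helper56.OC.M_START
import Pool.Agent.Helper56.OC.M_ORB
import Pool.Agent.Helper56.OC.M_LZ
import Pool.Agent.Helper56.OC.M_FACS
import Pool.Agent.Helper56.OC.M_Z1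
import Pool.Agent.Helper56.OC.M_Z2
import Pool.Agent.Helper56.OC.M_Z3
import Pool.Agent.Helper56.OC.M_Z4
import Pool.Agent.Helper56.OC.M_CLS
import Pool.Agent.Helper56.OC.M_WALK
import Pool.Agent.Helper56.OC.M_G5
import Pool.Agent.Helper56.OC.M_GOOD
import Pool.Agent.Helper56.OC.M_TR

/-!
# All the topological modules together
-/

set_option autoImplicit false

namespace Pool.Agent.Helper56.OC

theorem loc_all : StLoc := m_LOC m_BOX m_PTS m_FACE

theorem arc_all : StArc := m_ARC m_PTS m_FACE loc_all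

theorem next_all : StNext := m_NEXT m_CIRC m_PTS m_FACE loc_all arc_all

theorem start_all : StStart := m_START m_CIRC m_PTS m_FACE loc_all arc_all next_all

theorem lz_all : StLZ := m_LZ m_CIRC m_PTS

theorem z1_all : StZ1 := m_Z1 lz_all m_SEP m_PTS m_FACS

theorem z2_all : StZ2 := m_Z2 lz_all m_SEP m_PTS m_FACS

theorem z3_all : StZ3 := m_Z3 lz_all m_PTS m_FACS

theorem z4_all : StZ4 := m_Z4 lz_all m_SEP m_PTS m_FACS

theorem cls_all : StCls := m_CLS m_PTS z1_all z2_all z3_all z4_all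

theorem walk_all : StWalk := m_WALK m_PTS m_FACE loc_all arc_all next_all start_all m_ORB

theorem g5_all : StG5 := m_G5 m_PTS m_FACE loc_all arc_all walk_all cls_all

/-- The disjoint small components of the nerve for the quadrangular faces with sign vector `s`. -/
theorem g5 {ι : Type} [Fintype ι] [DecidableEq ι] (A : Fam ι) (s : Finset ι) :
    ∃ C : Set ℂ → Finset ι, ∀ F, F ∈ A.quads → A.HasSign F s →
    (C F).Nonempty ∧ C F ⊆ A.toPArr.fac s ∧
    (∀ i ∈ C F, ∀ n ∈ A.toPArr.fac s, A.orth n i → n ∈ C F) ∧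
    (Small A (C F) ∨ Quad A (C F)) ∧
    (C F = A.toPArr.fac s → Quad A (C F)) ∧
    (∀ F', F' ∈ A.quads → A.HasSign F' s → F' ≠ F → Disjoint (C F) (C F')) :=
  g5_all ι A s (m_GOOD ι A)


end Pool.Agent.Helper56.OC
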