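import Mathlib
import Pool.Agent.Helper56.OC.G5All

/-!
# Cells with at most three facets of degree at most one have no quadrangular face
-/

set_option autoImplicit false

open Set

namespace Pool.Agent.Helper56.OC

open Fam

theorem nq {ι : Type} [Fintype ι] [DecidableEq ι] (A : Fam ι) (s : Finset ι)
    (hc : (A.toPArr.fac s).card ≤ 3)
    (hd : ∀ j ∈ A.toPArr.fac s, ∀ i ∈ A.toPArr.fac s, ∀ l ∈ A.toPArr.fac s, A.orth i j →
      A.orth l j → i = l) (F : Set ℂ) (hF : (A.arcs F).ncard = 4) (hs : A.HasSign F s) : False := by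
  classical
  obtain ⟨hP1, hP2, hP3⟩ := m_PTS ι A
  obtain ⟨-, hfr, -, hsgn, -, hfac, -⟩ := (m_FACE ι A).2 F s hs
  have hst := start_all ι A F s hs
  have harc := arc_all ι A F s hs
  -- every arc has a circle
  have key : ∀ a ∈ A.arcs F, ∃ j ∈ A.toPArr.fac s, ∃ y ∈ frontier F \ A.X, y ∈ A.sph j ∧
      a = A.arcAt j y ∧ ∀ y' ∈ frontier F \ A.X, y' ∈ A.sph j → y' ∈ a := by
    rintro a ⟨y, hy, rfl⟩
    obtain ⟨j, hyj, hcase⟩ := hst y hy
    have ha := (harc j y hyj hy.2 hy.1).2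
    refine ⟨j, hfac y hy.1 j hyj, y, hy, hyj, ha.symm, ?_⟩
    intro y' hy' hyj'
    rw [← ha]
    rcases hcase with ⟨-, h2⟩ | ⟨i, l, p, q, hseg, hpF, hqF⟩
    · rw [h2]; exact hyj'
    · have hif : i ∈ A.toPArr.fac s := hfac p hpF i hseg.pi
      have hlf : l ∈ A.toPArr.fac s := hfac q hqF l hseg.ql
      have hjf : j ∈ A.toPArr.fac s := hfac y hy.1 j hyj
      have hoi : A.orth i j := (hP1 i j hseg.hij p hseg.pi hseg.pj).1
      have hol : A.orth l j := (hP1 l j hseg.hlj q hseg.ql hseg.qj).1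
      have hil : i = l := hd j hjf i hif l hlf hoi hol
      subst hil
      have hz := (z1_all ι A s i j p q _ hseg hif hjf).1
      apply hz y' hyj'
      apply hsgn y' (frontier_subset_closure hy'.1) i
      intro h0
      apply hy'.2
      exact ⟨i, j, hseg.hij, (A.mem_sph).2 h0, hyj'⟩
  have hfin : (A.arcs F).Finite := Set.finite_of_ncard_ne_zero (by omega)
  obtain ⟨a0, ha0⟩ : (A.arcs F).Nonempty := Set.nonempty_of_ncard_ne_zero (by omega)
  haveI : Nonempty ι := ⟨(key a0 ha0).choose⟩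
  choose! J hJ using key
  have hmaps : ∀ a ∈ A.arcs F, J a ∈ (A.toPArr.fac s : Set ι) := fun a ha => (hJ a ha).1
  have hinj : Set.InjOn J (A.arcs F) := by
    intro a ha b hb hab
    obtain ⟨-, y, hy, hyj, hay, -⟩ := hJ a ha
    obtain ⟨-, z, hz, hzj, hbz, hball⟩ := hJ b hb
    have h1 : y ∈ b := hball y hy (by rw [← hab]; exact hyj)
    rw [hbz] at h1
    rw [hay, hbz, hab]
    rw [hab] at hyj
    unfold Fam.arcAt at h1 ⊢
    exact (connectedComponentIn_eq h1).symm
  have h3 := Set.ncard_le_ncard_of_injOn J hmaps hinj (Finset.finite_toSet _)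
  rw [Set.ncard_coe_finset] at h3
  omega

end Pool.Agent.Helper56.OC
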