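import Mathlib
import Pool.Agent.Helper56.OC.Frame3

/-!
# The choice of the root cell
-/

set_option autoImplicit false

open Finset

namespace Pool.Agent.Helper56.OC

namespace PArr

variable {ι : Type} [DecidableEq ι] [Fintype ι] (A : PArr ι)

/-- The frame with a rational valued function. -/
theorem frameQ (h4 : A.NoK4) (q : Finset ι → ℚ) (χ : ι → Finset ι → Finset ι → ℚ) {o : Finset ι}
    (h : ∀ s ∈ A.cellsF univ, q s ≤ (A.L (A.fac s) : ℚ) +
      ∑ i ∈ A.fac s, (if i ∈ A.near o s then (-1 : ℚ) else 1) *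
        χ i (A.lk (A.fac s) i) (A.near o s ∩ A.lk (A.fac s) i)) :
    ∑ s ∈ A.cellsF univ, q s ≤ 4 * (Fintype.card ι : ℚ) - 12 := by
  classical
  have h1 := sum_le_sum h
  rw [sum_add_distrib] at h1
  have h2 := A.sum_flow o χ
  have h3 : ∑ s ∈ A.cellsF univ, ∑ i ∈ A.fac s, (if i ∈ A.near o s then (-1 : ℚ) else 1) *
        χ i (A.lk (A.fac s) i) (A.near o s ∩ A.lk (A.fac s) i) = 0 := by
    rw [← h2]
    apply sum_congr rfl
    intro s _
    apply sum_congr rfl
    intro i hi
    congr 1
    by_cases hh : sg s i = sg o i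
    · rw [if_pos hh, if_neg (fun h' => ((A.mem_near).1 h').2 hh)]
    · rw [if_neg hh, if_pos ((A.mem_near).2 ⟨hi, hh⟩)]
  rw [h3, add_zero] at h1
  have h5 := A.sum_L h4
  have h6 : (∑ s ∈ A.cellsF univ, (A.L (A.fac s) : ℚ)) = 4 * (Fintype.card ι : ℚ) - 12 := by
    have := congrArg (fun z : ℤ => (z : ℚ)) h5
    push_cast at this
    exact this
  rw [h6] at h1
  exact h1

/-- A circle which is not a facet is separated from the cell by a facet. -/
theorem exists_sep_facet {s : Finset ι} (hs : s ∈ A.cellsF univ) {d : ι} (hd : d ∉ A.fac s) :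
    ∃ k ∈ A.fac s, k ≠ d ∧ ¬ A.orth k d ∧ sg s k ≠ A.side k d := by
  classical
  rw [mem_cellsF] at hs
  set D : Finset ι := univ.filter (fun k => k ≠ d ∧ ¬ A.orth k d ∧ sg s k ≠ A.side k d) with hD
  have hDne : D.Nonempty := by
    rw [mem_fac] at hd
    unfold IsFacet at hd
    push Not at hd
    obtain ⟨k, -, hk1, hk2, hk3⟩ := hd
    exact ⟨k, by rw [hD, mem_filter]; exact ⟨mem_univ _, hk1, fun h => hk2 (A.symm h), hk3⟩⟩
  set bl : ι → Finset ι := fun i => univ.filter
    (fun j => j ≠ i ∧ ¬ A.orth i j ∧ sg s j ≠ A.side j i) with hbl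
  obtain ⟨i, hi, hmin⟩ := exists_min_image D (fun i => (bl i).card) hDne
  have hi' := (mem_filter.1 hi).2
  refine ⟨i, ?_, hi'⟩
  obtain ⟨hid, hoid, hsi⟩ := hi'
  rw [mem_fac]
  by_contra hnf
  unfold IsFacet at hnf
  push Not at hnf
  obtain ⟨k, -, hki, hor, hk⟩ := hnf
  have hor' : ¬ A.orth k i := fun h => hor (A.symm h)
  have h1 : sg s i = A.side i k :=
    (hs.2 i (mem_univ i) k (mem_univ k) (Ne.symm hki) hor).resolve_right hk
  -- `i` separates `k` from `d`
  have h2 : A.side i k ≠ A.side i d := by rw [← h1]; exact hsi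
  obtain ⟨h3, h4⟩ := A.sep (Ne.symm hki) hid hor hoid h2
  have hkd : k ≠ d := by rintro rfl; exact h2 rfl
  have hkD : k ∈ D := by
    rw [hD, mem_filter]
    refine ⟨mem_univ k, hkd, h3, ?_⟩
    rw [h4]; exact hk
  have hsub : bl k ⊂ bl i := by
    rw [ssubset_iff_of_subset]
    · refine ⟨k, ?_, ?_⟩
      · rw [hbl]; simp only [mem_filter, mem_univ, true_and]
        exact ⟨hki, hor, hk⟩
      · rw [hbl]; simp only [mem_filter, mem_univ, true_and]
        exact fun h => h.1 rfl
    · intro j hj
      rw [hbl] at hj ⊢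
      simp only [mem_filter, mem_univ, true_and] at hj ⊢
      obtain ⟨hjk, hojk, hsj⟩ := hj
      have h5 : sg s k = A.side k j :=
        (hs.2 k (mem_univ k) j (mem_univ j) (Ne.symm hjk) hojk).resolve_right hsj
      have h6 : A.side k j ≠ A.side k i := by rw [← h5]; exact hk
      obtain ⟨h7, h8⟩ := A.sep (Ne.symm hjk) hki hojk hor' h6
      refine ⟨?_, fun h => h7 (A.symm h), ?_⟩
      · rintro rfl; exact h6 rfl
      · rw [h8]; exact hsj
  exact absurd (card_lt_card hsub) (not_lt.2 (hmin k hkD))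

/-- a path with three vertices, `b` is the centre -/
def IsP3 (V : Finset ι) (a b c : ι) : Prop :=
  A.orth b a ∧ A.orth b c ∧ ¬ A.orth a c ∧ a ≠ c ∧ V = {a, b, c}

/-- the bad facet sets for the root -/
def Bad (V : Finset ι) : Prop := V.card ≤ 2 ∨ ∃ a b c, A.IsP3 V a b c

theorem tog_comm {s : Finset ι} {a b : ι} (hab : a ≠ b) : tog (tog s a) b = tog (tog s b) a := by
  have h : sg (tog (tog s a) b) = sg (tog (tog s b) a) := by
    rw [sg_tog, sg_tog, sg_tog, sg_tog, Function.update_of_ne (Ne.symm hab),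
      Function.update_of_ne hab, Function.update_comm hab]
  ext j
  have := congrFun h j
  unfold sg at this
  simpa using this

theorem IsP3.swap {V : Finset ι} {a b c : ι} (h : A.IsP3 V a b c) : A.IsP3 V c b a := by
  obtain ⟨h1, h2, h3, h4, h5⟩ := h
  refine ⟨h2, h1, fun h => h3 (A.symm h), Ne.symm h4, ?_⟩
  rw [h5]
  ext x
  simp only [mem_insert, mem_singleton]
  tauto

theorem IsP3.lk_end {V : Finset ι} {a b c : ι} (h : A.IsP3 V a b c) : A.lk V a = {b} := by
  obtain ⟨h1, h2, h3, h4, h5⟩ := h
  ext x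
  rw [mem_lk, h5, mem_singleton]
  simp only [mem_insert, mem_singleton]
  constructor
  · rintro ⟨rfl | rfl | rfl, h⟩
    · exact absurd h (A.irrefl _)
    · rfl
    · exact absurd h h3
  · rintro rfl
    exact ⟨Or.inr (Or.inl rfl), A.symm h1⟩

theorem IsP3.lk_mid {V : Finset ι} {a b c : ι} (h : A.IsP3 V a b c) : A.lk V b = {a, c} := by
  obtain ⟨h1, h2, h3, h4, h5⟩ := h
  ext x
  rw [mem_lk, h5]
  simp only [mem_insert, mem_singleton]
  constructor
  · rintro ⟨rfl | rfl | rfl, h⟩
    · exact Or.inl rfl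
    · exact absurd h (A.irrefl _)
    · exact Or.inr rfl
  · rintro (rfl | rfl)
    · exact ⟨Or.inl rfl, h1⟩
    · exact ⟨Or.inr (Or.inr rfl), h2⟩

theorem IsP3.card {V : Finset ι} {a b c : ι} (h : A.IsP3 V a b c) : V.card = 3 := by
  obtain ⟨h1, h2, h3, h4, h5⟩ := h
  rw [h5, card_insert_of_notMem, card_insert_of_notMem, card_singleton]
  · rw [mem_singleton]; rintro rfl; exact A.irrefl _ h2
  · simp only [mem_insert, mem_singleton]
    rintro (rfl | rfl)
    · exact A.irrefl _ h1
    · exact h4 rfl

/-- In a bad set a vertex `a` with the only neighbour `b` is an end of a path, if the set is not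
`{a, b}`. -/
theorem bad_end {V : Finset ι} {a b : ι} (hV : A.Bad V) (ha : a ∈ V) (hl : A.lk V a = {b}) :
    V = {a, b} ∨ ∃ c, A.IsP3 V a b c := by
  have hb : b ∈ V ∧ A.orth a b := (A.mem_lk).1 (by rw [hl]; exact mem_singleton_self b)
  have hab : a ≠ b := by rintro rfl; exact A.irrefl _ hb.2
  rcases hV with h | ⟨x, y, z, h⟩
  · left
    symm
    apply eq_of_subset_of_card_le
    · intro w hw
      rw [mem_insert, mem_singleton] at hw
      rcases hw with rfl | rfl
      · exact ha
      · exact hb.1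
    · rw [card_pair hab]; exact h
  · right
    have h5 := h.2.2.2.2
    have ha' := ha
    rw [h5] at ha'
    simp only [mem_insert, mem_singleton] at ha'
    rcases ha' with rfl | rfl | rfl
    · have := h.lk_end
      rw [hl, singleton_inj] at this
      subst this
      exact ⟨z, h⟩
    · exfalso
      have h6 := h.lk_mid
      rw [hl] at h6
      have h7 := congrArg card h6
      rw [card_singleton, card_pair h.2.2.2.1] at h7
      omega
    · have := (IsP3.swap A h).lk_end
      rw [hl, singleton_inj] at this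
      subst this
      exact ⟨x, IsP3.swap A h⟩

/-- If all cells are bad and the facets of `o` form a path, then crossing one of the two ends leads to
a path again, if there are at least four circles. -/
theorem exists_end {o : Finset ι} (ho : o ∈ A.cellsF univ) (hbad : ∀ s ∈ A.cellsF univ,
    A.Bad (A.fac s)) {a b c : ι} (hP : A.IsP3 (A.fac o) a b c) (hn : 4 ≤ Fintype.card ι) :
    ∃ x ∈ A.fac o, ∃ y, A.IsP3 (A.fac (tog o x)) x b y := by
  classical
  by_contra hcon
  push Not at hcon
  have hP' := IsP3.swap A hP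
  have hmem : ∀ z, z ∈ A.fac o ↔ z = a ∨ z = b ∨ z = c := by
    intro z; rw [hP.2.2.2.2]; simp only [mem_insert, mem_singleton]
  have hao : a ∈ A.fac o := (hmem a).2 (Or.inl rfl)
  have hbo : b ∈ A.fac o := (hmem b).2 (Or.inr (Or.inl rfl))
  have hco : c ∈ A.fac o := (hmem c).2 (Or.inr (Or.inr rfl))
  have hab : a ≠ b := by rintro rfl; exact A.irrefl _ hP.1
  have hcb : c ≠ b := by rintro rfl; exact A.irrefl _ hP.2.1
  -- crossing an end
  have hend : ∀ x y, A.IsP3 (A.fac o) x b y → A.fac (tog o x) = {x, b} := by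
    intro x y h
    have hx : x ∈ A.fac o := by rw [h.2.2.2.2]; exact mem_insert_self _ _
    obtain ⟨h1, h2⟩ := A.tog_cell ho hx
    have h3 : A.lk (A.fac (tog o x)) x = {b} := by rw [lk_tog]; exact h.lk_end
    rcases A.bad_end (hbad _ h1) h2 h3 with h4 | ⟨z, h4⟩
    · exact h4
    · exact absurd h4 (hcon x hx z)
  -- a fourth circle
  obtain ⟨d, hd⟩ : ∃ d, d ∉ A.fac o := by
    by_contra hall
    push Not at hall
    have h1 : A.fac o = univ := by ext z; simp [hall z]
    have h2 := hP.card
    rw [h1, card_univ] at h2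
    omega
  have hda : d ≠ a := by rintro rfl; exact hd hao
  have hdb : d ≠ b := by rintro rfl; exact hd hbo
  have hdc : d ≠ c := by rintro rfl; exact hd hco
  have flip : ∀ {s : Finset ι} {k : ι}, sg s k ≠ A.side k d → sg (tog s k) k = A.side k d := by
    intro s k h
    rw [sg_tog_self]
    cases h1 : sg s k <;> cases h2 : A.side k d <;> simp_all
  have keep : ∀ {s : Finset ι} {k k' : ι}, k' ≠ k → sg (tog s k) k' = sg s k' := by
    intro s k k' h
    rw [sg_tog, Function.update_of_ne h]
  -- `b` separates `d` from `o`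
  have hb : ¬ A.orth b d ∧ sg o b ≠ A.side b d := by
    obtain ⟨k, hk, hkd, hko, hks⟩ := A.exists_sep_facet ho hd
    have aux : ∀ x y, A.IsP3 (A.fac o) x b y → x ≠ b → x ≠ d → k = x →
        ¬ A.orth b d ∧ sg o b ≠ A.side b d := by
      rintro x y h hxb hxd rfl
      obtain ⟨h1, h2⟩ := A.tog_cell ho hk
      have h3 : d ∉ A.fac (tog o k) := by
        rw [hend k y h]; simp only [mem_insert, mem_singleton]
        rintro (h | h)
        · exact hkd h.symm
        · exact hdb h
      obtain ⟨k', hk', hkd', hko', hks'⟩ := A.exists_sep_facet h1 h3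
      rw [hend k y h] at hk'
      simp only [mem_insert, mem_singleton] at hk'
      rcases hk' with rfl | rfl
      · exact absurd (flip hks) hks'
      · rw [keep (Ne.symm hxb)] at hks'
        exact ⟨hko', hks'⟩
    rcases (hmem k).1 hk with h | rfl | h
    · exact aux a c hP hab (Ne.symm hda) h
    · exact ⟨hko, hks⟩
    · exact aux c a hP' hcb (Ne.symm hdc) h
  obtain ⟨s1, s2⟩ := A.tog_cell ho hbo
  -- crossing the centre
  have hV2 : A.fac (tog o b) = A.fac o := by
    have h1 : A.lk (A.fac (tog o b)) b = {a, c} := by rw [lk_tog]; exact hP.lk_mid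
    have h2 : A.fac o ⊆ A.fac (tog o b) := by
      intro z hz
      rcases (hmem z).1 hz with rfl | rfl | rfl
      · exact ((A.mem_lk).1 (by rw [h1]; exact mem_insert_self _ _)).1
      · exact s2
      · exact ((A.mem_lk).1 (by rw [h1]; exact mem_insert_of_mem (mem_singleton_self _))).1
    symm
    apply eq_of_subset_of_card_le h2
    rw [hP.card]
    rcases hbad _ s1 with h | ⟨x, y, z, h⟩
    · omega
    · exact h.card.le
  have hd2 : d ∉ A.fac (tog o b) := by rw [hV2]; exact hd
  obtain ⟨k, hk, hkd, hko, hks⟩ := A.exists_sep_facet s1 hd2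
  have aux2 : ∀ x y, A.IsP3 (A.fac o) x b y → x ≠ b → x ≠ d → k = x → False := by
    rintro x y h hxb hxd rfl
    obtain ⟨t1, t2⟩ := A.tog_cell s1 hk
    have h3 : A.lk (A.fac (tog (tog o b) k)) k = {b} := by rw [lk_tog, hV2]; exact h.lk_end
    have hk0 : k ∈ A.fac o := by rw [hV2] at hk; exact hk
    have h4 : A.lk (A.fac (tog (tog o b) k)) b = {k} := by
      rw [tog_comm (Ne.symm hxb), lk_tog, hend k y h]
      ext z
      rw [mem_lk, mem_singleton]
      simp only [mem_insert, mem_singleton]
      constructor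
      · rintro ⟨rfl | rfl, h'⟩
        · rfl
        · exact absurd h' (A.irrefl _)
      · rintro rfl
        exact ⟨Or.inl rfl, h.1⟩
    rcases A.bad_end (hbad _ t1) t2 h3 with h5 | ⟨z, h5⟩
    · have h6 : d ∉ A.fac (tog (tog o b) k) := by
        rw [h5]; simp only [mem_insert, mem_singleton]
        rintro (h | h)
        · exact hkd h.symm
        · exact hdb h
      obtain ⟨k', hk', hkd', hko', hks'⟩ := A.exists_sep_facet t1 h6
      rw [h5] at hk'
      simp only [mem_insert, mem_singleton] at hk'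
      rcases hk' with rfl | rfl
      · exact hks' (flip hks)
      · rw [keep (Ne.symm hxb)] at hks'
        exact hks' (flip hb.2)
    · have h6 := h5.lk_mid
      rw [h4] at h6
      have h7 := congrArg Finset.card h6
      rw [card_singleton, card_pair h5.2.2.2.1] at h7
      omega
  rw [hV2] at hk
  rcases (hmem k).1 hk with h | rfl | h
  · exact aux2 a c hP hab (Ne.symm hda) h
  · exact hks (flip hb.2)
  · exact aux2 c a hP' hcb (Ne.symm hdc) h

/-- the value of a cell: `L + ∑ ± χ` -/
noncomputable def val (χ : ι → Finset ι → Finset ι → ℚ) (V T : Finset ι) : ℚ :=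
  (A.L V : ℚ) + ∑ i ∈ V, (if i ∈ T then (-1 : ℚ) else 1) * χ i (A.lk V i) (T ∩ A.lk V i)

theorem near_self (o : Finset ι) : A.near o o = ∅ := by
  ext i
  rw [mem_near]
  simp

theorem near_tog_self {o : Finset ι} {x : ι} (ho : o ∈ A.cellsF univ) (hx : x ∈ A.fac o) :
    A.near o (tog o x) = {x} := by
  ext i
  rw [mem_near, mem_singleton]
  constructor
  · rintro ⟨-, h⟩
    by_contra hne
    rw [sg_tog, Function.update_of_ne hne] at h
    exact h rfl
  · rintro rfl
    refine ⟨(A.tog_cell ho hx).2, ?_⟩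
    rw [sg_tog_self]
    cases sg o i <;> simp

/-- **The frame with the choice of the root.** -/
theorem frame_root (h4 : A.NoK4) (hn : 4 ≤ Fintype.card ι) (q : Finset ι → ℕ)
    (χ : ι → Finset ι → Finset ι → ℚ)
    (H1 : ∀ o ∈ A.cellsF univ, ∀ s ∈ A.cellsF univ, s ≠ o →
      (q s : ℚ) ≤ A.val χ (A.fac s) (A.near o s))
    (H2 : ∀ s ∈ A.cellsF univ, ¬ A.Bad (A.fac s) → (q s : ℚ) ≤ A.val χ (A.fac s) ∅)
    (H3 : ∀ s ∈ A.cellsF univ, (A.fac s).card ≤ 2 → q s = 0)
    (H4 : ∀ s ∈ A.cellsF univ, ∀ a b c, A.IsP3 (A.fac s) a b c →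
      (q s : ℚ) ≤ A.val χ (A.fac s) ∅ + 2)
    (H5 : ∀ s ∈ A.cellsF univ, ∀ a b c, A.IsP3 (A.fac s) a b c →
      (q s : ℚ) + 2 ≤ A.val χ (A.fac s) {a}) :
    (∑ s ∈ A.cellsF univ, (q s : ℚ)) ≤ 4 * (Fintype.card ι : ℚ) - 12 := by
  classical
  by_cases hroot : ∃ o ∈ A.cellsF univ, ¬ A.Bad (A.fac o)
  · obtain ⟨o, ho, hb⟩ := hroot
    apply A.frameQ h4 (fun s => (q s : ℚ)) χ (o := o)
    intro s hs
    by_cases hso : s = o
    · subst hso
      have := H2 s hs hb
      unfold val at this
      rw [A.near_self]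
      exact this
    · exact H1 o ho s hs hso
  · push Not at hroot
    by_cases hP : ∃ o ∈ A.cellsF univ, ∃ a b c, A.IsP3 (A.fac o) a b c
    · obtain ⟨o, ho, a, b, c, hP⟩ := hP
      obtain ⟨x, hx, y, hxy⟩ := A.exists_end ho hroot hP hn
      obtain ⟨t1, t2⟩ := A.tog_cell ho hx
      set s1 := tog o x with hs1
      have hne : s1 ≠ o := by
        intro h
        have h2 := congrFun (congrArg sg h) x
        rw [hs1, sg_tog_self] at h2
        cases h3 : sg o x <;> simp [h3] at h2
      have key := A.frameQ h4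
        (fun s => (q s : ℚ) + (if s = o then -2 else 0) + (if s = s1 then 2 else 0)) χ (o := o) ?_
      · rw [sum_add_distrib, sum_add_distrib, sum_ite_eq', sum_ite_eq', if_pos ho, if_pos t1] at key
        linarith
      · intro s hs
        by_cases hso : s = o
        · subst hso
          have := H4 s hs a b c hP
          unfold val at this
          rw [A.near_self, if_pos rfl, if_neg (Ne.symm hne)]
          linarith
        · rw [if_neg hso]
          by_cases hs1' : s = s1
          · rw [if_pos hs1', hs1']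
            have := H5 s1 t1 x b y hxy
            rw [← A.near_tog_self ho hx] at this
            unfold val at this
            linarith
          · rw [if_neg hs1']
            have := H1 o ho s hs hso
            unfold val at this
            linarith
    · push Not at hP
      have h0 : ∀ s ∈ A.cellsF univ, (q s : ℚ) = 0 := by
        intro s hs
        rcases hroot s hs with h | ⟨a, b, c, h⟩
        · rw [H3 s hs h]; rfl
        · exact absurd h (hP s hs a b c)
      rw [sum_congr rfl h0, sum_const_zero]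
      have : (4 : ℚ) ≤ Fintype.card ι := by exact_mod_cast hn
      linarith

end PArr

end Pool.Agent.Helper56.OC
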