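import Mathlib
import Pool.Agent.Helper56.OC.NQ
import Pool.Agent.Helper56.OC.Root

/-!
# Counting the quadrangular faces cell by cell
-/

set_option autoImplicit false

open Set

namespace Pool.Agent.Helper56.OC

open Fam

variable {ι : Type} [Fintype ι] [DecidableEq ι] (A : Fam ι)

/-- the quadrangular faces with sign vector `s` -/
def qset (s : Finset ι) : Set (Set ℂ) := {F | F ∈ A.quads ∧ A.HasSign F s}

/-- their number -/
noncomputable def qs (s : Finset ι) : ℕ := (qset A s).ncard

/-- `C` is closed under orthogonality in `V` -/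
def Clo (V C : Finset ι) : Prop := C ⊆ V ∧ ∀ i ∈ C, ∀ n ∈ V, A.orth n i → n ∈ C

theorem qset_fam (s : Finset ι) : (qset A s).Finite ∧ ∃ FF : Finset (Finset ι), FF.card = qs A s ∧
    (∀ C ∈ FF, C.Nonempty ∧ Clo A (A.toPArr.fac s) C ∧ (Small A C ∨ Quad A C) ∧
      (C = A.toPArr.fac s → Quad A C)) ∧
    (∀ C ∈ FF, ∀ C' ∈ FF, C ≠ C' → Disjoint C C') := by
  classical
  obtain ⟨C, hC⟩ := g5 A s
  have hinj : Set.InjOn C (qset A s) := by
    intro F hF F' hF' h
    by_contra hne
    have h1 := (hC F hF.1 hF.2).2.2.2.2.2 F' hF'.1 hF'.2 (Ne.symm hne)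
    rw [← h, Finset.disjoint_self_iff_empty] at h1
    exact (hC F hF.1 hF.2).1.ne_empty h1
  have hfin : (qset A s).Finite :=
    Set.Finite.of_finite_image (Set.toFinite _) hinj
  refine ⟨hfin, hfin.toFinset.image C, ?_, ?_, ?_⟩
  · rw [Finset.card_image_of_injOn (by rw [hfin.coe_toFinset]; exact hinj)]
    unfold qs
    rw [Set.ncard_eq_toFinset_card _ hfin]
  · intro D hD
    rw [Finset.mem_image] at hD
    obtain ⟨F, hF, rfl⟩ := hD
    rw [hfin.mem_toFinset] at hF
    obtain ⟨h1, h2, h3, h4, h5, -⟩ := hC F hF.1 hF.2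
    exact ⟨h1, ⟨h2, h3⟩, h4, h5⟩
  · intro D hD D' hD' hne
    rw [Finset.mem_image] at hD hD'
    obtain ⟨F, hF, rfl⟩ := hD
    obtain ⟨F', hF', rfl⟩ := hD'
    rw [hfin.mem_toFinset] at hF hF'
    exact (hC F hF.1 hF.2).2.2.2.2.2 F' hF'.1 hF'.2 (fun h => hne (by rw [h]))

theorem quads_le : A.quads.Finite ∧
    A.quads.ncard ≤ ∑ s ∈ A.toPArr.cellsF Finset.univ, qs A s := by
  classical
  have hsub : A.quads ⊆ ⋃ s ∈ A.toPArr.cellsF Finset.univ, qset A s := by
    intro F hF
    obtain ⟨s, hs⟩ := (m_FACE ι A).1 F hF.1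
    rw [Set.mem_iUnion₂]
    exact ⟨s, ((m_FACE ι A).2 F s hs).2.2.2.2.1, hF, hs⟩
  have hfin : (⋃ s ∈ A.toPArr.cellsF Finset.univ, qset A s).Finite :=
    Set.Finite.biUnion (Finset.finite_toSet _) (fun s _ => (qset_fam A s).1)
  refine ⟨hfin.subset hsub, (Set.ncard_le_ncard hsub hfin).trans ?_⟩
  unfold qs
  have key : ∀ T : Finset (Finset ι), (⋃ s ∈ T, qset A s).ncard ≤ ∑ s ∈ T, (qset A s).ncard := by
    intro T
    induction T using Finset.induction_on with
    | empty => simp
    | insert a T ha ih =>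
      rw [Finset.sum_insert ha, Finset.set_biUnion_insert]
      exact (Set.ncard_union_le _ _).trans (by omega)
  exact key _

/-- cells with at most three facets of degree at most one have no quadrangular face -/
theorem qs_zero (s : Finset ι) (hc : (A.toPArr.fac s).card ≤ 3)
    (hd : ∀ j ∈ A.toPArr.fac s, ∀ i ∈ A.toPArr.fac s, ∀ l ∈ A.toPArr.fac s, A.orth i j →
      A.orth l j → i = l) : qs A s = 0 := by
  unfold qs
  rw [Set.ncard_eq_zero (qset_fam A s).1, Set.eq_empty_iff_forall_notMem]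
  intro F hF
  exact nq A s hc hd F hF.1.2 hF.2

theorem qs_zero_two (s : Finset ι) (hc : (A.toPArr.fac s).card ≤ 2) : qs A s = 0 := by
  classical
  apply qs_zero A s (by omega)
  intro j hj i hi l hl hij hlj
  by_contra hne
  have h1 : ({j, i, l} : Finset ι) ⊆ A.toPArr.fac s := by
    intro z hz
    simp only [Finset.mem_insert, Finset.mem_singleton] at hz
    rcases hz with rfl | rfl | rfl <;> assumption
  have h2 := Finset.card_le_card h1
  rw [Finset.card_insert_of_notMem, Finset.card_pair hne] at h2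
  · omega
  · simp only [Finset.mem_insert, Finset.mem_singleton]
    rintro (rfl | rfl)
    · exact A.orth_irrefl _ hij
    · exact A.orth_irrefl _ hlj

end Pool.Agent.Helper56.OC
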