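import Mathlib
import Pool.Agent.Helper56.OC.Cnt

/-!
# The final theorem from the local inequalities
-/

set_option autoImplicit false

open Finset

namespace Pool.Agent.Helper56.OC

open Fam

variable {ι : Type} [Fintype ι] [DecidableEq ι] (A : Fam ι)

/-- a family of disjoint closed small sets, as in `qset_fam` -/
def QFam (V : Finset ι) (FF : Finset (Finset ι)) : Prop :=
  (∀ C ∈ FF, C.Nonempty ∧ Clo A V C ∧ (Small A C ∨ Quad A C) ∧ (C = V → Quad A C)) ∧
  (∀ C ∈ FF, ∀ C' ∈ FF, C ≠ C' → Disjoint C C')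

/-- The local inequalities for the table `c` (a function of the link and the marks). -/
structure Glued (c : Finset ι → Finset ι → ℚ) : Prop where
  g1 : ∀ s ∈ A.toPArr.cellsF univ, ∀ T ⊆ A.toPArr.fac s, T.Nonempty → A.toPArr.IsClq T →
    ∀ FF, QFam A (A.toPArr.fac s) FF → (FF.card : ℚ) ≤ A.toPArr.val (fun _ => c) (A.toPArr.fac s) T
  g2 : ∀ s ∈ A.toPArr.cellsF univ, 4 ≤ (A.toPArr.fac s).card →
    ∀ FF, QFam A (A.toPArr.fac s) FF → (FF.card : ℚ) ≤ A.toPArr.val (fun _ => c) (A.toPArr.fac s) ∅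
  g3 : ∀ s ∈ A.toPArr.cellsF univ, (A.toPArr.fac s).card = 3 →
    (¬ ∃ x y z, A.toPArr.IsP3 (A.toPArr.fac s) x y z) →
    0 ≤ A.toPArr.val (fun _ => c) (A.toPArr.fac s) ∅
  g4 : ∀ s ∈ A.toPArr.cellsF univ, ∀ x y z, A.toPArr.IsP3 (A.toPArr.fac s) x y z →
    -1 ≤ A.toPArr.val (fun _ => c) (A.toPArr.fac s) ∅
  g5 : ∀ s ∈ A.toPArr.cellsF univ, ∀ x y z, A.toPArr.IsP3 (A.toPArr.fac s) x y z →
    3 ≤ A.toPArr.val (fun _ => c) (A.toPArr.fac s) {x}

/-- if `V` is a clique or a path, a closed nonempty subset is everything -/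
theorem clo_all {V C : Finset ι} (hC : C.Nonempty) (hV : Clo A V C) {j : ι} (hj : j ∈ V)
    (hstar : ∀ i ∈ V, i ≠ j → A.orth i j) : C = V := by
  have hjC : j ∈ C := by
    obtain ⟨i, hi⟩ := hC
    by_cases hij : i = j
    · rw [← hij]; exact hi
    · exact hV.2 i hi j hj (A.orth_symm (hstar i (hV.1 hi) hij))
  apply subset_antisymm hV.1
  intro i hi
  by_cases hij : i = j
  · rw [hij]; exact hjC
  · exact hV.2 j hjC i hi (hstar i hi hij)

/-- cells with a facet orthogonal to all other facets have at most one quadrangular face -/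
theorem qs_le_one {s : Finset ι} {j : ι} (hj : j ∈ A.toPArr.fac s)
    (hstar : ∀ i ∈ A.toPArr.fac s, i ≠ j → A.orth i j) :
    qs A s ≤ 1 ∧ (qs A s = 0 ∨ Quad A (A.toPArr.fac s)) := by
  obtain ⟨-, FF, hc, h1, h2⟩ := qset_fam A s
  have hall : ∀ C ∈ FF, C = A.toPArr.fac s := fun C hC =>
    clo_all A (h1 C hC).1 (h1 C hC).2.1 hj hstar
  constructor
  · rw [← hc, Finset.card_le_one]
    intro C hC C' hC'
    rw [hall C hC, hall C' hC']
  · rcases FF.eq_empty_or_nonempty with h | ⟨C, hC⟩
    · left; rw [← hc, h, card_empty]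
    · right
      have := (h1 C hC).2.2.2 (hall C hC)
      rw [hall C hC] at this
      exact this

/-- cells with three facets which do not form a path have no quadrangular face -/
theorem qs_three {s : Finset ι} (hc : (A.toPArr.fac s).card = 3)
    (hP : ¬ ∃ x y z, A.toPArr.IsP3 (A.toPArr.fac s) x y z) : qs A s = 0 := by
  by_cases hd : ∀ j ∈ A.toPArr.fac s, ∀ i ∈ A.toPArr.fac s, ∀ l ∈ A.toPArr.fac s, A.orth i j →
      A.orth l j → i = l
  · exact qs_zero A s (by omega) hd
  · push Not at hd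
    obtain ⟨j, hj, i, hi, l, hl, hij, hlj, hil⟩ := hd
    have hji : j ≠ i := fun h => A.orth_irrefl i (by rw [h] at hij; exact hij)
    have hjl : j ≠ l := fun h => A.orth_irrefl l (by rw [h] at hlj; exact hlj)
    have hV : ({i, j, l} : Finset ι) = A.toPArr.fac s := by
      apply eq_of_subset_of_card_le
      · intro z hz
        simp only [mem_insert, mem_singleton] at hz
        rcases hz with rfl | rfl | rfl <;> assumption
      · rw [hc, card_insert_of_notMem, card_pair hjl]
        simp only [mem_insert, mem_singleton]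
        rintro (h | h)
        · exact hji h.symm
        · exact hil h
    have hil' : A.orth i l := by
      by_contra hn
      exact hP ⟨i, j, l, A.orth_symm hij, A.orth_symm hlj, hn, hil, hV.symm⟩
    have hstar : ∀ z ∈ A.toPArr.fac s, z ≠ j → A.orth z j := by
      intro z hz hzj
      rw [← hV] at hz
      simp only [mem_insert, mem_singleton] at hz
      rcases hz with rfl | rfl | rfl
      · exact hij
      · exact absurd rfl hzj
      · exact hlj
    have hcl : ∀ x ∈ A.toPArr.fac s, ∀ y ∈ A.toPArr.fac s, x ≠ y → A.orth x y := by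
      intro x hx y hy hxy
      rw [← hV] at hx hy
      simp only [mem_insert, mem_singleton] at hx hy
      have hji' := A.orth_symm hij
      have hjl' := A.orth_symm hlj
      have hli := A.orth_symm hil'
      rcases hx with rfl | rfl | rfl <;> rcases hy with rfl | rfl | rfl <;>
        first
          | assumption
          | exact absurd rfl hxy
    rcases (qs_le_one A hj hstar).2 with h | h
    · exact h
    · exfalso
      rcases h with ⟨a, b, d, -, -, h3, h4, h5⟩ | ⟨a, b, d, e, h1, h2, h3, h4, h5, h6, h7, h8⟩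
      · apply h3
        apply hcl _ _ _ _ h4
        · rw [h5]; simp
        · rw [h5]; simp
      · apply h6
        apply hcl _ _ _ _ h7
        · rw [h8]; simp
        · rw [h8]; simp

theorem final_of_glued {c : Finset ι → Finset ι → ℚ} (h : Glued A c) (hn : 4 ≤ Fintype.card ι)
    (h4 : A.toPArr.NoK4) : A.quads.Finite ∧ A.quads.ncard + 12 ≤ 4 * Fintype.card ι := by
  obtain ⟨hfin, hle⟩ := quads_le A
  refine ⟨hfin, ?_⟩
  have hstarP : ∀ s x y z, A.toPArr.IsP3 (A.toPArr.fac s) x y z →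
      ∀ i ∈ A.toPArr.fac s, i ≠ y → A.orth i y := by
    intro s x y z hP i hi hiy
    rw [hP.2.2.2.2] at hi
    simp only [mem_insert, mem_singleton] at hi
    rcases hi with rfl | rfl | rfl
    · exact A.orth_symm hP.1
    · exact absurd rfl hiy
    · exact A.orth_symm hP.2.1
  have hyP : ∀ s x y z, A.toPArr.IsP3 (A.toPArr.fac s) x y z → y ∈ A.toPArr.fac s := by
    intro s x y z hP
    rw [hP.2.2.2.2]; simp
  have key := A.toPArr.frame_root h4 hn (qs A) (fun _ => c) ?_ ?_ ?_ ?_ ?_
  · have h1 : ((A.quads.ncard : ℕ) : ℚ) ≤ ∑ s ∈ A.toPArr.cellsF univ, (qs A s : ℚ) := by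
      exact_mod_cast hle
    have h2 : ((A.quads.ncard : ℕ) : ℚ) + 12 ≤ 4 * (Fintype.card ι : ℚ) := by linarith
    exact_mod_cast h2
  · intro o ho s hs hso
    obtain ⟨-, FF, hc, h1, h2⟩ := qset_fam A s
    rw [← hc]
    apply h.g1 s hs _ _ (A.toPArr.near_nonempty ho hs hso) (A.toPArr.near_clq ho) FF ⟨h1, h2⟩
    intro i hi
    exact (A.toPArr.mem_near.1 hi).1
  · intro s hs hb
    unfold PArr.Bad at hb
    push Not at hb
    obtain ⟨hb1, hb2⟩ := hb
    by_cases h3 : (A.toPArr.fac s).card = 3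
    · have hP : ¬ ∃ x y z, A.toPArr.IsP3 (A.toPArr.fac s) x y z := by
        rintro ⟨x, y, z, hP⟩; exact hb2 x y z hP
      rw [qs_three A h3 hP]
      exact_mod_cast h.g3 s hs h3 hP
    · obtain ⟨-, FF, hc, h1, h2⟩ := qset_fam A s
      rw [← hc]
      exact h.g2 s hs (by omega) FF ⟨h1, h2⟩
  · intro s _ hc
    exact qs_zero_two A s hc
  · intro s hs x y z hP
    have h1 := (qs_le_one A (hyP s x y z hP) (hstarP s x y z hP)).1
    have h2 := h.g4 s hs x y z hP
    have h3 : (qs A s : ℚ) ≤ 1 := by exact_mod_cast h1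
    linarith
  · intro s hs x y z hP
    have h1 := (qs_le_one A (hyP s x y z hP) (hstarP s x y z hP)).1
    have h2 := h.g5 s hs x y z hP
    have h3 : (qs A s : ℚ) ≤ 1 := by exact_mod_cast h1
    linarith

/-- **Final theorem** (from the local inequalities). -/
theorem final_main (hgl : ∀ (ι : Type) [Fintype ι] [DecidableEq ι] (A : Fam ι),
      ∃ c : Finset ι → Finset ι → ℚ, Glued A c)
    (hk4 : ∀ (ι : Type) [Fintype ι] [DecidableEq ι] (A : Fam ι), A.toPArr.NoK4)
    (S : Finset Circ) (hS : IsArrangement S) (hn : 4 ≤ S.card) :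
    (quadFaces S).Finite ∧ (quadFaces S).ncard ≤ 4 * (S.card - 3) := by
  classical
  obtain ⟨A, hA⟩ := m_TR S hS
  obtain ⟨c, hc⟩ := hgl _ A
  have h1 := final_of_glued A hc (by rw [Fintype.card_coe]; exact hn) (hk4 _ A)
  rw [hA]
  refine ⟨h1.1, ?_⟩
  have h2 := h1.2
  rw [Fintype.card_coe] at h2
  omega

end Pool.Agent.Helper56.OC
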