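import Mathlib
import Pool.Agent.Helper79.OC.Tab

/-!
# The weight `L` through degrees, and closed blocks
-/

set_option autoImplicit false

open Finset

namespace Pool.Agent.Helper56.OC

namespace PArr

variable {ι : Type} [DecidableEq ι] (A : PArr ι)

theorem mem_lk0 {V : Finset ι} {i j : ι} : j ∈ A.lk V i ↔ j ∈ V ∧ A.orth i j := by
  classical
  unfold lk; rw [mem_filter]

/-- number of cliques of size `j` -/
noncomputable def nk (V : Finset ι) (j : ℕ) : ℕ := ((A.clqs V).filter (fun K => K.card = j)).card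

theorem nk_zero (V : Finset ι) : A.nk V 0 = 1 := by
  unfold nk
  rw [card_eq_one]
  refine ⟨∅, ?_⟩
  ext K
  rw [mem_filter, mem_clqs, mem_singleton, card_eq_zero]
  refine ⟨fun h => h.2, fun h => ⟨⟨?_, ?_⟩, h⟩⟩
  · rw [h]; exact empty_subset V
  · rw [h]; intro i hi; exact absurd hi (notMem_empty i)

theorem nk_one (V : Finset ι) : A.nk V 1 = V.card := by
  unfold nk
  rw [← card_image_of_injective V singleton_injective]
  congr 1
  ext K
  rw [mem_filter, mem_clqs, mem_image, card_eq_one]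
  constructor
  · rintro ⟨⟨h, -⟩, i, rfl⟩
    exact ⟨i, h (mem_singleton_self i), rfl⟩
  · rintro ⟨i, hi, rfl⟩
    refine ⟨⟨?_, ?_⟩, i, rfl⟩
    · intro j hj; rw [mem_singleton] at hj; rw [hj]; exact hi
    · intro a ha b hb hab
      rw [mem_singleton] at ha hb
      exact absurd (ha.trans hb.symm) hab

theorem nk_succ (V : Finset ι) (j : ℕ) : (j + 1) * A.nk V (j + 1) = ∑ v ∈ V, A.nk (A.lk V v) j := by
  classical
  have h1 : (j + 1) * A.nk V (j + 1) =
      ∑ K ∈ (A.clqs V).filter (fun K => K.card = j + 1), ∑ v ∈ V, if v ∈ K then 1 else 0 := by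
    unfold nk
    rw [mul_comm, ← smul_eq_mul, ← sum_const]
    apply sum_congr rfl
    intro K hK
    rw [mem_filter, mem_clqs] at hK
    rw [← sum_filter, ← card_eq_sum_ones, ← hK.2]
    congr 1
    ext v
    rw [mem_filter]
    exact ⟨fun h => ⟨hK.1.1 h, h⟩, fun h => h.2⟩
  rw [h1, sum_comm]
  apply sum_congr rfl
  intro v hv
  rw [← sum_filter, ← card_eq_sum_ones]
  unfold nk
  apply card_bij (fun K _ => K.erase v)
  · intro K hK
    rw [mem_filter, mem_filter, mem_clqs] at hK
    obtain ⟨⟨⟨h2, h3⟩, h4⟩, h5⟩ := hK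
    rw [mem_filter, mem_clqs]
    refine ⟨⟨?_, ?_⟩, ?_⟩
    · intro w hw
      rw [mem_erase] at hw
      rw [mem_lk0]
      exact ⟨h2 hw.2, h3 v h5 w hw.2 (Ne.symm hw.1)⟩
    · intro a ha b hb hab
      exact h3 a (mem_of_mem_erase ha) b (mem_of_mem_erase hb) hab
    · rw [card_erase_of_mem h5, h4]; rfl
  · intro K hK K' hK' h
    rw [mem_filter] at hK hK'
    have e1 := insert_erase hK.2
    have e2 := insert_erase hK'.2
    rw [← e1, ← e2, h]
  · intro K' hK'
    rw [mem_filter, mem_clqs] at hK'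
    obtain ⟨⟨h2, h3⟩, h4⟩ := hK'
    have hvK : v ∉ K' := fun h => A.irrefl v ((A.mem_lk0).1 (h2 h)).2
    refine ⟨insert v K', ?_, erase_insert hvK⟩
    rw [mem_filter, mem_filter, mem_clqs]
    refine ⟨⟨⟨?_, ?_⟩, ?_⟩, mem_insert_self v K'⟩
    · intro w hw
      rw [mem_insert] at hw
      rcases hw with rfl | hw
      · exact hv
      · exact ((A.mem_lk0).1 (h2 hw)).1
    · intro a ha b hb hab
      rw [mem_insert] at ha hb
      rcases ha with rfl | ha <;> rcases hb with rfl | hb
      · exact absurd rfl hab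
      · exact ((A.mem_lk0).1 (h2 hb)).2
      · exact A.symm ((A.mem_lk0).1 (h2 ha)).2
      · exact h3 a ha b hb hab
    · rw [card_insert_of_notMem hvK, h4]

theorem two_nk (V : Finset ι) : 2 * A.nk V 2 = A.ee V := by
  have := A.nk_succ V 1
  rw [sum_congr rfl (fun v _ => A.nk_one (A.lk V v))] at this
  unfold ee
  omega

theorem six_nk (V : Finset ι) : 6 * A.nk V 3 = ∑ v ∈ V, A.ee (A.lk V v) := by
  have h1 := A.nk_succ V 2
  have h2 : ∑ v ∈ V, A.ee (A.lk V v) = 2 * ∑ v ∈ V, A.nk (A.lk V v) 2 := by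
    rw [mul_sum]
    exact sum_congr rfl (fun v _ => (A.two_nk _).symm)
  rw [h2, ← h1]
  ring

theorem L_eq_nk (V : Finset ι) : A.L V = -12 + 8 * (V.card : ℤ) - 5 * A.nk V 2 + 3 * A.nk V 3 := by
  classical
  have h : ∀ K ∈ A.clqs V, gg K.card = (if K.card = 0 then (-12 : ℤ) else 0) +
      (if K.card = 1 then 8 else 0) + (if K.card = 2 then -5 else 0) +
      (if K.card = 3 then 3 else 0) := by
    intro K _
    unfold gg
    split_ifs <;> omega
  unfold L
  rw [sum_congr rfl h, sum_add_distrib, sum_add_distrib, sum_add_distrib, ← sum_filter,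
    ← sum_filter, ← sum_filter, ← sum_filter, sum_const, sum_const, sum_const, sum_const]
  have e0 := A.nk_zero V
  have e1 := A.nk_one V
  unfold nk at e0 e1 ⊢
  rw [e0, e1]
  simp only [nsmul_eq_mul]
  push_cast
  ring

/-- `L` through degrees -/
theorem L_eq (V : Finset ι) : (A.L V : ℚ) = -12 + 8 * (V.card : ℚ) - 5 / 2 * (A.ee V : ℚ) +
    1 / 2 * ∑ v ∈ V, (A.ee (A.lk V v) : ℚ) := by
  rw [A.L_eq_nk]
  have h2 : (A.ee V : ℚ) = 2 * (A.nk V 2 : ℚ) := by rw [← A.two_nk V]; push_cast; ring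
  have h3 : ∑ v ∈ V, (A.ee (A.lk V v) : ℚ) = 6 * (A.nk V 3 : ℚ) := by
    have := A.six_nk V
    have h' : ((6 * A.nk V 3 : ℕ) : ℚ) = ((∑ v ∈ V, A.ee (A.lk V v) : ℕ) : ℚ) := by rw [this]
    push_cast at h'
    rw [← h']
  rw [h2, h3]
  push_cast
  ring

/-- the values of a compact facet -/
theorem chi_compact {K M : Finset ι} (h0 : K.Nonempty) (hK : A.ch K = 0) :
    A.chi K M = (if M.card ≤ 1 then 1 else 0) ∧ A.chn K M = (if M.card ≤ 1 then 1 else 0) := by
  have hc : ((K.card : ℕ) : ℚ) ≠ 0 := by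
    rw [Nat.cast_ne_zero]; exact h0.card_pos.ne'
  have h1 : A.chi K M = (if M.card ≤ 1 then 1 else 0) := by
    unfold chi
    rw [hK]
    by_cases hm : M.card = 0
    · rw [if_pos hm, if_pos (by omega)]
      unfold tc0 tf tsp
      rw [if_pos rfl, if_neg hc, if_neg (by norm_num)]
      norm_num
    · rw [if_neg hm]
      by_cases hm1 : M.card = 1
      · rw [if_pos hm1, if_pos (by omega)]
        unfold tc1
        rw [if_pos rfl]
      · rw [if_neg hm1, if_neg (by omega)]
        unfold tc2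
        rw [if_pos rfl]
  refine ⟨h1, ?_⟩
  unfold chn
  by_cases hm : M.card = 0
  · rw [if_pos hm, if_pos (by omega), hK]
    unfold tf
    rw [if_pos rfl, if_neg hc]
  · rw [if_neg hm, h1]

/-- **Closed blocks.** -/
theorem closed_Bh {V T : Finset ι} (hTV : T ⊆ V) (hT : T.Nonempty) (hTc : A.IsClq T)
    (h4 : ∀ K ⊆ V, A.IsClq K → K.card ≤ 3) (hdeg : ∀ v ∈ V, (A.lk V v).Nonempty)
    (hcl : ∀ v ∈ V, ∀ w ∈ A.lk V v, (A.lk (A.lk V v) w).card = 2)
    (hE : A.ee V + 12 ≤ 6 * V.card) : 0 ≤ A.Bh V T := by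
  classical
  have hee : ∀ v ∈ V, A.ee (A.lk V v) = 2 * (A.lk V v).card := by
    intro v hv
    unfold ee
    rw [sum_congr rfl (hcl v hv), sum_const, smul_eq_mul, mul_comm]
  have hch : ∀ v ∈ V, A.ch (A.lk V v) = 0 := by
    intro v hv
    unfold ch
    rw [hee v hv]
    push_cast
    ring
  have hL : (6 : ℚ) - V.card ≤ A.L V := by
    rw [A.L_eq]
    have h1 : ∑ v ∈ V, (A.ee (A.lk V v) : ℚ) = 2 * (A.ee V : ℚ) := by
      rw [sum_congr rfl (fun v hv => by rw [hee v hv])]
      push_cast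
      rw [← mul_sum]
      unfold ee
      push_cast
      rfl
    rw [h1]
    have h2 : (A.ee V : ℚ) + 12 ≤ 6 * (V.card : ℚ) := by exact_mod_cast hE
    linarith
  -- the vertices outside `T` with two marks
  set Bd : Finset ι := (V \ T).filter (fun v => 2 ≤ (T ∩ A.lk V v).card) with hBd
  have hBh : A.Bh V T = A.L V + (((V \ T).card : ℚ) - Bd.card) -
      ∑ v ∈ T, (if (T ∩ A.lk V v).card ≤ 1 then (1 : ℚ) else 0) := by
    unfold Bh
    have e1 : ∑ v ∈ V, (if v ∈ T then - A.chn (A.lk V v) (T ∩ A.lk V v)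
        else A.chi (A.lk V v) (T ∩ A.lk V v)) =
        ∑ v ∈ V \ T, (if (T ∩ A.lk V v).card ≤ 1 then (1 : ℚ) else 0) +
        ∑ v ∈ T, -(if (T ∩ A.lk V v).card ≤ 1 then (1 : ℚ) else 0) := by
      rw [← sum_sdiff hTV]
      congr 1
      · apply sum_congr rfl
        intro v hv
        rw [mem_sdiff] at hv
        rw [if_neg hv.2, (A.chi_compact (hdeg v hv.1) (hch v hv.1)).1]
      · apply sum_congr rfl
        intro v hv
        rw [if_pos hv, (A.chi_compact (hdeg v (hTV hv)) (hch v (hTV hv))).2]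
    have e2 : ∑ v ∈ V \ T, (if (T ∩ A.lk V v).card ≤ 1 then (1 : ℚ) else 0) =
        ((V \ T).card : ℚ) - Bd.card := by
      rw [← sum_filter, sum_const, nsmul_eq_mul, mul_one, eq_sub_iff_add_eq]
      have := card_filter_add_card_filter_not (s := V \ T) (fun v => (T ∩ A.lk V v).card ≤ 1)
      have e3 : Bd = (V \ T).filter (fun v => ¬ (T ∩ A.lk V v).card ≤ 1) := by
        rw [hBd]
        apply filter_congr
        intro v _
        omega
      rw [e3]
      exact_mod_cast this
    rw [e1, e2, sum_neg_distrib]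
    ring
  have hcard : ((V \ T).card : ℚ) = V.card - T.card := by
    rw [card_sdiff_of_subset hTV, Nat.cast_sub (card_le_card hTV)]
  have hT3 : T.card ≤ 3 := h4 T hTV hTc
  have hTpos := hT.card_pos
  rw [hBh, hcard]
  have key : ((T.card : ℚ) + Bd.card) +
      ∑ v ∈ T, (if (T ∩ A.lk V v).card ≤ 1 then (1 : ℚ) else 0) ≤ 6 := by
    have hsum : ∑ v ∈ T, (if (T ∩ A.lk V v).card ≤ 1 then (1 : ℚ) else 0) ≤ T.card := by
      calc ∑ v ∈ T, (if (T ∩ A.lk V v).card ≤ 1 then (1 : ℚ) else 0) ≤ ∑ v ∈ T, 1 := by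
            apply sum_le_sum
            intro v _
            split_ifs <;> norm_num
        _ = T.card := by rw [sum_const, nsmul_eq_mul, mul_one]
    -- membership in `Bd`
    have hB : ∀ v ∈ Bd, ∃ x ∈ T, ∃ y ∈ T, x ≠ y ∧ v ∈ A.lk (A.lk V x) y ∧ v ∉ T := by
      intro v hv
      rw [hBd, mem_filter, mem_sdiff] at hv
      obtain ⟨⟨hvV, hvT⟩, h2⟩ := hv
      obtain ⟨x, hx, y, hy, hxy⟩ := one_lt_card.1 (lt_of_lt_of_le one_lt_two h2)
      rw [mem_inter, mem_lk0] at hx hy
      refine ⟨x, hx.1, y, hy.1, hxy, ?_, hvT⟩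
      rw [mem_lk0, mem_lk0]
      exact ⟨⟨hvV, A.symm hx.2.2⟩, A.symm hy.2.2⟩
    have hlk : ∀ x ∈ T, ∀ y ∈ T, x ≠ y → y ∈ A.lk V x := by
      intro x hx y hy hxy
      rw [mem_lk0]
      exact ⟨hTV hy, hTc x hx y hy hxy⟩
    have hsymm : ∀ x y, A.lk (A.lk V x) y = A.lk (A.lk V y) x := by
      intro x y
      ext z
      rw [mem_lk0, mem_lk0, mem_lk0, mem_lk0]
      tauto
    interval_cases hc : T.card
    · -- one element
      have hB0 : Bd = ∅ := by
        rw [eq_empty_iff_forall_notMem]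
        intro v hv
        obtain ⟨x, hx, y, hy, hxy, -⟩ := hB v hv
        obtain ⟨z, hz⟩ := card_eq_one.1 hc
        rw [hz, mem_singleton] at hx hy
        exact hxy (hx.trans hy.symm)
      rw [hB0, card_empty]
      push_cast at hsum ⊢
      linarith
    · -- two elements
      obtain ⟨x, y, hxy, hTe⟩ := card_eq_two.1 hc
      have hx : x ∈ T := by rw [hTe]; simp
      have hy : y ∈ T := by rw [hTe]; simp
      have hB2 : Bd.card ≤ 2 := by
        rw [← hcl x (hTV hx) y (hlk x hx y hy hxy)]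
        apply card_le_card
        intro v hv
        obtain ⟨x', hx', y', hy', hxy', h, -⟩ := hB v hv
        rw [hTe] at hx' hy'
        simp only [mem_insert, mem_singleton] at hx' hy'
        rcases hx' with rfl | rfl <;> rcases hy' with rfl | rfl
        · exact absurd rfl hxy'
        · exact h
        · rw [hsymm]; exact h
        · exact absurd rfl hxy'
      have hB2' : (Bd.card : ℚ) ≤ 2 := by exact_mod_cast hB2
      push_cast at hsum ⊢
      linarith
    · -- three elements
      obtain ⟨x, y, z, hxy, hxz, hyz, hTe⟩ := card_eq_three.1 hc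
      have hx : x ∈ T := by rw [hTe]; simp
      have hy : y ∈ T := by rw [hTe]; simp
      have hz : z ∈ T := by rw [hTe]; simp
      have hsum0 : ∑ v ∈ T, (if (T ∩ A.lk V v).card ≤ 1 then (1 : ℚ) else 0) = 0 := by
        apply sum_eq_zero
        intro v hv
        rw [if_neg]
        have : (T.erase v) ⊆ T ∩ A.lk V v := by
          intro w hw
          rw [mem_erase] at hw
          rw [mem_inter]
          exact ⟨hw.2, hlk v hv w hw.2 (Ne.symm hw.1)⟩
        have h5 := card_le_card this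
        rw [card_erase_of_mem hv, hc] at h5
        omega
      have hone : ∀ x ∈ T, ∀ y ∈ T, ∀ z ∈ T, x ≠ y → x ≠ z → y ≠ z →
          ((A.lk (A.lk V x) y).erase z).card ≤ 1 := by
        intro x hx y hy z hz hxy hxz hyz
        have : z ∈ A.lk (A.lk V x) y := by
          rw [mem_lk0]
          exact ⟨hlk x hx z hz hxz, hTc y hy z hz hyz⟩
        rw [card_erase_of_mem this, hcl x (hTV hx) y (hlk x hx y hy hxy)]
      have hB3 : Bd.card ≤ 3 := by
        have h6 : Bd ⊆ ((A.lk (A.lk V x) y).erase z ∪ (A.lk (A.lk V x) z).erase y) ∪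
            (A.lk (A.lk V y) z).erase x := by
          intro v hv
          obtain ⟨x', hx', y', hy', hxy', h, hvT⟩ := hB v hv
          have hvx : v ≠ x := by rintro rfl; exact hvT hx
          have hvy : v ≠ y := by rintro rfl; exact hvT hy
          have hvz : v ≠ z := by rintro rfl; exact hvT hz
          rw [hTe] at hx' hy'
          simp only [mem_insert, mem_singleton] at hx' hy'
          simp only [mem_union, mem_erase]
          rcases hx' with rfl | rfl | rfl <;> rcases hy' with rfl | rfl | rfl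
          · exact absurd rfl hxy'
          · exact Or.inl (Or.inl ⟨hvz, h⟩)
          · exact Or.inl (Or.inr ⟨hvy, h⟩)
          · rw [hsymm] at h; exact Or.inl (Or.inl ⟨hvz, h⟩)
          · exact absurd rfl hxy'
          · exact Or.inr ⟨hvx, h⟩
          · rw [hsymm] at h; exact Or.inl (Or.inr ⟨hvy, h⟩)
          · rw [hsymm] at h; exact Or.inr ⟨hvx, h⟩
          · exact absurd rfl hxy'
        have h7 := (card_le_card h6).trans (card_union_le _ _)
        have h8 := card_union_le ((A.lk (A.lk V x) y).erase z) ((A.lk (A.lk V x) z).erase y)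
        have h9 := hone x hx y hy z hz hxy hxz hyz
        have h10 := hone x hx z hz y hy hxz hxy (Ne.symm hyz)
        have h11 := hone y hy z hz x hx hyz (Ne.symm hxy) (Ne.symm hxz)
        omega
      have hB3' : (Bd.card : ℚ) ≤ 3 := by exact_mod_cast hB3
      rw [hsum0]
      push_cast
      linarith
  linarith

end PArr

end Pool.Agent.Helper56.OC
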