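import Mathlib
import Pool.Agent.Helper26.OC.St2
import Pool.Agent.Helper56.OC.Lf
import Pool.Agent.Helper79.OC.GlueR

/-!
# From the local expression of an arrangement to the local expression of a nerve
-/

set_option autoImplicit false
set_option linter.unusedSectionVars false

open Finset

namespace Pool.Agent.Helper26.OC

namespace Nerve

variable {κ : Type} [Fintype κ] [DecidableEq κ] (N : Nerve κ)

/-- a graph with at least four vertices is not one triangle -/
theorem not_double (h4 : 4 ≤ Fintype.card κ) {b y z : κ} (hy : N.adj b y) (hz : N.adj b z)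
    (h1 : N.rot b y = z) (h1' : ¬ N.win b y) (h2 : N.rot b z = y) (h2' : ¬ N.win b z) : False := by
  classical
  obtain ⟨e1, e2, e3⟩ := N.tri_of hy h1'
  obtain ⟨f1, f2, f3⟩ := N.tri_of hz h2'
  rw [h1] at e1 e2 e3
  rw [h2] at f1 f2 f3
  have c1 : ∀ v, N.adj b v → v = b ∨ v = y ∨ v = z := fun v hv =>
    N.rot_ind (b := b) (y := y) (fun v => v = b ∨ v = y ∨ v = z) hy (Or.inr (Or.inl rfl)) (by
      rintro v hv (rfl | rfl | rfl)
      · exact absurd hv (N.irr _)
      · exact Or.inr (Or.inr h1)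
      · exact Or.inr (Or.inl h2)) v hv
  have c2 : ∀ v, N.adj y v → v = b ∨ v = y ∨ v = z := fun v hv =>
    N.rot_ind (b := y) (y := z) (fun v => v = b ∨ v = y ∨ v = z) e1 (Or.inr (Or.inr rfl)) (by
      rintro v hv (rfl | rfl | rfl)
      · exact Or.inr (Or.inr f3)
      · exact absurd hv (N.irr _)
      · exact Or.inl e2) v hv
  have c3 : ∀ v, N.adj z v → v = b ∨ v = y ∨ v = z := fun v hv =>
    N.rot_ind (b := z) (y := y) (fun v => v = b ∨ v = y ∨ v = z) f1 (Or.inr (Or.inl rfl)) (by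
      rintro v hv (rfl | rfl | rfl)
      · exact Or.inr (Or.inl e3)
      · exact Or.inl f2
      · exact absurd hv (N.irr _)) v hv
  have hall : ∀ v, v = b ∨ v = y ∨ v = z := by
    intro v
    refine N.conn (fun v => v = b ∨ v = y ∨ v = z) ?_ b v (Or.inl rfl)
    rintro a c (rfl | rfl | rfl) hac
    · exact c1 _ hac
    · exact c2 _ hac
    · exact c3 _ hac
  have h5 : (univ : Finset κ) ⊆ {b, y, z} := by
    intro v _
    simp only [mem_insert, mem_singleton]
    exact hall v
  have h6 := card_le_card h5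
  have h7 : ({b, y, z} : Finset κ).card ≤ 3 := card_le_three
  rw [card_univ] at h6
  omega

/-- the number of ordered pairs of adjacent neighbours -/
theorem sum_cn (h4 : 4 ≤ Fintype.card κ) (b : κ) :
    open Classical in
    ∑ y ∈ univ.filter (fun y => N.adj b y), (N.cn b y : ℚ) = 2 * ((N.G b : ℚ) - N.a b) := by
  classical
  have h1 : ∀ y ∈ univ.filter (fun y => N.adj b y), (N.cn b y : ℚ) =
      ∑ z ∈ univ.filter (fun y => N.adj b y), ((if N.rot b y = z ∧ ¬ N.win b y then (1 : ℚ) else 0)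
        + (if N.rot b z = y ∧ ¬ N.win b z then (1 : ℚ) else 0)) := by
    intro y hy
    rw [mem_filter] at hy
    have h2 : (N.cn b y : ℚ) = ∑ z ∈ univ.filter (fun y => N.adj b y),
        (if N.adj y z then (1 : ℚ) else 0) := by
      unfold cn
      rw [← sum_filter, filter_filter, sum_const, nsmul_eq_mul, mul_one]
    rw [h2]
    apply sum_congr rfl
    intro z hz
    rw [mem_filter] at hz
    by_cases hyz : N.adj y z
    · rw [if_pos hyz]
      rcases N.adj_rot hy.2 hz.2 hyz with h3 | h3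
      · rw [if_pos h3, if_neg (fun h => N.not_double h4 hy.2 hz.2 h3.1 h3.2 h.1 h.2), add_zero]
      · rw [if_pos h3, if_neg (fun h => N.not_double h4 hy.2 hz.2 h.1 h.2 h3.1 h3.2), zero_add]
    · rw [if_neg hyz, if_neg, if_neg, add_zero]
      · rintro ⟨e1, e2⟩
        have := (N.tri_of hz.2 e2).1
        rw [e1] at this
        exact hyz (N.symm this)
      · rintro ⟨e1, e2⟩
        have := (N.tri_of hy.2 e2).1
        rw [e1] at this
        exact hyz this
  rw [sum_congr rfl h1]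
  simp only [sum_add_distrib]
  have h3 : ∀ y ∈ univ.filter (fun y => N.adj b y),
      ∑ z ∈ univ.filter (fun y => N.adj b y), (if N.rot b y = z ∧ ¬ N.win b y then (1 : ℚ) else 0)
      = if ¬ N.win b y then (1 : ℚ) else 0 := by
    intro y hy
    rw [mem_filter] at hy
    have hmem : N.rot b y ∈ univ.filter (fun y => N.adj b y) := by
      rw [mem_filter]; exact ⟨mem_univ _, N.rot_adj hy.2⟩
    rw [sum_eq_single_of_mem _ hmem]
    · by_cases hw : N.win b y
      · rw [if_neg (fun h => h.2 hw), if_neg (fun h => h hw)]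
      · rw [if_pos ⟨rfl, hw⟩, if_pos hw]
    · intro z _ hz
      rw [if_neg]
      rintro ⟨e, -⟩
      exact hz e.symm
  have h4' : ∑ y ∈ univ.filter (fun y => N.adj b y),
      ∑ z ∈ univ.filter (fun y => N.adj b y), (if N.rot b z = y ∧ ¬ N.win b z then (1 : ℚ) else 0)
      = ∑ y ∈ univ.filter (fun y => N.adj b y), if ¬ N.win b y then (1 : ℚ) else 0 := by
    rw [sum_comm]
    exact sum_congr rfl h3
  rw [sum_congr rfl h3, h4', ← sum_filter, sum_const, nsmul_eq_mul, mul_one, filter_filter]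
  have h5 : (N.G b : ℚ) = N.a b +
      ((univ.filter (fun y => N.adj b y ∧ ¬ N.win b y)).card : ℚ) := by
    have := card_filter_add_card_filter_not (s := univ.filter (fun y => N.adj b y))
      (fun y => N.win b y)
    rw [filter_filter, filter_filter] at this
    unfold G a
    exact_mod_cast this.symm
  rw [h5]
  ring

end Nerve

end Pool.Agent.Helper26.OC

namespace Pool.Agent.Helper56.OC

namespace PArr

open Pool.Agent.Helper26.OC (Nerve)

variable {ι : Type} [DecidableEq ι] (A : PArr ι)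

section tr

variable {V : Finset ι} (N : Nerve {i // i ∈ V}) (hN : ∀ a b, N.adj a b ↔ A.orth a.1 b.1)
  (h4 : 4 ≤ V.card)

theorem sum_sub {M : Type} [AddCommMonoid M] (V : Finset ι) (P : ι → Prop) [DecidablePred P]
    (g : ι → M) :
    ∑ y ∈ V.filter P, g y =
    ∑ y ∈ (univ : Finset {i // i ∈ V}).filter (fun y => P y.1), g y.1 := by
  rw [sum_filter, sum_filter]
  exact (sum_coe_sort V (fun y => if P y then g y else 0)).symm

theorem card_sub (V : Finset ι) (P : ι → Prop) [DecidablePred P] :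
    (V.filter P).card = ((univ : Finset {i // i ∈ V}).filter (fun y => P y.1)).card := by
  rw [card_eq_sum_ones, card_eq_sum_ones]
  exact sum_sub V P (fun _ => 1)

include hN

theorem tr_G (v : {i // i ∈ V}) : (A.lk V v.1).card = N.G v := by
  classical
  unfold lk Nerve.G
  rw [card_sub]
  congr 1
  apply filter_congr
  intro y _
  exact (hN v y).symm

theorem tr_cn (v y : {i // i ∈ V}) : (A.lk (A.lk V v.1) y.1).card = N.cn v y := by
  classical
  unfold lk Nerve.cn
  rw [filter_filter, card_sub]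
  congr 1
  apply filter_congr
  intro z _
  rw [hN, hN]

theorem tr_sum (v : {i // i ∈ V}) (g : ι → ℚ) :
    open Classical in
    ∑ y ∈ A.lk V v.1, g y = ∑ y ∈ univ.filter (fun y => N.adj v y), g y.1 := by
  classical
  unfold lk
  rw [sum_sub]
  apply sum_congr
  · apply filter_congr
    intro y _
    exact (hN v y).symm
  · intro y _; rfl

include h4

theorem tr_ee (v : {i // i ∈ V}) : (A.ee (A.lk V v.1) : ℚ) = 2 * ((N.G v : ℚ) - N.a v) := by
  classical
  have hc : 4 ≤ Fintype.card {i // i ∈ V} := by rw [Fintype.card_coe]; exact h4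
  rw [← N.sum_cn hc v]
  unfold ee
  push_cast
  rw [A.tr_sum N hN v (fun y => ((A.lk (A.lk V v.1) y).card : ℚ))]
  apply sum_congr rfl
  intro y _
  rw [A.tr_cn N hN]

theorem tr_ch (v : {i // i ∈ V}) : A.ch (A.lk V v.1) = N.a v := by
  unfold ch
  rw [A.tr_ee N hN h4, A.tr_G N hN]
  ring

omit h4

theorem tr_iso (v : {i // i ∈ V}) : (A.iso (A.lk V v.1)).card = N.t v := by
  classical
  have h1 : A.iso (A.lk V v.1) = V.filter (fun y => A.orth v.1 y ∧
      (A.lk (A.lk V v.1) y).card = 0) := by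
    ext y
    unfold iso
    rw [mem_filter, mem_filter, mem_lk0]
    tauto
  rw [h1, card_sub]
  unfold Nerve.t
  congr 1
  apply filter_congr
  intro y _
  rw [A.tr_cn N hN]
  unfold Nerve.Thin
  rw [hN]
  apply and_congr Iff.rfl
  unfold Nerve.cn
  rw [card_eq_zero, filter_eq_empty_iff]
  constructor
  · intro h z hz hzy
    exact h (mem_univ z) ⟨N.symm hz, N.symm hzy⟩
  · rintro h z - ⟨h1, h2⟩
    exact h z (N.symm h1) (N.symm h2)

omit hN

/-- the marks as a set of vertices of the nerve -/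
def sub (V T : Finset ι) : Finset {i // i ∈ V} := univ.filter (fun y => y.1 ∈ T)

theorem mem_sub {T : Finset ι} {y : {i // i ∈ V}} : y ∈ sub V T ↔ y.1 ∈ T := by
  unfold sub
  rw [mem_filter]
  exact ⟨fun h => h.2, fun h => ⟨mem_univ _, h⟩⟩

include hN

theorem tr_marks (T : Finset ι) (v : {i // i ∈ V}) :
    open Classical in
    T ∩ A.lk V v.1 = V.filter (fun y => y ∈ T ∧ A.orth v.1 y) := by
  classical
  ext y
  rw [mem_inter, mem_filter, mem_lk0]
  tauto

theorem tr_nu (T : Finset ι) (v : {i // i ∈ V}) : (T ∩ A.lk V v.1).card = N.nu (sub V T) v := by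
  classical
  rw [A.tr_marks N hN, card_sub]
  unfold Nerve.nu sub
  rw [filter_filter]
  congr 1
  apply filter_congr
  intro y _
  rw [hN]

theorem tr_dm (T : Finset ι) (v : {i // i ∈ V}) :
    ∑ m ∈ T ∩ A.lk V v.1, ((A.lk (A.lk V v.1) m).card : ℚ) = N.dm (sub V T) v := by
  classical
  rw [A.tr_marks N hN, sum_sub]
  unfold Nerve.dm sub
  rw [filter_filter]
  apply sum_congr
  · apply filter_congr
    intro y _
    rw [hN]
  · intro y _
    rw [A.tr_cn N hN]

include h4

theorem tr_chi (T : Finset ι) (v : {i // i ∈ V}) :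
    A.chi (A.lk V v.1) (T ∩ A.lk V v.1) = N.chiA (sub V T) v := by
  unfold chi Nerve.chiA
  rw [A.tr_nu N hN, A.tr_ch N hN h4, A.tr_G N hN, A.tr_iso N hN, A.tr_dm N hN]

theorem tr_chn (T : Finset ι) (v : {i // i ∈ V}) :
    A.chn (A.lk V v.1) (T ∩ A.lk V v.1) = N.chnA (sub V T) v := by
  unfold chn Nerve.chnA
  rw [A.tr_nu N hN, A.tr_chi N hN h4, A.tr_ch N hN h4, A.tr_G N hN, A.tr_iso N hN]

theorem tr_L : (A.L V : ℚ) = N.LL := by
  rw [A.L_eq]
  unfold Nerve.LL
  rw [Fintype.card_coe]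
  have h1 : (A.ee V : ℚ) = ∑ b, (N.G b : ℚ) := by
    unfold ee
    push_cast
    rw [← sum_coe_sort V (fun v => ((A.lk V v).card : ℚ))]
    apply sum_congr rfl
    intro v _
    rw [A.tr_G N hN]
  have h2 : ∑ v ∈ V, (A.ee (A.lk V v) : ℚ) = 2 * ∑ b, ((N.G b : ℚ) - N.a b) := by
    rw [← sum_coe_sort V (fun v => (A.ee (A.lk V v) : ℚ)), mul_sum]
    apply sum_congr rfl
    intro v _
    exact A.tr_ee N hN h4 v
  rw [h1, h2]
  ring

/-- **Transfer.** -/
theorem Bh_eq_BB (T : Finset ι) : A.Bh V T = N.BB (sub V T) := by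
  classical
  unfold Bh Nerve.BB
  rw [A.tr_L N hN h4]
  congr 1
  rw [← sum_coe_sort V (fun v => if v ∈ T then - A.chn (A.lk V v) (T ∩ A.lk V v)
    else A.chi (A.lk V v) (T ∩ A.lk V v))]
  apply sum_congr rfl
  intro v _
  by_cases hv : v.1 ∈ T
  · rw [if_pos hv, if_pos (mem_sub.2 hv), A.tr_chn N hN h4]
  · rw [if_neg hv, if_neg (fun h => hv (mem_sub.1 h)), A.tr_chi N hN h4]

/-- the block inequality from a nerve -/
theorem Bh_of_nerve (hB : ∀ T : Finset {i // i ∈ V}, T.Nonempty → N.Clq T → N.NR2 T → 0 ≤ N.BB T)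
    {T : Finset ι} (hTV : T ⊆ V)
    (hT : T.Nonempty) (hTc : A.IsClq T) (hR : ¬ A.R2c V T) : 0 ≤ A.Bh V T := by
  rw [A.Bh_eq_BB N hN h4]
  refine hB _ ?_ ?_ ?_
  · obtain ⟨x, hx⟩ := hT
    exact ⟨⟨x, hTV hx⟩, mem_sub.2 hx⟩
  · intro x hx y hy hxy
    rw [hN]
    exact hTc _ (mem_sub.1 hx) _ (mem_sub.1 hy) (fun h => hxy (Subtype.ext h))
  · intro x hx s t hs ht hxs hst hxt h1 h2
    apply hR
    refine ⟨x.1, mem_sub.1 hx, s.1, s.2, t.1, t.2, fun h => hs (mem_sub.2 h),
      fun h => ht (mem_sub.2 h), (hN _ _).1 hxs, (hN _ _).1 hst, fun h => hxt (Subtype.ext h),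
      ?_, ?_, ?_, ?_⟩
    · rw [A.tr_G N hN]; exact h1.2
    · rw [A.tr_ch N hN h4, h1.1]; norm_num
    · rw [A.tr_G N hN]; exact h2.2
    · rw [A.tr_ch N hN h4, h2.1]; norm_num

end tr

end PArr

end Pool.Agent.Helper56.OC
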