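import Mathlib
import Pool.Agent.Helper56.OC.Tr
import Pool.Agent.Helper56.OC.Fin
import Pool.Agent.Helper15.OC.ToEuler
import Pool.Agent.Helper79.OC.Clo

/-!
# The final theorem from the block inequality for nerves
-/

set_option autoImplicit false
set_option linter.unusedSectionVars false

open Finset

namespace Pool.Agent.Helper56.OC

open Pool.Agent.Helper15.OC (PMap)
open Pool.Agent.Helper26.OC (Nerve)

/-- the block inequality for nerves with at least five vertices -/
def StB5 : Prop := ∀ {κ : Type} [Fintype κ] [DecidableEq κ] (N : Nerve κ), N.Euler →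
  5 ≤ Fintype.card κ → ∀ T : Finset κ, T.Nonempty → N.Clq T → N.NR2 T → 0 ≤ N.BB T

namespace PArr

variable {ι : Type} [DecidableEq ι] (A : PArr ι)

/-- a block has no cut vertex -/
theorem blk_of_block {V : Finset ι} (hbl : A.Block V) (M : PMap {i // i ∈ V})
    (hM : M.adj = fun a b => A.orth a.1 b.1) : M.Blk := by
  classical
  intro x a b hax hbx
  by_contra hcon
  -- the component of `a`
  let R : ι → Prop := fun v => ∃ h : v ∈ V, M.Conn (fun p => p = x) a ⟨v, h⟩
  have hRx : ¬ R x.1 := by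
    rintro ⟨h, hc⟩
    have key : ∀ z, M.Conn (fun p => p = x) a z → z ≠ x := by
      intro z hz
      refine hz.ind (fun z => z ≠ x) ?_ hax
      intro p q _ hq _ _
      exact hq
    exact key _ hc rfl
  set V₁ := V.filter (fun v => v = x.1 ∨ R v) with hV1
  set V₂ := V.filter (fun v => v = x.1 ∨ ¬ R v) with hV2
  have m1 : ∀ v, v ∈ V₁ \ V₂ ↔ v ∈ V ∧ v ≠ x.1 ∧ R v := by
    intro v
    rw [mem_sdiff, hV1, hV2, mem_filter, mem_filter]
    constructor
    · rintro ⟨⟨h1, h2⟩, h3⟩
      have h4 : ¬ (v = x.1 ∨ ¬ R v) := fun h => h3 ⟨h1, h⟩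
      push Not at h4
      exact ⟨h1, h4.1, h4.2⟩
    · rintro ⟨h1, h2, h3⟩
      refine ⟨⟨h1, Or.inr h3⟩, ?_⟩
      rintro ⟨-, h | h⟩
      · exact h2 h
      · exact h h3
  have m2 : ∀ v, v ∈ V₂ \ V₁ ↔ v ∈ V ∧ v ≠ x.1 ∧ ¬ R v := by
    intro v
    rw [mem_sdiff, hV1, hV2, mem_filter, mem_filter]
    constructor
    · rintro ⟨⟨h1, h2⟩, h3⟩
      have h4 : ¬ (v = x.1 ∨ R v) := fun h => h3 ⟨h1, h⟩
      push Not at h4
      exact ⟨h1, h4.1, h4.2⟩
    · rintro ⟨h1, h2, h3⟩
      refine ⟨⟨h1, Or.inr h3⟩, ?_⟩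
      rintro ⟨-, h | h⟩
      · exact h2 h
      · exact h3 h
  refine hbl.2 V₁ V₂ ?_ ?_ ?_ ?_ ?_
  · ext v
    rw [mem_union, hV1, hV2, mem_filter, mem_filter]
    by_cases h : R v <;> tauto
  · have : V₁ ∩ V₂ ⊆ {x.1} := by
      intro v hv
      rw [mem_inter, hV1, hV2, mem_filter, mem_filter] at hv
      rw [mem_singleton]
      tauto
    exact (card_le_card this).trans (card_singleton _).le
  · refine ⟨a.1, (m1 _).2 ⟨a.2, fun h => hax (Subtype.ext h), a.2, ?_⟩⟩
    exact Relation.ReflTransGen.refl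
  · refine ⟨b.1, (m2 _).2 ⟨b.2, fun h => hbx (Subtype.ext h), ?_⟩⟩
    rintro ⟨h, hc⟩
    exact hcon hc
  · intro v hv w hw hvw
    obtain ⟨h1, h2, h3, h4⟩ := (m1 v).1 hv
    obtain ⟨g1, g2, g3⟩ := (m2 w).1 hw
    apply g3
    refine ⟨g1, Relation.ReflTransGen.tail h4 ⟨?_, fun h => h2 (congrArg Subtype.val h),
      fun h => g2 (congrArg Subtype.val h)⟩⟩
    rw [hM]
    exact hvw

end PArr

/-- all local inequalities, from the block inequality for nerves -/
theorem glued_all (hB5 : StB5) (ι : Type) [Fintype ι] [DecidableEq ι] (A : Fam ι) :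
    ∃ c : Finset ι → Finset ι → ℚ, Glued A c := by
  classical
  refine ⟨A.toPArr.chi, Pool.Agent.Helper79.OC.glued_of_blocks' A ?_⟩
  intro s hs V hV hbl h5 T hT hne hc hR
  rcases Pool.Agent.Helper79.OC.block_split A s V hV hbl with ⟨M, hM⟩ | h
  · have adj_iff : ∀ a b, M.adj a b ↔ A.toPArr.orth a.1 b.1 := by
      intro a b; rw [hM]
    have hcard : 5 ≤ Fintype.card {i // i ∈ V} := by rw [Fintype.card_coe]; exact h5
    have ne_of : ∀ {i j : ι}, A.toPArr.orth i j → i ≠ j := by
      rintro i j h rfl; exact A.toPArr.irrefl i h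
    obtain ⟨N, hN, hE⟩ := M.to_nerve hcard (by
      intro a b c d hab hac had hbc hbd hcd
      rw [adj_iff] at hab hac had hbc hbd hcd
      have hKV : ({a.1, b.1, c.1, d.1} : Finset ι) ⊆ V := by
        intro z hz
        simp only [mem_insert, mem_singleton] at hz
        rcases hz with rfl | rfl | rfl | rfl
        · exact a.2
        · exact b.2
        · exact c.2
        · exact d.2
      have hcl : A.toPArr.IsClq {a.1, b.1, c.1, d.1} := by
        have s1 := A.toPArr.symm hab
        have s2 := A.toPArr.symm hac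
        have s3 := A.toPArr.symm had
        have s4 := A.toPArr.symm hbc
        have s5 := A.toPArr.symm hbd
        have s6 := A.toPArr.symm hcd
        intro x hx y hy hxy
        simp only [mem_insert, mem_singleton] at hx hy
        rcases hx with rfl | rfl | rfl | rfl <;> rcases hy with rfl | rfl | rfl | rfl <;>
          first
            | assumption
            | exact absurd rfl hxy
      have h3 := Pool.Agent.Helper15.OC.noK4 A _ hcl
      rw [card_insert_of_notMem, card_insert_of_notMem, card_pair (ne_of hcd)] at h3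
      · omega
      · simp only [mem_insert, mem_singleton, not_or]
        exact ⟨ne_of hbc, ne_of hbd⟩
      · simp only [mem_insert, mem_singleton, not_or]
        exact ⟨ne_of hab, ne_of hac, ne_of had⟩) (by
      intro a b c d hab hbc hcd hda hac hbd
      rw [adj_iff] at hab hbc hcd hda ⊢
      rw [adj_iff]
      exact Pool.Agent.Helper79.OC.noC4_fac A s a.1 (hV a.2) b.1 (hV b.2) c.1 (hV c.2) d.1
        (hV d.2) hab hbc hcd hda (fun h => hac (Subtype.ext h)) (fun h => hbd (Subtype.ext h)))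
      (A.toPArr.blk_of_block hbl M hM)
    have hN' : ∀ a b, N.adj a b ↔ A.toPArr.orth a.1 b.1 := by
      intro a b; rw [hN]; exact adj_iff a b
    refine A.toPArr.Bh_of_nerve N hN' (by omega) ?_ hT hne hc hR
    intro T' h1 h2 h3
    exact hB5 N hE hcard T' h1 h2 h3
  · exact h T hT hne hc

/-- **The upper bound**, from the block inequality for nerves. -/
theorem upper_of (hB5 : StB5) (S : Finset Circ) (hS : IsArrangement S) (hn : 4 ≤ S.card) :
    (quadFaces S).Finite ∧ (quadFaces S).ncard ≤ 4 * (S.card - 3) :=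
  final_main (fun ι _ _ A => glued_all hB5 ι A) (fun _ _ _ A => Pool.Agent.Helper15.OC.noK4 A)
    S hS hn

end Pool.Agent.Helper56.OC
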