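import Pool.Agent.Helper56.OC.Fin2
import Pool.Agent.Helper26.OC.AsE
import Pool.Agent.Helper15.OC.SmallN
import Pool.Agent.Helper79.OC.LowD

/-!
# Upper and lower bounds
-/

set_option autoImplicit false

open Finset

namespace Pool.Agent.Helper56.OC

theorem stB5 : StB5 := fun N hE h5 T h1 h2 h3 =>
  Pool.Agent.Helper26.OC.m_BLOCK5 N hE h5 T h1 h2 h3

/-- **Upper bound.** -/
theorem upper (S : Finset Circ) (hS : IsArrangement S) (hn : 4 ≤ S.card) :
    (quadFaces S).Finite ∧ (quadFaces S).ncard ≤ 4 * (S.card - 3) :=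
  upper_of stB5 S hS hn

/-- three circles -/
theorem upper_three (S : Finset Circ) (hS : IsArrangement S) (hn : S.card = 3) :
    (quadFaces S).Finite ∧ (quadFaces S).ncard ≤ 2 :=
  quad_three (fun ι _ _ A => glued_all stB5 ι A)
    (fun _ _ _ A => Pool.Agent.Helper15.OC.noK4 A) S hS hn

/-- there are finitely many quadrangular faces -/
theorem quad_finite (S : Finset Circ) (hS : IsArrangement S) : (quadFaces S).Finite := by
  rcases (by omega : S.card ≤ 2 ∨ S.card = 3 ∨ 4 ≤ S.card) with h | h | h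
  · rw [quad_small S hS h]; exact Set.finite_empty
  · exact (upper_three S hS h).1
  · exact (upper S hS h).1

/-- the maximal number of quadrangular faces -/
theorem quad_greatest (n : ℕ) (_hn : 1 ≤ n) :
    IsGreatest {k : ℕ | ∃ S : Finset Circ, S.card = n ∧ IsArrangement S ∧
      (quadFaces S).ncard = k} (if n ≤ 2 then 0 else if n = 3 then 2 else 4 * (n - 3)) := by
  rcases (by omega : n ≤ 2 ∨ n = 3 ∨ 4 ≤ n) with h | h | h
  · rw [if_pos h]
    constructor
    · obtain ⟨S, h1, h2⟩ := Pool.Agent.Helper79.OC.exists_arr n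
      refine ⟨S, h1, h2, ?_⟩
      rw [quad_small S h2 (by omega), Set.ncard_empty]
    · rintro k ⟨S, h1, h2, rfl⟩
      rw [quad_small S h2 (by omega), Set.ncard_empty]
  · subst h
    rw [if_neg (by norm_num), if_pos rfl]
    constructor
    · obtain ⟨S, h1, h2, h3⟩ := Pool.Agent.Helper79.OC.lower_three
      obtain ⟨h4, h5⟩ := upper_three S h2 h1
      exact ⟨S, h1, h2, le_antisymm h5 (h3 h4)⟩
    · rintro k ⟨S, h1, h2, rfl⟩
      exact (upper_three S h2 h1).2
  · rw [if_neg (by omega), if_neg (by omega)]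
    constructor
    · obtain ⟨S, h1, h2, h3⟩ := Pool.Agent.Helper79.OC.lower n (by omega)
      obtain ⟨h4, h5⟩ := upper S h2 (by omega)
      rw [h1] at h5
      exact ⟨S, h1, h2, le_antisymm h5 (h3 h4)⟩
    · rintro k ⟨S, h1, h2, rfl⟩
      have := (upper S h2 (by omega)).2
      rwa [h1] at this

end Pool.Agent.Helper56.OC
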