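import Mathlib
import Pool.Agent.Helper56.OC.St

/-!
# Module Z1: a free arc with both ends on the same circle
-/

set_option autoImplicit false

open Set Metric

namespace Pool.Agent.Helper56.OC

open Fam

/-- module Z1 -/
theorem m_Z1 (hLZ : StLZ) (hS : StSep) (hP : StPts) (hFa : StFacs) : StZ1 := by
  intro ι _ _ A s i j p q a hseg hi hj
  obtain ⟨hP1, hP2, -⟩ := hP ι A
  have hoij : A.orth i j := (hP1 i j hseg.hij p hseg.pi hseg.pj).1
  -- the points of `i ∩ j`
  have hpts : ∀ x, x ∈ A.sph i → x ∈ A.sph j → x = p ∨ x = q := by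
    obtain ⟨p0, q0, -, h0⟩ := hP2 i j hoij
    have hp : p ∈ ({p0, q0} : Set ℂ) := h0 ▸ ⟨hseg.pi, hseg.pj⟩
    have hq : q ∈ ({p0, q0} : Set ℂ) := h0 ▸ ⟨hseg.ql, hseg.qj⟩
    intro x hx1 hx2
    have hx : x ∈ ({p0, q0} : Set ℂ) := h0 ▸ ⟨hx1, hx2⟩
    have hpq := hseg.hpq
    rcases hp with hp | hp <;> rcases hq with hq | hq <;> rcases hx with hx | hx
    · exact absurd (hp.trans hq.symm) hpq
    · exact absurd (hp.trans hq.symm) hpq
    · exact Or.inl (hx.trans hp.symm)
    · exact Or.inr (hx.trans hq.symm)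
    · exact Or.inr (hx.trans hq.symm)
    · exact Or.inl (hx.trans hp.symm)
    · exact absurd (hp.trans hq.symm) hpq
    · exact absurd (hp.trans hq.symm) hpq
  -- first claim
  have h1 : ∀ y ∈ A.sph j, A.OnS s i y → y ∈ a := by
    intro y hy hyi
    have h := hLZ ι A s {i} j {a} (Finset.singleton_nonempty i)
      (by
        intro n hn
        rw [Finset.mem_singleton] at hn
        rw [hn]
        exact hoij)
      (by
        intro b hb
        rw [mem_singleton_iff] at hb
        rw [hb, hseg.hends]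
        refine ⟨?_, hseg.hmax⟩
        intro x hx
        refine mem_iUnion₂.2 ⟨i, Finset.mem_singleton_self i, ?_⟩
        rcases hx with hx | hx
        · rw [hx]
          exact hseg.pi
        · rw [hx]
          exact hseg.ql)
      (by
        intro n hn x hxj hxn _
        rw [Finset.mem_singleton] at hn
        subst hn
        refine ⟨a, mem_singleton a, ?_⟩
        rcases hpts x hxn hxj with hx | hx
        · rw [hx]
          exact hseg.germp
        · rw [hx]
          exact hseg.germq)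
      y hy
      (by
        intro n hn
        rw [Finset.mem_singleton] at hn
        rw [hn]
        exact hyi)
    obtain ⟨b, hb, hyb⟩ := h
    rw [mem_singleton_iff] at hb
    rw [← hb]
    exact hyb
  refine ⟨h1, ?_⟩
  intro n hn hnj
  by_contra hni
  have hnj' : n ≠ j := by
    intro h
    rw [h] at hnj
    exact A.orth_irrefl j hnj
  obtain ⟨y1, y2, hy12, hY⟩ := hP2 n j hnj
  have hy1 : y1 ∈ A.sph n ∩ A.sph j := hY ▸ Or.inl rfl
  have hy2 : y2 ∈ A.sph n ∩ A.sph j := hY ▸ Or.inr rfl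
  -- a crossing point cannot lie in `a`
  have hno : ∀ y, y ∈ A.sph n → y ∈ A.sph j → ¬ A.OnS s i y := by
    intro y hyn hyj hys
    have hya := h1 y hyj hys
    obtain ⟨y0, -, ha⟩ := hseg.harc
    rw [ha] at hya
    exact (connectedComponentIn_subset _ _ hya).2 ⟨n, j, hnj', hyn, hyj⟩
  by_cases hon : A.orth n i
  · have hsep := hS ι A n j i hnj hon (A.orth_symm hoij) y1 y2 hy12 hy1.1 hy1.2 hy2.1 hy2.2
    have n1 := hno y1 hy1.1 hy1.2
    have n2 := hno y2 hy2.1 hy2.2
    unfold Fam.OnS at n1 n2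
    rcases mul_neg_iff.1 hsep with ⟨h3, h4⟩ | ⟨h3, h4⟩
    · by_cases his : i ∈ s
      · exact n2 ⟨h4.ne, ⟨fun _ => his, fun _ => h4⟩⟩
      · exact n1 ⟨h3.ne', ⟨fun h => absurd h (not_lt.2 h3.le), fun h => absurd h his⟩⟩
    · by_cases his : i ∈ s
      · exact n1 ⟨h3.ne, ⟨fun _ => his, fun _ => h3⟩⟩
      · exact n2 ⟨h4.ne', ⟨fun h => absurd h (not_lt.2 h4.le), fun h => absurd h his⟩⟩
  · exact hno y1 hy1.1 hy1.2 (hFa ι A s i n hi hn (Ne.symm hni)
      (fun h => hon (A.orth_symm h)) y1 hy1.1)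

end Pool.Agent.Helper56.OC
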